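import Mathlib

/-!
# Two progressions with differences `d` and `2 d`: rows

`u j i`: a short interval (`p` cells) starts at the cell `i` of the row `j`, its partner (`s` cells
with step 2) starts at the cell `i` of the row `j + 1`. `w j i`: a short interval starts at the cell
`i` of the row `j`, its partner starts at the cell `i - (2 s - 1 - p)` of the row `j - 1`.
-/

namespace MPae024f.Q2

/-- a short interval -/
def a (u w : ℤ → ℤ → Prop) (j i : ℤ) : Prop := u j i ∨ w j i

/-- a long progression -/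
def l (p s : ℤ) (u w : ℤ → ℤ → Prop) (j i : ℤ) : Prop := u (j - 1) i ∨ w (j + 1) (i + (2 * s - 1 - p))

structure G (p s d e T : ℤ) (u w : ℤ → ℤ → Prop) : Prop where
  hd : 0 < d
  hp : 2 ≤ p
  hs : 2 ≤ s
  hT : 0 < T
  ex : ∀ j n, (∃ i, 0 ≤ i ∧ i < p ∧ a u w j (n - i)) ∨ ∃ i, 0 ≤ i ∧ i < s ∧ l p s u w j (n - 2 * i)
  ss : ∀ j x y, x < y → y < x + p → a u w j x → a u w j y → False
  sl : ∀ j x y i k, 0 ≤ i → i < p → 0 ≤ k → k < s → x + i = y + 2 * k → a u w j x →
    l p s u w j y → False
  ll : ∀ j x y i, 0 < i → i < s → y = x + 2 * i → l p s u w j x → l p s u w j y → False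
  uw : ∀ j i, u j i → w j i → False
  ul : ∀ j i, u (j - 1) i → w (j + 1) (i + (2 * s - 1 - p)) → False
  pu : ∀ j i, u j (i + T) ↔ u j i
  pw : ∀ j i, w j (i + T) ↔ w j i
  cu : ∀ j i, u (j + d) i ↔ u j (i + e)
  cw : ∀ j i, w (j + d) i ↔ w j (i + e)

variable {p s d e T : ℤ} {u w : ℤ → ℤ → Prop}

/-- a block: two adjacent long progressions -/
def bk (p s : ℤ) (u w : ℤ → ℤ → Prop) (j i : ℤ) : Prop := l p s u w j i ∧ l p s u w j (i + 1)

theorem per_iter {R : ℤ → Prop} (h : ∀ x, R (x + T) ↔ R x) (k x : ℤ) : R (x + k * T) ↔ R x := by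
  induction k using Int.induction_on generalizing x with
  | zero => simp
  | succ k ih =>
    rw [show x + ((k : ℤ) + 1) * T = x + k * T + T by ring, h]
    exact ih x
  | pred k ih =>
    have h1 := h (x + (-(k : ℤ) - 1) * T)
    rw [show x + (-(k : ℤ) - 1) * T + T = x + -(k : ℤ) * T by ring] at h1
    rw [← h1]
    exact ih x

namespace G

theorem ap (g : G p s d e T u w) (j k x : ℤ) : a u w j (x + k * T) ↔ a u w j x := by
  unfold a
  rw [per_iter (g.pu j) k x, per_iter (g.pw j) k x]

theorem lp (g : G p s d e T u w) (j k x : ℤ) : l p s u w j (x + k * T) ↔ l p s u w j x := by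
  unfold l
  rw [per_iter (g.pu (j - 1)) k x, show x + k * T + (2 * s - 1 - p) =
    x + (2 * s - 1 - p) + k * T by ring, per_iter (g.pw (j + 1)) k]

theorem bp (g : G p s d e T u w) (j k x : ℤ) : bk p s u w j (x + k * T) ↔ bk p s u w j x := by
  unfold bk
  rw [g.lp, show x + k * T + 1 = x + 1 + k * T by ring, g.lp]

/-- a translate of `x` by a multiple of the period is at most `y` -/
theorem tr_le (g : G p s d e T u w) (x y : ℤ) : ∃ k : ℤ, x + k * T ≤ y := by
  refine ⟨-(|x| + |y|), ?_⟩
  have := g.hT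
  have h1 := abs_nonneg x
  have h2 := abs_nonneg y
  have h3 := le_abs_self x
  have h4 := neg_abs_le y
  nlinarith

theorem tr_ge (g : G p s d e T u w) (x y : ℤ) : ∃ k : ℤ, y ≤ x + k * T := by
  refine ⟨|x| + |y|, ?_⟩
  have := g.hT
  have h1 := abs_nonneg x
  have h2 := abs_nonneg y
  have h3 := le_abs_self y
  have h4 := neg_abs_le x
  nlinarith

theorem tr_le2 (g : G p s d e T u w) {R : ℤ → Prop} (hR : ∀ k x, R (x + k * T) ↔ R x) {x : ℤ}
    (hx : R x) (y : ℤ) : ∃ x', x' ≤ y ∧ R x' := by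
  obtain ⟨k, hk⟩ := g.tr_le x y
  exact ⟨_, hk, (hR k x).2 hx⟩

theorem tr_ge2 (g : G p s d e T u w) {R : ℤ → Prop} (hR : ∀ k x, R (x + k * T) ↔ R x) {x : ℤ}
    (hx : R x) (y : ℤ) : ∃ x', y ≤ x' ∧ R x' := by
  obtain ⟨k, hk⟩ := g.tr_ge x y
  exact ⟨_, hk, (hR k x).2 hx⟩

/-- after a short interval: a short interval or a block -/
theorem nA (g : G p s d e T u w) {j x : ℤ} (hx : a u w j x) :
    a u w j (x + p) ∨ bk p s u w j (x + p) := by
  have hp := g.hp
  have hs := g.hs
  rcases g.ex j (x + p) with ⟨i, h0, h1, h2⟩ | ⟨i, h0, h1, h2⟩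
  · rcases (show i = 0 ∨ 1 ≤ i by omega) with rfl | h3
    · left; simpa using h2
    · exact absurd h2 fun h2 => g.ss j x (x + p - i) (by omega) (by omega) hx h2
  rcases (show i = 0 ∨ 1 ≤ i by omega) with rfl | h3
  swap
  · exact absurd h2 fun h2 => g.sl j x (x + p - 2 * i) (p - 2) (i - 1) (by omega) (by omega)
      (by omega) (by omega) (by ring) hx h2
  have h2' : l p s u w j (x + p) := by simpa using h2
  rcases g.ex j (x + p + 1) with ⟨i, h0, h1, h4⟩ | ⟨i, h0, h1, h4⟩
  · rcases (show i = 0 ∨ i = 1 ∨ 2 ≤ i by omega) with rfl | rfl | h3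
    · exact absurd h4 fun h4 => g.sl j (x + p + 1 - 0) (x + p) 1 1 (by omega) (by omega)
        (by omega) (by omega) (by ring) h4 h2'
    · left; simpa using h4
    · exact absurd h4 fun h4 => g.ss j x (x + p + 1 - i) (by omega) (by omega) hx h4
  · rcases (show i = 0 ∨ 1 ≤ i by omega) with rfl | h3
    · right
      exact ⟨h2', by simpa using h4⟩
    · exact absurd h4 fun h4 => g.sl j x (x + p + 1 - 2 * i) (p - 1) (i - 1) (by omega) (by omega)
        (by omega) (by omega) (by ring) hx h4

/-- after a block: a short interval or a block -/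
theorem nB (g : G p s d e T u w) {j x : ℤ} (hx : bk p s u w j x) :
    a u w j (x + 2 * s) ∨ bk p s u w j (x + 2 * s) := by
  have hp := g.hp
  have hs := g.hs
  obtain ⟨k1, k2⟩ := hx
  rcases g.ex j (x + 2 * s) with ⟨i, h0, h1, h2⟩ | ⟨i, h0, h1, h2⟩
  · rcases (show i = 0 ∨ 1 ≤ i by omega) with rfl | h3
    · left; simpa using h2
    · exact absurd h2 fun h2 => g.sl j (x + 2 * s - i) (x + 1) (i - 1) (s - 1) (by omega)
        (by omega) (by omega) (by omega) (by ring) h2 k2
  rcases (show i = 0 ∨ 1 ≤ i by omega) with rfl | h3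
  swap
  · exact absurd h2 fun h2 => g.ll j x (x + 2 * s - 2 * i) (s - i) (by omega) (by omega)
      (by ring) k1 h2
  have h2' : l p s u w j (x + 2 * s) := by simpa using h2
  rcases g.ex j (x + 2 * s + 1) with ⟨i, h0, h1, h4⟩ | ⟨i, h0, h1, h4⟩
  · rcases (show i = 0 ∨ i = 1 ∨ 2 ≤ i by omega) with rfl | rfl | h3
    · exact absurd h4 fun h4 => g.sl j (x + 2 * s + 1 - 0) (x + 2 * s) 1 1 (by omega) (by omega)
        (by omega) (by omega) (by ring) h4 h2'
    · left; simpa using h4
    · exact absurd h4 fun h4 => g.sl j (x + 2 * s + 1 - i) (x + 1) (i - 2) (s - 1) (by omega)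
        (by omega) (by omega) (by omega) (by ring) h4 k2
  · rcases (show i = 0 ∨ 1 ≤ i by omega) with rfl | h3
    · right
      exact ⟨h2', by simpa using h4⟩
    · exact absurd h4 fun h4 => g.ll j (x + 1) (x + 2 * s + 1 - 2 * i) (s - i) (by omega)
        (by omega) (by ring) k2 h4

/-- an item -/
def it (p s : ℤ) (u w : ℤ → ℤ → Prop) (j i : ℤ) : Prop := a u w j i ∨ bk p s u w j i

theorem ab (g : G p s d e T u w) {j x : ℤ} (h1 : a u w j x) (h2 : bk p s u w j x) : False := by
  have hp := g.hp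
  have hs := g.hs
  exact g.sl j x x 0 0 (by omega) (by omega) (by omega) (by omega) (by ring) h1 h2.1

theorem al (g : G p s d e T u w) {j x y : ℤ} (h1 : a u w j x) (h2 : l p s u w j y) :
    y < x ∨ x + p ≤ y := by
  have hs := g.hs
  by_contra hcon
  exact g.sl j x y (y - x) 0 (by omega) (by omega) (by omega) (by omega) (by ring) h1 h2

theorem aa (g : G p s d e T u w) {j x y : ℤ} (h1 : a u w j x) (h2 : a u w j y) (h : x < y) :
    x + p ≤ y := by
  by_contra hcon
  exact g.ss j x y h (by omega) h1 h2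

theorem ab' (g : G p s d e T u w) {j x y : ℤ} (h1 : a u w j x) (h2 : bk p s u w j y)
    (h : x < y) : x + p ≤ y := by
  rcases g.al h1 h2.1 with h3 | h3
  · omega
  · exact h3

/-- a long progression that starts after the start of a block -/
theorem bl (g : G p s d e T u w) {j x y : ℤ} (h1 : bk p s u w j x) (h2 : l p s u w j y)
    (h : x + 1 < y) : x + 2 * s ≤ y := by
  have hs := g.hs
  by_contra hcon
  rcases Int.emod_two_eq_zero_or_one (y - x) with h3 | h3
  · exact g.ll j x y ((y - x) / 2) (by omega) (by omega) (by omega) h1.1 h2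
  · exact g.ll j (x + 1) y ((y - x) / 2) (by omega) (by omega) (by omega) h1.2 h2

theorem bb (g : G p s d e T u w) {j x y : ℤ} (h1 : bk p s u w j x) (h2 : bk p s u w j y)
    (h : x < y) : x + 2 * s ≤ y := by
  have hs := g.hs
  have h3 := g.bl h1 h2.2 (by omega)
  rcases (show y = x + 1 ∨ x + 1 < y by omega) with h4 | h4
  · omega
  · exact g.bl h1 h2.1 h4

theorem ba (g : G p s d e T u w) {j x y : ℤ} (h1 : bk p s u w j x) (h2 : a u w j y)
    (h : x < y) : x + 2 * s ≤ y := by
  have hs := g.hs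
  have hp := g.hp
  by_contra hcon
  rcases Int.emod_two_eq_zero_or_one (y - x) with h3 | h3
  · exact g.sl j y x 0 ((y - x) / 2) (by omega) (by omega) (by omega) (by omega) (by omega) h2 h1.1
  · exact g.sl j y (x + 1) 0 ((y - x) / 2) (by omega) (by omega) (by omega) (by omega) (by omega)
      h2 h1.2

theorem ai (g : G p s d e T u w) {j x y : ℤ} (h1 : a u w j x) (h2 : it p s u w j y)
    (h : x < y) : x + p ≤ y := by
  rcases h2 with h2 | h2
  · exact g.aa h1 h2 h
  · exact g.ab' h1 h2 h

theorem bi (g : G p s d e T u w) {j x y : ℤ} (h1 : bk p s u w j x) (h2 : it p s u w j y)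
    (h : x < y) : x + 2 * s ≤ y := by
  rcases h2 with h2 | h2
  · exact g.ba h1 h2 h
  · exact g.bb h1 h2 h

/-- in a row with a short interval every long progression lies in a block -/
theorem blk_aux (g : G p s d e T u w) {j : ℤ} (n : ℕ) : ∀ {x y : ℤ}, it p s u w j x →
    l p s u w j y → y = x + n → bk p s u w j y ∨ bk p s u w j (y - 1) := by
  have hp := g.hp
  have hs := g.hs
  induction n using Nat.strong_induction_on with
  | _ n ih =>
    intro x y hx hy hxy
    rcases hx with hx | hx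
    · rcases g.al hx hy with h1 | h1
      · omega
      · exact ih (n - p.toNat) (by omega) (g.nA hx) hy (by omega)
    · rcases (show n = 0 ∨ n = 1 ∨ 2 ≤ n by omega) with rfl | rfl | h1
      · left
        rw [hxy]
        simpa using hx
      · right
        rw [hxy]
        simpa using hx
      · have h2 := g.bl hx hy (by omega)
        exact ih (n - (2 * s).toNat) (by omega) (g.nB hx) hy (by omega)

theorem blk (g : G p s d e T u w) {j x y : ℤ} (hx : a u w j x) (hy : l p s u w j y) :
    bk p s u w j y ∨ bk p s u w j (y - 1) := by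
  obtain ⟨x', h1, h2⟩ := g.tr_le2 (R := a u w j) (fun k x => g.ap j k x) hx y
  exact g.blk_aux (y - x').toNat (Or.inl h2) hy (by omega)

/-- the types of the two long progressions of a block differ -/
theorem ty (g : G p s d e T u w) {j b : ℤ} (hb : bk p s u w j b) :
    ∃ o, (o = 0 ∨ o = 1) ∧ u (j - 1) (b + o) ∧ w (j + 1) (b + 1 - o + (2 * s - 1 - p)) := by
  have hp := g.hp
  obtain ⟨h1 | h1, h2 | h2⟩ := hb
  · exact absurd h2 fun h2 => g.ss (j - 1) b (b + 1) (by omega) (by omega) (Or.inl h1) (Or.inl h2)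
  · exact ⟨0, Or.inl rfl, by simpa using h1, by simpa using h2⟩
  · exact ⟨1, Or.inr rfl, h2, by simpa using h1⟩
  · exact absurd h2 fun h2 => g.ss (j + 1) _ _ (by omega) (by omega) (Or.inr h1) (Or.inr h2)

end G

/-- there is no row of long progressions only -/
def NoL (p s : ℤ) (u w : ℤ → ℤ → Prop) : Prop := ∀ j y, l p s u w j y → ∃ x, a u w j x

namespace G

theorem toB (g : G p s d e T u w) (H : NoL p s u w) {j y : ℤ} (hy : l p s u w j y) :
    bk p s u w j y ∨ bk p s u w j (y - 1) := by
  obtain ⟨x, hx⟩ := H j y hy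
  exact g.blk hx hy

/-- the block over a short interval with partner above -/
theorem ub (g : G p s d e T u w) {j x z : ℤ} (hz : a u w (j + 1) z) (hx : u j x) :
    ∃ o, (o = 0 ∨ o = 1) ∧ bk p s u w (j + 1) (x - o) ∧
      w (j + 2) (x - o + 1 - o + (2 * s - 1 - p)) := by
  have hp := g.hp
  have hl : l p s u w (j + 1) x := Or.inl (by rw [show j + 1 - 1 = j by ring]; exact hx)
  rcases g.blk hz hl with h1 | h1
  · obtain ⟨o, ho, h2, h3⟩ := g.ty h1
    rw [show j + 1 - 1 = j by ring] at h2
    rw [show j + 1 + 1 = j + 2 by ring] at h3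
    rcases ho with rfl | rfl
    · exact ⟨0, Or.inl rfl, by simpa using h1, by simpa using h3⟩
    · exact absurd h2 fun h2 => g.ss j x (x + 1) (by omega) (by omega) (Or.inl hx) (Or.inl h2)
  · obtain ⟨o, ho, h2, h3⟩ := g.ty h1
    rw [show j + 1 - 1 = j by ring] at h2
    rw [show j + 1 + 1 = j + 2 by ring] at h3
    rcases ho with rfl | rfl
    · exact absurd h2 fun h2 => g.ss j (x - 1 + 0) x (by omega) (by omega) (Or.inl h2) (Or.inl hx)
    · exact ⟨1, Or.inr rfl, h1, h3⟩

/-- the block under a short interval with partner below -/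
theorem wb (g : G p s d e T u w) {j x z : ℤ} (hz : a u w (j - 1) z) (hx : w j x) :
    ∃ o, (o = 0 ∨ o = 1) ∧ bk p s u w (j - 1) (x - (2 * s - 1 - p) - o) ∧
      u (j - 2) (x - (2 * s - 1 - p) - o + 1 - o) := by
  have hp := g.hp
  have hl : l p s u w (j - 1) (x - (2 * s - 1 - p)) := Or.inr (by
    rw [show j - 1 + 1 = j by ring, show x - (2 * s - 1 - p) + (2 * s - 1 - p) = x by ring]
    exact hx)
  rcases g.blk hz hl with h1 | h1
  · obtain ⟨o, ho, h2, h3⟩ := g.ty h1
    rw [show j - 1 - 1 = j - 2 by ring] at h2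
    rw [show j - 1 + 1 = j by ring] at h3
    rcases ho with rfl | rfl
    · exact absurd h3 fun h3 => g.ss j x (x - (2 * s - 1 - p) + 1 - 0 + (2 * s - 1 - p)) (by omega)
        (by omega) (Or.inr hx) (Or.inr h3)
    · exact ⟨0, Or.inl rfl, by simpa using h1, by simpa using h2⟩
  · obtain ⟨o, ho, h2, h3⟩ := g.ty h1
    rw [show j - 1 - 1 = j - 2 by ring] at h2
    rw [show j - 1 + 1 = j by ring] at h3
    rcases ho with rfl | rfl
    · refine ⟨1, Or.inr rfl, h1, ?_⟩
      rw [show x - (2 * s - 1 - p) - 1 + 1 - 1 = x - (2 * s - 1 - p) - 1 + 0 by ring]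
      exact h2
    · exact absurd h3 fun h3 => g.ss j (x - (2 * s - 1 - p) - 1 + 1 - 1 + (2 * s - 1 - p)) x
        (by omega) (by omega) (Or.inr h3) (Or.inr hx)

/-- rotation by 180 degrees -/
theorem rot (g : G p s d e T u w) :
    G p s d e T (fun j i => w (-j) (-i - p + 1)) (fun j i => u (-j) (-i - p + 1)) := by
  have hA : ∀ j i, a (fun j i => w (-j) (-i - p + 1)) (fun j i => u (-j) (-i - p + 1)) j i ↔
      a u w (-j) (-i - p + 1) := fun j i => or_comm
  have hL : ∀ j i, l p s (fun j i => w (-j) (-i - p + 1)) (fun j i => u (-j) (-i - p + 1)) j i ↔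
      l p s u w (-j) (-i - 2 * s + 2) := by
    intro j i
    unfold l
    simp only
    rw [show -(j - 1) = -j + 1 by ring, show -(j + 1) = -j - 1 by ring,
      show -(i + (2 * s - 1 - p)) - p + 1 = -i - 2 * s + 2 by ring,
      show -i - 2 * s + 2 + (2 * s - 1 - p) = -i - p + 1 by ring]
    exact or_comm
  refine { hd := g.hd, hp := g.hp, hs := g.hs, hT := g.hT, ex := fun j n => ?_, ss := ?_,
           sl := ?_, ll := ?_, uw := ?_, ul := ?_, pu := ?_, pw := ?_, cu := ?_, cw := ?_ }
  · simp only [hA, hL]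
    rcases g.ex (-j) (-n) with ⟨i, h0, h1, h2⟩ | ⟨i, h0, h1, h2⟩
    · refine Or.inl ⟨p - 1 - i, by omega, by omega, ?_⟩
      rw [show -(n - (p - 1 - i)) - p + 1 = -n - i by ring]
      exact h2
    · refine Or.inr ⟨s - 1 - i, by omega, by omega, ?_⟩
      rw [show -(n - 2 * (s - 1 - i)) - 2 * s + 2 = -n - 2 * i by ring]
      exact h2
  · intro j x y h0 h1
    simp only [hA]
    exact fun h2 h3 => g.ss (-j) (-y - p + 1) (-x - p + 1) (by omega) (by omega) h3 h2
  · intro j x y i k h0 h1 h2 h3 h4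
    simp only [hA, hL]
    exact fun h5 h6 => g.sl (-j) (-x - p + 1) (-y - 2 * s + 2) (p - 1 - i) (s - 1 - k) (by omega)
      (by omega) (by omega) (by omega) (by linear_combination -h4) h5 h6
  · intro j x y i h0 h1 h2
    simp only [hL]
    exact fun h3 h4 => g.ll (-j) (-y - 2 * s + 2) (-x - 2 * s + 2) i h0 h1
      (by linear_combination h2) h4 h3
  · intro j i h1 h2
    exact g.uw _ _ h2 h1
  · intro j i h1 h2
    refine g.ul (-j) (-i - 2 * s + 2) ?_ ?_
    · rw [show -j - 1 = -(j + 1) by ring, show -i - 2 * s + 2 =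
        -(i + (2 * s - 1 - p)) - p + 1 by ring]
      exact h2
    · rw [show -j + 1 = -(j - 1) by ring, show -i - 2 * s + 2 + (2 * s - 1 - p) =
        -i - p + 1 by ring]
      exact h1
  · intro j i
    have := g.pw (-j) (-(i + T) - p + 1)
    rw [show -(i + T) - p + 1 + T = -i - p + 1 by ring] at this
    exact this.symm
  · intro j i
    have := g.pu (-j) (-(i + T) - p + 1)
    rw [show -(i + T) - p + 1 + T = -i - p + 1 by ring] at this
    exact this.symm
  · intro j i
    have := g.cw (-(j + d)) (-(i + e) - p + 1)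
    rw [show -(j + d) + d = -j by ring, show -(i + e) - p + 1 + e = -i - p + 1 by ring] at this
    exact this.symm
  · intro j i
    have := g.cu (-(j + d)) (-(i + e) - p + 1)
    rw [show -(j + d) + d = -j by ring, show -(i + e) - p + 1 + e = -i - p + 1 by ring] at this
    exact this.symm

/-- exchange of up and down -/
theorem flip (g : G p s d e T u w) :
    G p s d (-e - (2 * s - 1 - p) * d) T (fun j i => w (-j) (i - (2 * s - 1 - p) * j))
      (fun j i => u (-j) (i - (2 * s - 1 - p) * j)) := by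
  have hA : ∀ j i, a (fun j i => w (-j) (i - (2 * s - 1 - p) * j))
      (fun j i => u (-j) (i - (2 * s - 1 - p) * j)) j i ↔
      a u w (-j) (i - (2 * s - 1 - p) * j) := fun j i => or_comm
  have hL : ∀ j i, l p s (fun j i => w (-j) (i - (2 * s - 1 - p) * j))
      (fun j i => u (-j) (i - (2 * s - 1 - p) * j)) j i ↔
      l p s u w (-j) (i - (2 * s - 1 - p) * j) := by
    intro j i
    unfold l
    simp only
    rw [show -(j - 1) = -j + 1 by ring, show -(j + 1) = -j - 1 by ring,
      show i + (2 * s - 1 - p) - (2 * s - 1 - p) * (j + 1) = i - (2 * s - 1 - p) * j by ring,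
      show i - (2 * s - 1 - p) * (j - 1) = i - (2 * s - 1 - p) * j + (2 * s - 1 - p) by ring]
    exact or_comm
  refine { hd := g.hd, hp := g.hp, hs := g.hs, hT := g.hT, ex := fun j n => ?_, ss := ?_,
           sl := ?_, ll := ?_, uw := ?_, ul := ?_, pu := ?_, pw := ?_, cu := ?_, cw := ?_ }
  · simp only [hA, hL]
    rcases g.ex (-j) (n - (2 * s - 1 - p) * j) with ⟨i, h0, h1, h2⟩ | ⟨i, h0, h1, h2⟩
    · refine Or.inl ⟨i, h0, h1, ?_⟩
      rw [show n - i - (2 * s - 1 - p) * j = n - (2 * s - 1 - p) * j - i by ring]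
      exact h2
    · refine Or.inr ⟨i, h0, h1, ?_⟩
      rw [show n - 2 * i - (2 * s - 1 - p) * j = n - (2 * s - 1 - p) * j - 2 * i by ring]
      exact h2
  · intro j x y h0 h1
    simp only [hA]
    exact fun h2 h3 => g.ss (-j) _ _ (by linarith) (by linarith) h2 h3
  · intro j x y i k h0 h1 h2 h3 h4
    simp only [hA, hL]
    exact fun h5 h6 => g.sl (-j) _ _ i k h0 h1 h2 h3 (by linarith) h5 h6
  · intro j x y i h0 h1 h2
    simp only [hL]
    exact fun h3 h4 => g.ll (-j) _ _ i h0 h1 (by linarith) h3 h4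
  · intro j i h1 h2
    exact g.uw _ _ h2 h1
  · intro j i h1 h2
    refine g.ul (-j) (i - (2 * s - 1 - p) * j) ?_ ?_
    · rw [show -j - 1 = -(j + 1) by ring, show i - (2 * s - 1 - p) * j =
        i + (2 * s - 1 - p) - (2 * s - 1 - p) * (j + 1) by ring]
      exact h2
    · rw [show -j + 1 = -(j - 1) by ring, show i - (2 * s - 1 - p) * j + (2 * s - 1 - p) =
        i - (2 * s - 1 - p) * (j - 1) by ring]
      exact h1
  · intro j i
    rw [show i + T - (2 * s - 1 - p) * j = i - (2 * s - 1 - p) * j + T by ring]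
    exact g.pw _ _
  · intro j i
    rw [show i + T - (2 * s - 1 - p) * j = i - (2 * s - 1 - p) * j + T by ring]
    exact g.pu _ _
  · intro j i
    have := g.cw (-(j + d)) (i + (-e - (2 * s - 1 - p) * d) - (2 * s - 1 - p) * j)
    rw [show -(j + d) + d = -j by ring, show i + (-e - (2 * s - 1 - p) * d) - (2 * s - 1 - p) * j +
      e = i - (2 * s - 1 - p) * (j + d) by ring] at this
    exact this.symm
  · intro j i
    have := g.cu (-(j + d)) (i + (-e - (2 * s - 1 - p) * d) - (2 * s - 1 - p) * j)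
    rw [show -(j + d) + d = -j by ring, show i + (-e - (2 * s - 1 - p) * d) - (2 * s - 1 - p) * j +
      e = i - (2 * s - 1 - p) * (j + d) by ring] at this
    exact this.symm

end G

end MPae024f.Q2
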