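import Mathlib
import Pool.Agent.Lib.MP_ae024f_co.R2.Q2a

section
/-!
# Ratio 2, no row of long progressions only, `p ≠ s`, `p ≠ 2 s`

A block is followed by exactly two short intervals and a block; the tiling is periodic modulo
`2 (p + s)` in each row.
-/
namespace MPae024f.Q2

variable {p s d e T : ℤ} {u w : ℤ → ℤ → Prop}

namespace G

theorem flipH (g : G p s d e T u w) (H : NoL p s u w) :
    NoL p s (fun j i => w (-j) (i - (2 * s - 1 - p) * j))
      (fun j i => u (-j) (i - (2 * s - 1 - p) * j)) := by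
  intro j y hy
  have h1 : l p s u w (-j) (y - (2 * s - 1 - p) * j) := by
    unfold l at hy ⊢
    simp only at hy
    rw [show -(j - 1) = -j + 1 by ring, show -(j + 1) = -j - 1 by ring,
      show y + (2 * s - 1 - p) - (2 * s - 1 - p) * (j + 1) = y - (2 * s - 1 - p) * j by ring,
      show y - (2 * s - 1 - p) * (j - 1) = y - (2 * s - 1 - p) * j + (2 * s - 1 - p) by ring] at hy
    exact hy.symm
  obtain ⟨x, hx⟩ := H _ _ h1
  refine ⟨x + (2 * s - 1 - p) * j, ?_⟩
  unfold a at hx ⊢
  simp only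
  rw [show x + (2 * s - 1 - p) * j - (2 * s - 1 - p) * j = x by ring]
  exact hx.symm

/-- the block over a short interval with partner above -/
theorem ubH (g : G p s d e T u w) (H : NoL p s u w) {j x : ℤ} (hx : u j x) :
    ∃ o, (o = 0 ∨ o = 1) ∧ bk p s u w (j + 1) (x - o) ∧
      w (j + 2) (x - o + 1 - o + (2 * s - 1 - p)) := by
  have hl : l p s u w (j + 1) x := Or.inl (by rw [show j + 1 - 1 = j by ring]; exact hx)
  obtain ⟨z, hz⟩ := H _ _ hl
  exact g.ub hz hx

theorem uu_lt (g : G p s d e T u w) (H : NoL p s u w) (hps : p < 2 * s - 1) {j x : ℤ}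
    (h1 : u j x) (h2 : u j (x + p)) : False := by
  have hp := g.hp
  obtain ⟨o1, ho1, k1, -⟩ := g.ubH H h1
  obtain ⟨o2, ho2, k2, -⟩ := g.ubH H h2
  have := g.bb k1 k2 (by omega)
  omega

theorem flip_u {j x : ℤ} (h : w j x) :
    (fun j i => w (-j) (i - (2 * s - 1 - p) * j)) (-j) (x - (2 * s - 1 - p) * j) := by
  simp only
  rw [neg_neg, show x - (2 * s - 1 - p) * j - (2 * s - 1 - p) * -j = x by ring]
  exact h

theorem ww_lt (g : G p s d e T u w) (H : NoL p s u w) (hps : p < 2 * s - 1) {j x : ℤ}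
    (h1 : w j x) (h2 : w j (x + p)) : False :=
  g.flip.uu_lt (g.flipH H) hps (flip_u (p := p) (s := s) h1) (by
    have := flip_u (p := p) (s := s) h2
    rwa [show x + p - (2 * s - 1 - p) * j = x - (2 * s - 1 - p) * j + p by ring] at this)

theorem uwu_lt (g : G p s d e T u w) (H : NoL p s u w) (hps : p < 2 * s - 1) (hne : p ≠ s)
    {j x : ℤ} (h1 : u j x) (h2 : w j (x + p)) (h3 : u j (x + p + p)) : False := by
  have hp := g.hp
  have hs := g.hs
  obtain ⟨o1, ho1, k1, -⟩ := g.ubH H h1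
  obtain ⟨o3, ho3, k3, -⟩ := g.ubH H h3
  have h4 := g.bb k1 k3 (by omega)
  rcases g.nB k1 with h5 | h5
  · have := g.ai h5 (Or.inr k3) (by
      rcases (show x - o1 + 2 * s = x + p + p - o3 ∨ x - o1 + 2 * s < x + p + p - o3 by omega)
        with h6 | h6
      · exact absurd k3 (by rw [← h6]; exact fun h => g.ab h5 h)
      · exact h6)
    omega
  · obtain ⟨o, ho, k, -⟩ := g.ty h5
    rw [show j + 1 - 1 = j by ring] at k
    have h6 : x - o1 + 2 * s = x + p + p - o3 ∨ x - o1 + 2 * s < x + p + p - o3 := by omega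
    rcases h6 with h6 | h6
    · omega
    · have h7 := g.bb h5 k3 h6
      have h8 : x + p ≤ x - o1 + 2 * s + o := g.aa (Or.inl h1) (Or.inl k) (by omega)
      rcases (show x + p = x - o1 + 2 * s + o ∨ x + p < x - o1 + 2 * s + o by omega) with h9 | h9
      · rw [← h9] at k
        exact g.uw _ _ k h2
      · have := g.aa (Or.inr h2) (Or.inl k) h9
        omega

theorem sss_lt (g : G p s d e T u w) (H : NoL p s u w) (hps : p < 2 * s - 1) (hne : p ≠ s)
    {j x : ℤ} (h1 : a u w j x) (h2 : a u w j (x + p)) (h3 : a u w j (x + p + p)) : False := by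
  rcases h1 with h1 | h1 <;> rcases h2 with h2 | h2
  · exact g.uu_lt H hps h1 h2
  · rcases h3 with h3 | h3
    · exact g.uwu_lt H hps hne h1 h2 h3
    · exact g.ww_lt H hps h2 h3
  · rcases h3 with h3 | h3
    · exact g.uu_lt H hps h2 h3
    · refine g.flip.uwu_lt (g.flipH H) hps hne (flip_u (p := p) (s := s) h1) ?_ ?_
      · show u (- -j) (x - (2 * s - 1 - p) * j + p - (2 * s - 1 - p) * -j)
        rw [neg_neg, show x - (2 * s - 1 - p) * j + p - (2 * s - 1 - p) * -j = x + p by ring]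
        exact h2
      · have := flip_u (p := p) (s := s) h3
        rwa [show x + p + p - (2 * s - 1 - p) * j = x - (2 * s - 1 - p) * j + p + p by ring]
          at this
  · exact g.ww_lt H hps h1 h2

/-- short intervals at distance at most `2 s + 1` -/
theorem seg (g : G p s d e T u w) {j x y : ℤ} (h1 : a u w j x) (h2 : a u w j y)
    (h : x < y) (h' : y ≤ x + 2 * s + 1) : y = x + p ∨ (a u w j (x + p) ∧ x + p + p ≤ y) := by
  have hp := g.hp
  have h3 := g.aa h1 h2 h
  rcases (show y = x + p ∨ x + p < y by omega) with h4 | h4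
  · exact Or.inl h4
  · rcases g.nA h1 with h5 | h5
    · exact Or.inr ⟨h5, g.aa h5 h2 h4⟩
    · have := g.ba h5 h2 h4
      omega

/-- two adjacent blocks -/
theorem n0 (g : G p s d e T u w) (H : NoL p s u w) (hne : p ≠ s) (hne2 : p ≠ 2 * s)
    {j b : ℤ} (h1 : bk p s u w j b) (h2 : bk p s u w j (b + 2 * s)) : False := by
  have hp := g.hp
  have hs := g.hs
  obtain ⟨o1, ho1, k1, m1⟩ := g.ty h1
  obtain ⟨o2, ho2, k2, m2⟩ := g.ty h2
  have h3 := g.seg (Or.inl k1) (Or.inl k2) (by omega) (by omega)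
  have h4 := g.seg (Or.inr m1) (Or.inr m2) (by omega) (by omega)
  rcases le_or_gt (2 * s - 1) p with h5 | h5
  · omega
  · have h6 : ∀ j x y, a u w j x → a u w j y → (a u w j (x + p) ∧ x + p + p ≤ y) →
        x < y → y ≤ x + 2 * s + 1 → y = x + p + p := by
      intro j x y hx hy ⟨h7, h8⟩ h9 h10
      rcases g.seg h7 hy (by omega) (by omega) with h11 | ⟨h11, -⟩
      · exact h11
      · exact absurd h11 fun h => g.sss_lt H h5 hne hx h7 h
    rcases h3 with h3 | h3 <;> rcases h4 with h4 | h4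
    · omega
    · have := h6 _ _ _ (Or.inr m1) (Or.inr m2) h4 (by omega) (by omega)
      omega
    · have := h6 _ _ _ (Or.inl k1) (Or.inl k2) h3 (by omega) (by omega)
      omega
    · have := h6 _ _ _ (Or.inr m1) (Or.inr m2) h4 (by omega) (by omega)
      have := h6 _ _ _ (Or.inl k1) (Or.inl k2) h3 (by omega) (by omega)
      omega

/-- the short intervals of the partners of two blocks that are separated by one short interval -/
theorem n1_aux (g : G p s d e T u w) (H : NoL p s u w) (hne : p ≠ s) (hne2 : p ≠ 2 * s)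
    {j x k : ℤ} (hk : k = 0 ∨ k = 1 ∨ k = -1) (h1 : a u w j x)
    (h2 : a u w j (x + 2 * s + p + k)) :
    (k = 0 ∧ bk p s u w j (x + p)) ∨ (p = 2 * s + k ∧ k ≠ 0) := by
  have hp := g.hp
  have hs := g.hs
  rcases g.nA h1 with h3 | h3
  · right
    rcases g.seg h3 h2 (by omega) (by omega) with h4 | ⟨h4, h5⟩
    · omega
    · exfalso
      rcases le_or_gt (2 * s - 1) p with h6 | h6
      · omega
      · exact g.sss_lt H h6 hne h1 h3 h4
  · left
    have h4 := g.ba h3 h2 (by omega)
    rcases (show k = 0 ∨ k = 1 by omega) with h5 | h5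
    · exact ⟨h5, h3⟩
    · exfalso
      rcases g.nB h3 with h6 | h6
      · have := g.aa h6 h2 (by omega)
        omega
      · have := g.ba h6 h2 (by omega)
        omega

theorem n1 (g : G p s d e T u w) (H : NoL p s u w) (hne : p ≠ s) (hne2 : p ≠ 2 * s)
    {j b : ℤ} (h1 : bk p s u w j b) (h2 : a u w j (b + 2 * s))
    (h3 : bk p s u w j (b + 2 * s + p)) : False := by
  have hp := g.hp
  have hs := g.hs
  obtain ⟨o1, ho1, k1, m1⟩ := g.ty h1
  obtain ⟨o2, ho2, k2, m2⟩ := g.ty h3
  have h4 := g.n1_aux H hne hne2 (k := o2 - o1) (by omega) (Or.inl k1) (by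
    rw [show b + o1 + 2 * s + p + (o2 - o1) = b + 2 * s + p + o2 by ring]
    exact Or.inl k2)
  have h5 := g.n1_aux H hne hne2 (k := o1 - o2) (by omega) (Or.inr m1) (by
    rw [show b + 1 - o1 + (2 * s - 1 - p) + 2 * s + p + (o1 - o2) =
      b + 2 * s + p + 1 - o2 + (2 * s - 1 - p) by ring]
    exact Or.inr m2)
  rcases h4 with ⟨h6, h4⟩ | h4
  · rcases h5 with ⟨h7, h5⟩ | h5
    · obtain ⟨o3, ho3, -, m3⟩ := g.ty h4
      obtain ⟨o4, ho4, k4, -⟩ := g.ty h5
      rw [show j - 1 + 1 = j by ring] at m3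
      rw [show j + 1 - 1 = j by ring] at k4
      have h8 : b + o1 + p + 1 - o3 + (2 * s - 1 - p) = b + 2 * s := by
        by_contra hcon
        rcases lt_or_gt_of_ne hcon with h9 | h9
        · have := g.aa (Or.inr m3) h2 h9
          omega
        · have := g.aa h2 (Or.inr m3) h9
          omega
      have h10 : b + 1 - o1 + (2 * s - 1 - p) + p + o4 = b + 2 * s := by
        by_contra hcon
        rcases lt_or_gt_of_ne hcon with h9 | h9
        · have := g.aa (Or.inl k4) h2 h9
          omega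
        · have := g.aa h2 (Or.inl k4) h9
          omega
      rw [h8] at m3
      rw [h10] at k4
      exact g.uw _ _ k4 m3
    · omega
  · rcases h5 with ⟨h7, h5⟩ | h5
    · omega
    · omega

/-- two adjacent short intervals with partners above -/
theorem uu (g : G p s d e T u w) (H : NoL p s u w) (hne : p ≠ s) (hne2 : p ≠ 2 * s)
    {j x : ℤ} (h1 : u j x) (h2 : u j (x + p)) : False := by
  have hp := g.hp
  have hs := g.hs
  obtain ⟨o1, ho1, k1, -⟩ := g.ubH H h1
  obtain ⟨o2, ho2, k2, -⟩ := g.ubH H h2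
  have h3 := g.bb k1 k2 (by omega)
  rcases g.nB k1 with h4 | h4
  · rcases (show x - o1 + 2 * s = x + p - o2 ∨ x - o1 + 2 * s < x + p - o2 by omega) with h5 | h5
    · rw [← h5] at k2
      exact g.ab h4 k2
    · have := g.ab' h4 k2 h5
      omega
  · exact g.n0 H hne hne2 k1 h4

theorem ww (g : G p s d e T u w) (H : NoL p s u w) (hne : p ≠ s) (hne2 : p ≠ 2 * s)
    {j x : ℤ} (h1 : w j x) (h2 : w j (x + p)) : False :=
  g.flip.uu (g.flipH H) hne hne2 (flip_u (p := p) (s := s) h1) (by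
    have := flip_u (p := p) (s := s) h2
    rwa [show x + p - (2 * s - 1 - p) * j = x - (2 * s - 1 - p) * j + p by ring] at this)

theorem uwu (g : G p s d e T u w) (H : NoL p s u w) (hne : p ≠ s) (hne2 : p ≠ 2 * s)
    {j x : ℤ} (h1 : u j x) (h2 : w j (x + p)) (h3 : u j (x + p + p)) : False := by
  have hp := g.hp
  have hs := g.hs
  rcases le_or_gt (2 * s - 1) p with h4 | h4
  swap
  · exact g.uwu_lt H h4 hne h1 h2 h3
  obtain ⟨o1, ho1, k1, -⟩ := g.ubH H h1
  obtain ⟨o3, ho3, k3, -⟩ := g.ubH H h3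
  have h5 := g.bb k1 k3 (by omega)
  rcases g.nB k1 with h6 | h6
  swap
  · exact g.n0 H hne hne2 k1 h6
  have h7 : x - o1 + 2 * s < x + p + p - o3 := by
    rcases (show x - o1 + 2 * s = x + p + p - o3 ∨ x - o1 + 2 * s < x + p + p - o3 by omega)
      with h8 | h8
    · rw [← h8] at k3
      exact absurd k3 fun h => g.ab h6 h
    · exact h8
  have h8 := g.ab' h6 k3 h7
  rcases g.nA h6 with h9 | h9
  · rcases (show x - o1 + 2 * s + p = x + p + p - o3 ∨ x - o1 + 2 * s + p < x + p + p - o3 by omega)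
      with h10 | h10
    · rw [← h10] at k3
      exact g.ab h9 k3
    · have := g.ab' h9 k3 h10
      omega
  · exact g.n1 H hne hne2 k1 h6 h9

theorem sss (g : G p s d e T u w) (H : NoL p s u w) (hne : p ≠ s) (hne2 : p ≠ 2 * s)
    {j x : ℤ} (h1 : a u w j x) (h2 : a u w j (x + p)) (h3 : a u w j (x + p + p)) : False := by
  rcases h1 with h1 | h1 <;> rcases h2 with h2 | h2
  · exact g.uu H hne hne2 h1 h2
  · rcases h3 with h3 | h3
    · exact g.uwu H hne hne2 h1 h2 h3
    · exact g.ww H hne hne2 h2 h3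
  · rcases h3 with h3 | h3
    · exact g.uu H hne hne2 h2 h3
    · refine g.flip.uwu (g.flipH H) hne hne2 (flip_u (p := p) (s := s) h1) ?_ ?_
      · show u (- -j) (x - (2 * s - 1 - p) * j + p - (2 * s - 1 - p) * -j)
        rw [neg_neg, show x - (2 * s - 1 - p) * j + p - (2 * s - 1 - p) * -j = x + p by ring]
        exact h2
      · have := flip_u (p := p) (s := s) h3
        rwa [show x + p + p - (2 * s - 1 - p) * j = x - (2 * s - 1 - p) * j + p + p by ring]
          at this
  · exact g.ww H hne hne2 h1 h2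

/-- a block is followed by exactly two short intervals and a block -/
theorem two (g : G p s d e T u w) (H : NoL p s u w) (hne : p ≠ s) (hne2 : p ≠ 2 * s)
    {j b : ℤ} (h1 : bk p s u w j b) :
    a u w j (b + 2 * s) ∧ a u w j (b + 2 * s + p) ∧ bk p s u w j (b + 2 * s + p + p) := by
  rcases g.nB h1 with h2 | h2
  swap
  · exact absurd h2 fun h => g.n0 H hne hne2 h1 h
  rcases g.nA h2 with h3 | h3
  swap
  · exact absurd h3 fun h => g.n1 H hne hne2 h1 h2 h
  rcases g.nA h3 with h4 | h4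
  · exact absurd h4 fun h => g.sss H hne hne2 h2 h3 h
  · exact ⟨h2, h3, h4⟩

theorem uniqN (g : G p s d e T u w) (H : NoL p s u w) (hne : p ≠ s) (hne2 : p ≠ 2 * s)
    {j : ℤ} (n : ℕ) : ∀ {b y : ℤ}, bk p s u w j b → bk p s u w j y → y = b + n →
      2 * (p + s) ∣ y - b := by
  have hp := g.hp
  have hs := g.hs
  induction n using Nat.strong_induction_on with
  | _ n ih =>
    intro b y hb hy hby
    rcases Nat.eq_zero_or_pos n with rfl | hn
    · exact ⟨0, by rw [hby]; push_cast; ring⟩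
    obtain ⟨h1, h2, h3⟩ := g.two H hne hne2 hb
    have h4 := g.bb hb hy (by omega)
    have h5 : b + 2 * s < y := by
      rcases (show b + 2 * s = y ∨ b + 2 * s < y by omega) with h | h
      · rw [← h] at hy
        exact absurd hy fun h => g.ab h1 h
      · exact h
    have h6 := g.ab' h1 hy h5
    have h7 : b + 2 * s + p < y := by
      rcases (show b + 2 * s + p = y ∨ b + 2 * s + p < y by omega) with h | h
      · rw [← h] at hy
        exact absurd hy fun h => g.ab h2 h
      · exact h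
    have h8 := g.ab' h2 hy h7
    have h9 := ih (n - (2 * (p + s)).toNat) (by omega) h3 hy (by omega)
    have h10 : y - b = (y - (b + 2 * s + p + p)) + 2 * (p + s) * 1 := by ring
    rw [h10]
    exact dvd_add h9 (Dvd.intro _ rfl)

theorem uniq (g : G p s d e T u w) (H : NoL p s u w) (hne : p ≠ s) (hne2 : p ≠ 2 * s)
    {j b y : ℤ} (hb : bk p s u w j b) (hy : bk p s u w j y) : 2 * (p + s) ∣ y - b := by
  rcases le_total b y with h | h
  · exact g.uniqN H hne hne2 (y - b).toNat hb hy (by omega)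
  · have := g.uniqN H hne hne2 (b - y).toNat hy hb (by omega)
    rw [show y - b = -(b - y) by ring]
    exact this.neg_right

theorem cb (g : G p s d e T u w) (j i : ℤ) : bk p s u w (j + d) i ↔ bk p s u w j (i + e) := by
  unfold bk l
  rw [show j + d - 1 = j - 1 + d by ring, show j + d + 1 = j + 1 + d by ring, g.cu, g.cw, g.cu,
    g.cw, show i + (2 * s - 1 - p) + e = i + e + (2 * s - 1 - p) by ring,
    show i + 1 + e = i + e + 1 by ring, show i + 1 + (2 * s - 1 - p) + e =
      i + e + 1 + (2 * s - 1 - p) by ring]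

/-- first case: the block is carried over by `2 s` -/
theorem s1 (g : G p s d e T u w) (H : NoL p s u w) (hne : p ≠ s) (hne2 : p ≠ 2 * s)
    {j b : ℤ} (h1 : bk p s u w j b) (h2 : u (j - 1) b) (h3 : u j (b + 2 * s)) :
    bk p s u w (j + 1) (b + 2 * s) ∧ u (j + 1 - 1) (b + 2 * s) ∧
      u (j + 1) (b + 2 * s + 2 * s) := by
  have hp := g.hp
  have hs := g.hs
  obtain ⟨o, ho, k1, k2⟩ := g.ty h1
  have ho0 : o = 0 := by
    rcases ho with rfl | rfl
    · rfl
    · exact absurd k1 fun k1 => g.ss _ _ _ (by omega) (by omega) (Or.inl h2) (Or.inl k1)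
  subst ho0
  have hl : l p s u w (j + 1) (b + 2 * s) := Or.inl (by
    rw [show j + 1 - 1 = j by ring]; exact h3)
  have hB : bk p s u w (j + 1) (b + 2 * s) := by
    have h4 := g.nA (j := j + 1) (Or.inr k2)
    rw [show b + 1 - 0 + (2 * s - 1 - p) + p = b + 2 * s by ring] at h4
    rcases h4 with h4 | h4
    · rcases g.al h4 hl with h5 | h5 <;> omega
    · exact h4
  refine ⟨hB, by rw [show j + 1 - 1 = j by ring]; exact h3, ?_⟩
  obtain ⟨h5, -, -⟩ := g.two H hne hne2 hB
  rcases h5 with h5 | h5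
  · exact h5
  · exfalso
    obtain ⟨-, h6, -⟩ := g.two H hne hne2 h1
    have h7 : l p s u w j (b + 2 * s + p + 1) := Or.inr (by
      rw [show b + 2 * s + p + 1 + (2 * s - 1 - p) = b + 2 * s + 2 * s by ring]
      exact h5)
    rcases g.al h6 h7 with h8 | h8 <;> omega

/-- second case: the block is carried over by `2 s + p` -/
theorem s2 (g : G p s d e T u w) (H : NoL p s u w) (hne : p ≠ s) (hne2 : p ≠ 2 * s)
    {j b : ℤ} (h1 : bk p s u w j b) (h2 : u (j - 1) b) (h3 : w j (b + 2 * s)) :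
    bk p s u w (j + 1) (b + (2 * s + p)) ∧ u (j + 1 - 1) (b + (2 * s + p)) ∧
      w (j + 1) (b + (2 * s + p) + 2 * s) := by
  have hp := g.hp
  have hs := g.hs
  obtain ⟨o, ho, k1, k2⟩ := g.ty h1
  have ho0 : o = 0 := by
    rcases ho with rfl | rfl
    · rfl
    · exact absurd k1 fun k1 => g.ss _ _ _ (by omega) (by omega) (Or.inl h2) (Or.inl k1)
  subst ho0
  obtain ⟨h4, h5, h6⟩ := g.two H hne hne2 h1
  have h7 : u j (b + 2 * s + p) := by
    rcases h5 with h5 | h5
    · exact h5
    · exact absurd h5 fun h5 => g.ww H hne hne2 h3 h5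
  have hl : l p s u w (j + 1) (b + 2 * s + p) := Or.inl (by
    rw [show j + 1 - 1 = j by ring]; exact h7)
  have hA : a u w (j + 1) (b + 2 * s) := by
    have h8 := g.nA (j := j + 1) (Or.inr k2)
    rw [show b + 1 - 0 + (2 * s - 1 - p) + p = b + 2 * s by ring] at h8
    rcases h8 with h8 | h8
    · exact h8
    · exfalso
      obtain ⟨o', ho', k3, -⟩ := g.ty h8
      rw [show j + 1 - 1 = j by ring] at k3
      rcases ho' with rfl | rfl
      · rw [show b + 2 * s + 0 = b + 2 * s by ring] at k3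
        exact g.uw _ _ k3 h3
      · exact g.ss _ _ _ (by omega) (by omega) (Or.inr h3) (Or.inl k3)
  have hB : bk p s u w (j + 1) (b + 2 * s + p) := by
    rcases g.nA hA with h8 | h8
    · rcases g.al h8 hl with h9 | h9 <;> omega
    · exact h8
  rw [show b + (2 * s + p) = b + 2 * s + p by ring]
  refine ⟨hB, by rw [show j + 1 - 1 = j by ring]; exact h7, ?_⟩
  obtain ⟨h8, h9, -⟩ := g.two H hne hne2 hB
  rcases h8 with h8 | h8
  swap
  · exact h8
  exfalso
  have h10 : w (j + 1) (b + 2 * s + p + 2 * s + p) := by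
    rcases h9 with h9 | h9
    · exact absurd h9 fun h9 => g.uu H hne hne2 h8 h9
    · exact h9
  have h11 : l p s u w j (b + 2 * s + p + p + (p + 1)) := Or.inr (by
    rw [show b + 2 * s + p + p + (p + 1) + (2 * s - 1 - p) = b + 2 * s + p + 2 * s + p by ring]
    exact h10)
  have h12 := g.bl h6 h11 (by omega)
  obtain ⟨h13, -, -⟩ := g.two H hne hne2 h6
  rcases g.al h13 h11 with h14 | h14 <;> omega

theorem s1N (g : G p s d e T u w) (H : NoL p s u w) (hne : p ≠ s) (hne2 : p ≠ 2 * s)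
    {j b : ℤ} (h1 : bk p s u w j b) (h2 : u (j - 1) b) (h3 : u j (b + 2 * s)) (k : ℕ) :
    bk p s u w (j + k) (b + k * (2 * s)) ∧ u (j + k - 1) (b + k * (2 * s)) ∧
      u (j + k) (b + k * (2 * s) + 2 * s) := by
  induction k with
  | zero => simpa using ⟨h1, h2, h3⟩
  | succ k ih =>
    have := g.s1 H hne hne2 ih.1 ih.2.1 ih.2.2
    rw [show j + ((k + 1 : ℕ) : ℤ) = j + k + 1 by push_cast; ring,
      show b + ((k + 1 : ℕ) : ℤ) * (2 * s) = b + k * (2 * s) + 2 * s by push_cast; ring]
    exact this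

theorem s2N (g : G p s d e T u w) (H : NoL p s u w) (hne : p ≠ s) (hne2 : p ≠ 2 * s)
    {j b : ℤ} (h1 : bk p s u w j b) (h2 : u (j - 1) b) (h3 : w j (b + 2 * s)) (k : ℕ) :
    bk p s u w (j + k) (b + k * (2 * s + p)) ∧ u (j + k - 1) (b + k * (2 * s + p)) ∧
      w (j + k) (b + k * (2 * s + p) + 2 * s) := by
  induction k with
  | zero => simpa using ⟨h1, h2, h3⟩
  | succ k ih =>
    have := g.s2 H hne hne2 ih.1 ih.2.1 ih.2.2
    rw [show j + ((k + 1 : ℕ) : ℤ) = j + k + 1 by push_cast; ring,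
      show b + ((k + 1 : ℕ) : ℤ) * (2 * s + p) = b + k * (2 * s + p) + (2 * s + p) by
        push_cast; ring]
    exact this

theorem main0 (g : G p s d e T u w) (H : NoL p s u w) (hne : p ≠ s) (hne2 : p ≠ 2 * s)
    {j b : ℤ} (h1 : bk p s u w j b) (h2 : u (j - 1) b) :
    2 * (p + s) ∣ e - p * d ∨ 2 * (p + s) ∣ e - 2 * p * d := by
  have hd := g.hd
  obtain ⟨k, hk⟩ : ∃ k : ℕ, d = k := ⟨d.toNat, by omega⟩
  obtain ⟨h3, -, -⟩ := g.two H hne hne2 h1
  rcases h3 with h3 | h3
  · right
    have h4 := (g.s1N H hne hne2 h1 h2 h3 k).1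
    rw [← hk, g.cb] at h4
    have h5 := g.uniq H hne hne2 h1 h4
    rw [show e - 2 * p * d = (b + d * (2 * s) + e - b) - 2 * (p + s) * d by ring]
    exact dvd_sub h5 (Dvd.intro _ rfl)
  · left
    have h4 := (g.s2N H hne hne2 h1 h2 h3 k).1
    rw [← hk, g.cb] at h4
    have h5 := g.uniq H hne hne2 h1 h4
    rw [show e - p * d = (b + d * (2 * s + p) + e - b) - 2 * (p + s) * d by ring]
    exact dvd_sub h5 (Dvd.intro _ rfl)

theorem exB (g : G p s d e T u w) (H : NoL p s u w) : ∃ j b, bk p s u w j b := by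
  obtain ⟨j, y, hy⟩ : ∃ j y, l p s u w j y := by
    rcases g.ex 0 0 with ⟨i, -, -, h1 | h1⟩ | ⟨i, -, -, h1⟩
    · exact ⟨1, 0 - i, Or.inl (by simpa using h1)⟩
    · exact ⟨-1, 0 - i - (2 * s - 1 - p), Or.inr (by
        rw [show 0 - i - (2 * s - 1 - p) + (2 * s - 1 - p) = 0 - i by ring,
          show (-1 : ℤ) + 1 = 0 by norm_num]
        exact h1)⟩
    · exact ⟨0, _, h1⟩
  rcases g.toB H hy with h | h
  · exact ⟨_, _, h⟩
  · exact ⟨_, _, h⟩

/-- necessary conditions if no row consists of long progressions only and `p ≠ s, 2 s` -/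
theorem main (g : G p s d e T u w) (H : NoL p s u w) (hne : p ≠ s) (hne2 : p ≠ 2 * s) :
    ∃ c, (c = p ∨ c = p + 1 ∨ c = 2 * p ∨ c = 2 * p + 1) ∧ 2 * (p + s) ∣ e - c * d := by
  obtain ⟨j, b, hb⟩ := g.exB H
  obtain ⟨o, ho, k1, k2⟩ := g.ty hb
  rcases ho with rfl | rfl
  · rw [show b + 0 = b by ring] at k1
    rcases g.main0 H hne hne2 hb k1 with h | h
    · exact ⟨p, Or.inl rfl, h⟩
    · exact ⟨2 * p, Or.inr (Or.inr (Or.inl rfl)), h⟩
  · have hb' : bk p s (fun j i => w (-j) (i - (2 * s - 1 - p) * j))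
        (fun j i => u (-j) (i - (2 * s - 1 - p) * j)) (-j) (b - (2 * s - 1 - p) * j) := by
      unfold bk l at hb ⊢
      simp only
      rw [show -(-j - 1) = j + 1 by ring, show -(-j + 1) = j - 1 by ring,
        show b - (2 * s - 1 - p) * j - (2 * s - 1 - p) * (-j - 1) = b + (2 * s - 1 - p) by ring,
        show b - (2 * s - 1 - p) * j + (2 * s - 1 - p) - (2 * s - 1 - p) * (-j + 1) = b by ring,
        show b - (2 * s - 1 - p) * j + 1 - (2 * s - 1 - p) * (-j - 1) =
          b + 1 + (2 * s - 1 - p) by ring,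
        show b - (2 * s - 1 - p) * j + 1 + (2 * s - 1 - p) - (2 * s - 1 - p) * (-j + 1) =
          b + 1 by ring]
      exact ⟨hb.1.symm, hb.2.symm⟩
    have hu : (fun j i => w (-j) (i - (2 * s - 1 - p) * j)) (-j - 1)
        (b - (2 * s - 1 - p) * j) := by
      simp only
      rw [show -(-j - 1) = j + 1 by ring,
        show b - (2 * s - 1 - p) * j - (2 * s - 1 - p) * (-j - 1) = b + 1 - 1 + (2 * s - 1 - p) by
          ring]
      exact k2
    rcases g.flip.main0 (g.flipH H) hne hne2 hb' hu with ⟨m, hm⟩ | ⟨m, hm⟩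
    · exact ⟨2 * p + 1, Or.inr (Or.inr (Or.inr rfl)), ⟨-m - d, by linear_combination -hm⟩⟩
    · exact ⟨p + 1, Or.inr (Or.inl rfl), ⟨-m - d, by linear_combination -hm⟩⟩

end G

end MPae024f.Q2
end

section
/-!
# Ratio 2, no row of long progressions only, `p = s` or `p = 2 s`
-/
namespace MPae024f.Q2

variable {p s d e T : ℤ} {u w : ℤ → ℤ → Prop}

theorem bkf {j b : ℤ} : bk p s (fun j i => w (-j) (i - (2 * s - 1 - p) * j))
    (fun j i => u (-j) (i - (2 * s - 1 - p) * j)) j b ↔
    bk p s u w (-j) (b - (2 * s - 1 - p) * j) := by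
  unfold bk l
  simp only
  rw [show -(j - 1) = -j + 1 by ring, show -(j + 1) = -j - 1 by ring,
    show b + (2 * s - 1 - p) - (2 * s - 1 - p) * (j + 1) = b - (2 * s - 1 - p) * j by ring,
    show b - (2 * s - 1 - p) * (j - 1) = b - (2 * s - 1 - p) * j + (2 * s - 1 - p) by ring,
    show b + 1 + (2 * s - 1 - p) - (2 * s - 1 - p) * (j + 1) =
      b - (2 * s - 1 - p) * j + 1 by ring,
    show b + 1 - (2 * s - 1 - p) * (j - 1) =
      b - (2 * s - 1 - p) * j + 1 + (2 * s - 1 - p) by ring]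
  tauto

theorem small_dvd {p k : ℤ} (hp : 2 ≤ p) (h : p ∣ k) (h1 : -1 ≤ k) (h2 : k ≤ 1) : k = 0 := by
  obtain ⟨m, hm⟩ := h
  rcases (show m = 0 ∨ 1 ≤ m ∨ m ≤ -1 by omega) with h3 | h3 | h3
  · rw [hm, h3]; ring
  · nlinarith
  · nlinarith

namespace G

/-- all items of a row start in one class modulo `p` -/
theorem congN (g : G p s d e T u w) (hps : p ∣ 2 * s) {j : ℤ} (n : ℕ) : ∀ {x y : ℤ},
    it p s u w j x → it p s u w j y → y = x + n → p ∣ y - x := by
  have hp := g.hp
  have hs := g.hs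
  induction n using Nat.strong_induction_on with
  | _ n ih =>
    intro x y hx hy hxy
    rcases Nat.eq_zero_or_pos n with rfl | hn
    · exact ⟨0, by rw [hxy]; push_cast; ring⟩
    rcases hx with hx | hx
    · have h1 := g.ai hx hy (by omega)
      have h2 := ih (n - p.toNat) (by omega) (g.nA hx) hy (by omega)
      rw [show y - x = y - (x + p) + p by ring]
      exact dvd_add h2 dvd_rfl
    · have h1 := g.bi hx hy (by omega)
      have h2 := ih (n - (2 * s).toNat) (by omega) (g.nB hx) hy (by omega)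
      rw [show y - x = y - (x + 2 * s) + 2 * s by ring]
      exact dvd_add h2 hps

theorem cong (g : G p s d e T u w) (hps : p ∣ 2 * s) {j x y : ℤ}
    (hx : it p s u w j x) (hy : it p s u w j y) : p ∣ y - x := by
  rcases le_total x y with h | h
  · exact g.congN hps (y - x).toNat hx hy (by omega)
  · have := g.congN hps (x - y).toNat hy hx (by omega)
    rw [show y - x = -(x - y) by ring]
    exact this.neg_right

/-- the offset of the blocks does not change from a row to the next -/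
theorem off (g : G p s d e T u w) (hps : p ∣ 2 * s) {j b b' o o' : ℤ} (ho : o = 0 ∨ o = 1)
    (ho' : o' = 0 ∨ o' = 1) (hb : bk p s u w j b) (hb' : bk p s u w (j + 1) b')
    (h1 : w (j + 1) (b + 1 - o + (2 * s - 1 - p))) (h2 : u j (b' + o')) :
    o' = o ∧ p ∣ b' - b + o := by
  have hp := g.hp
  have k1 := g.cong hps (Or.inl (Or.inr h1)) (Or.inr hb')
  have k2 := g.cong hps (Or.inr hb) (Or.inl (Or.inl h2))
  have k3 : p ∣ b' - b + o := by
    rw [show b' - b + o = (b' - (b + 1 - o + (2 * s - 1 - p))) + (2 * s - p) by ring]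
    exact dvd_add k1 (dvd_sub hps dvd_rfl)
  have k4 : p ∣ o' - o := by
    rw [show o' - o = (b' + o' - b) - (b' - b + o) by ring]
    exact dvd_sub k2 k3
  have := small_dvd hp k4 (by omega) (by omega)
  exact ⟨by omega, k3⟩

/-- every row has a block -/
theorem allB (g : G p s d e T u w) (hps : p ∣ 2 * s) (hall : ∀ j, ∃ b, bk p s u w j b) :
    p ∣ e ∨ p ∣ e - d := by
  have hd := g.hd
  obtain ⟨b0, hb0⟩ := hall 0
  obtain ⟨o, ho, k1, k2⟩ := g.ty hb0
  have key : ∀ k : ℕ, ∃ b, bk p s u w k b ∧ w (k + 1) (b + 1 - o + (2 * s - 1 - p)) ∧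
      p ∣ b - b0 + k * o := by
    intro k
    induction k with
    | zero => exact ⟨b0, by simpa using hb0, by simpa using k2, ⟨0, by push_cast; ring⟩⟩
    | succ k ih =>
      obtain ⟨b, h1, h2, h3⟩ := ih
      obtain ⟨b', hb'⟩ := hall (k + 1)
      obtain ⟨o', ho', m1, m2⟩ := g.ty hb'
      rw [show (k : ℤ) + 1 - 1 = k by ring] at m1
      obtain ⟨h4, h5⟩ := g.off hps ho ho' h1 hb' h2 m1
      subst h4
      refine ⟨b', by push_cast; exact hb', by push_cast; exact m2, ?_⟩
      rw [show b' - b0 + ((k + 1 : ℕ) : ℤ) * o' = (b' - b + o') + (b - b0 + k * o') by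
        push_cast; ring]
      exact dvd_add h5 h3
  obtain ⟨b, h1, -, h3⟩ := key d.toNat
  rw [show ((d.toNat : ℕ) : ℤ) = d by omega] at h1 h3
  have h4 : bk p s u w 0 (b + e) := by
    rw [← g.cb, show 0 + d = d by ring]
    exact h1
  have h5 := g.cong hps (Or.inr hb0) (Or.inr h4)
  have h6 : p ∣ e - d * o := by
    rw [show e - d * o = (b + e - b0) - (b - b0 + d * o) by ring]
    exact dvd_sub h5 h3
  rcases ho with rfl | rfl
  · left; simpa using h6
  · right; simpa using h6

/-- a block followed by a short interval -/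
theorem bs (g : G p s d e T u w) {j : ℤ} (n : ℕ) : ∀ {b z : ℤ}, bk p s u w j b → a u w j z →
    z = b + n → ∃ b', bk p s u w j b' ∧ a u w j (b' + 2 * s) := by
  have hp := g.hp
  have hs := g.hs
  induction n using Nat.strong_induction_on with
  | _ n ih =>
    intro b z hb hz hbz
    rcases Nat.eq_zero_or_pos n with rfl | hn
    · exact absurd hb fun hb => g.ab hz (by rw [hbz]; simpa using hb)
    have h1 := g.ba hb hz (by omega)
    rcases g.nB hb with h2 | h2
    · exact ⟨b, hb, h2⟩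
    · exact ih (n - (2 * s).toNat) (by omega) h2 hz (by omega)

/-- in a row without blocks there is no long progression -/
theorem nbl (g : G p s d e T u w) (H : NoL p s u w) {j : ℤ} (hj : ∀ b, ¬ bk p s u w j b)
    {y : ℤ} (hy : l p s u w j y) : False := by
  rcases g.toB H hy with h | h
  · exact hj _ h
  · exact hj _ h

theorem exS (g : G p s d e T u w) (H : NoL p s u w) (j : ℤ) : ∃ x, a u w j x := by
  rcases g.ex j 0 with ⟨i, -, -, h⟩ | ⟨i, -, -, h⟩
  · exact ⟨_, h⟩
  · exact H _ _ h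

theorem nb_u (g : G p s d e T u w) (H : NoL p s u w) (hps : p = s) {j x : ℤ}
    (hj : ∀ b, ¬ bk p s u w j b) (hx : u j x) : False := by
  have hp := g.hp
  have hs := g.hs
  have hdv : p ∣ 2 * s := ⟨2, by rw [hps]; ring⟩
  have hnw : ∀ y, ¬ w (j + 1) y := by
    intro y hy
    refine g.nbl H hj (y := y - (2 * s - 1 - p)) (Or.inr ?_)
    rw [show y - (2 * s - 1 - p) + (2 * s - 1 - p) = y by ring]
    exact hy
  have hna : ∀ y, a u w j y → a u w j (y + p) := by
    intro y hy
    rcases g.nA hy with h | h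
    · exact h
    · exact absurd h (hj _)
  obtain ⟨o, -, k1, -⟩ := g.ubH H hx
  obtain ⟨z, hz⟩ := g.exS H (j + 1)
  obtain ⟨z', hz1, hz2⟩ := g.tr_ge2 (R := a u w (j + 1)) (fun k x => g.ap (j + 1) k x) hz (x - o)
  obtain ⟨b, hb, hs1⟩ := g.bs (z' - (x - o)).toNat k1 hz2 (by omega)
  have h1 : u (j + 1) (b + 2 * s) := by
    rcases hs1 with h | h
    · exact h
    · exact absurd h (hnw _)
  have hb2 : bk p s u w (j + 1) (b + 2 * s + p) := by
    rcases g.nA hs1 with h | h
    · exfalso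
      rcases h with h | h
      · exact g.uu_lt H (by omega) h1 h
      · exact hnw _ h
    · exact h
  obtain ⟨o1, ho1, m1, -⟩ := g.ty hb
  obtain ⟨o2, ho2, m2, -⟩ := g.ty hb2
  rw [show j + 1 - 1 = j by ring] at m1 m2
  have h2 := g.cong hdv (Or.inl (Or.inl m1)) (Or.inl (Or.inl m2))
  have h3 : o2 - o1 = 0 := by
    refine small_dvd hp ?_ (by omega) (by omega)
    rw [show o2 - o1 = (b + 2 * s + p + o2 - (b + o1)) - (2 * s + p) by ring]
    exact dvd_sub h2 (dvd_add hdv dvd_rfl)
  have h4 := hna _ (Or.inl m1)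
  have h5 := hna _ h4
  have h6 : u j (b + o1 + p + p + p) := by
    rw [show b + o1 + p + p + p = b + 2 * s + p + o2 by omega]
    exact m2
  rcases h4 with h4 | h4
  · exact g.uu_lt H (by omega) m1 h4
  · rcases h5 with h5 | h5
    · exact g.uu_lt H (by omega) h5 h6
    · exact g.ww_lt H (by omega) h4 h5

theorem nb (g : G p s d e T u w) (H : NoL p s u w) (hps : p = s) (j : ℤ) :
    ∃ b, bk p s u w j b := by
  by_contra hcon
  push Not at hcon
  obtain ⟨x, hx | hx⟩ := g.exS H j
  · exact g.nb_u H hps hcon hx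
  · refine g.flip.nb_u (g.flipH H) hps (j := -j) (fun b hb => ?_) (flip_u (p := p) (s := s) hx)
    rw [bkf, neg_neg] at hb
    exact hcon _ hb

/-- `p = s` -/
theorem main1 (g : G p s d e T u w) (H : NoL p s u w) (hps : p = s) : p ∣ e ∨ p ∣ e - d :=
  g.allB ⟨2, by rw [hps]; ring⟩ (g.nb H hps)

/-- all cells of the class of an item are items if `p = 2 s` -/
theorem allN (g : G p s d e T u w) (hps : p = 2 * s) {j : ℤ} (n : ℕ) {x : ℤ}
    (hx : it p s u w j x) : it p s u w j (x + n * p) := by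
  induction n with
  | zero => simpa using hx
  | succ n ih =>
    rw [show x + ((n + 1 : ℕ) : ℤ) * p = x + n * p + p by push_cast; ring]
    rcases ih with h | h
    · exact g.nA h
    · have := g.nB h
      rw [← hps] at this
      exact this

theorem all (g : G p s d e T u w) (hps : p = 2 * s) {j x y : ℤ}
    (hx : it p s u w j x) (hxy : p ∣ y - x) : it p s u w j y := by
  have hp := g.hp
  obtain ⟨x', h1, h2⟩ := g.tr_le2 (R := it p s u w j)
    (fun k x => by unfold it; rw [g.ap, g.bp]) hx y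
  have h3 := g.cong (hps ▸ dvd_rfl) h2 hx
  have h4 : p ∣ y - x' := by
    rw [show y - x' = y - x + (x - x') by ring]
    exact dvd_add hxy h3
  obtain ⟨m, hm⟩ := h4
  have h5 : 0 ≤ m := by
    by_contra hcon
    nlinarith
  have h6 := g.allN hps m.toNat h2
  rw [show ((m.toNat : ℕ) : ℤ) = m by omega, show x' + m * p = y by linarith] at h6
  exact h6

theorem nb3 (g : G p s d e T u w) (H : NoL p s u w) (hps : p = 2 * s) {j : ℤ}
    (hj : ∀ b, ¬ bk p s u w j b) : ∀ b, ¬ bk p s u w (j + 3) b := by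
  have hp := g.hp
  have hs := g.hs
  intro b hb
  obtain ⟨o, ho, k1, -⟩ := g.ty hb
  rw [show j + 3 - 1 = j + 2 by ring] at k1
  have hnw : ∀ y, ¬ w (j + 1) y := by
    intro y hy
    refine g.nbl H hj (y := y - (2 * s - 1 - p)) (Or.inr ?_)
    rw [show y - (2 * s - 1 - p) + (2 * s - 1 - p) = y by ring]
    exact hy
  obtain ⟨x, hx | hx⟩ := g.exS H (j + 1)
  swap
  · exact hnw _ hx
  obtain ⟨o', ho', k2, -⟩ := g.ubH H hx
  rw [show j + 1 + 1 = j + 2 by ring] at k2
  have h1 := g.cong (hps ▸ dvd_rfl) (Or.inr k2) (Or.inl (Or.inl k1))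
  have h2 : it p s u w (j + 1) (b + o + o') := g.all hps (Or.inl (Or.inl hx)) (by
    rw [show b + o + o' - x = b + o - (x - o') by ring]
    exact h1)
  rcases h2 with (h2 | h2) | h2
  · have h3 : l p s u w (j + 2) (b + o + o') := Or.inl (by
      rw [show j + 2 - 1 = j + 1 by ring]; exact h2)
    rcases g.al (Or.inl k1) h3 with h4 | h4 <;> omega
  · exact hnw _ h2
  · obtain ⟨o2, ho2, -, k3⟩ := g.ty h2
    rw [show j + 1 + 1 = j + 2 by ring,
      show b + o + o' + 1 - o2 + (2 * s - 1 - p) = b + o + (o' - o2) by rw [hps]; ring] at k3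
    rcases (show o' - o2 = 0 ∨ o' - o2 = 1 ∨ o' - o2 = -1 by omega) with h3 | h3 | h3
    · rw [h3, add_zero] at k3
      exact g.uw _ _ k1 k3
    · rw [h3] at k3
      exact g.ss _ _ _ (by omega) (by omega) (Or.inl k1) (Or.inr k3)
    · rw [h3] at k3
      exact g.ss _ _ _ (by omega) (by omega) (Or.inr k3) (Or.inl k1)

theorem dshift {R : ℤ → Prop} (h : ∀ j, R (j + d) ↔ R j) (m j : ℤ) : R (j + d * m) ↔ R j := by
  induction m using Int.induction_on with
  | zero => simp
  | succ m ih =>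
    rw [show j + d * ((m : ℤ) + 1) = j + d * m + d by ring, h]
    exact ih
  | pred m ih =>
    have h1 := h (j + d * (-(m : ℤ) - 1))
    rw [show j + d * (-(m : ℤ) - 1) + d = j + d * -m by ring] at h1
    rw [← h1]
    exact ih

theorem chain3 {R : ℤ → Prop} (hd : 0 < d) (h : ∀ j, R (j + d) ↔ R j)
    (h3 : ∀ j, R j → R (j + 3)) (hnd : ¬ 3 ∣ d) {j : ℤ} (hj : R j) (j' : ℤ) : R j' := by
  have hN : ∀ k : ℕ, R (j + 3 * k) := by
    intro k
    induction k with
    | zero => simpa using hj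
    | succ k ih =>
      rw [show j + 3 * ((k + 1 : ℕ) : ℤ) = j + 3 * k + 3 by push_cast; ring]
      exact h3 _ ih
  obtain ⟨r, hr⟩ : ∃ r, 3 ∣ j' - j - d * r := by
    have h1 : d % 3 = 1 ∨ d % 3 = 2 := by omega
    rcases h1 with h1 | h1
    · refine ⟨j' - j, ?_⟩
      obtain ⟨q, hq⟩ : ∃ q, d = 3 * q + 1 := ⟨d / 3, by omega⟩
      exact ⟨-q * (j' - j), by rw [hq]; ring⟩
    · refine ⟨-(j' - j), ?_⟩
      obtain ⟨q, hq⟩ : ∃ q, d = 3 * q + 2 := ⟨d / 3, by omega⟩
      exact ⟨(q + 1) * (j' - j), by rw [hq]; ring⟩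
  obtain ⟨t, ht⟩ := hr
  have h4 := hN (t + d * |t|).toNat
  have h5 : 0 ≤ t + d * |t| := by
    have := abs_nonneg t
    have := neg_abs_le t
    nlinarith
  rw [show (((t + d * |t|).toNat : ℕ) : ℤ) = t + d * |t| by omega,
    show j + 3 * (t + d * |t|) = j' + d * (3 * |t| - r) by linear_combination -ht,
    dshift h] at h4
  exact h4

/-- `p = 2 s` -/
theorem main2 (g : G p s d e T u w) (H : NoL p s u w) (hps : p = 2 * s) :
    3 ∣ d ∨ p ∣ e ∨ p ∣ e - d := by
  by_cases hall : ∀ j, ∃ b, bk p s u w j b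
  · exact Or.inr (g.allB (hps ▸ dvd_rfl) hall)
  · push Not at hall
    obtain ⟨j, hj⟩ := hall
    left
    by_contra hnd
    obtain ⟨j', b, hb⟩ := g.exB H
    refine chain3 (R := fun j => ∀ b, ¬ bk p s u w j b) g.hd (fun j => ?_)
      (fun j hj => g.nb3 H hps hj) hnd hj j' b hb
    constructor
    · intro h b hb
      refine h (b - e) ?_
      rw [g.cb, show b - e + e = b by ring]
      exact hb
    · intro h b hb
      rw [g.cb] at hb
      exact h _ hb

end G

end MPae024f.Q2
end

section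
/-!
# Ratio 2: if some row consists of long progressions only, then no row is mixed
-/
namespace MPae024f.Q2

variable {p s d e T : ℤ} {u w : ℤ → ℤ → Prop}

/-- a row of long progressions only -/
def Lr (p s : ℤ) (u w : ℤ → ℤ → Prop) (j : ℤ) : Prop := (∃ y, l p s u w j y) ∧ ∀ x, ¬ a u w j x

/-- a mixed row -/
def Mx (p s : ℤ) (u w : ℤ → ℤ → Prop) (j : ℤ) : Prop := (∃ y, l p s u w j y) ∧ ∃ x, a u w j x

namespace G

theorem ca (g : G p s d e T u w) (j i : ℤ) : a u w (j + d) i ↔ a u w j (i + e) := by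
  unfold a
  rw [g.cu, g.cw]

theorem cl (g : G p s d e T u w) (j i : ℤ) : l p s u w (j + d) i ↔ l p s u w j (i + e) := by
  unfold l
  rw [show j + d - 1 = j - 1 + d by ring, show j + d + 1 = j + 1 + d by ring, g.cu, g.cw,
    show i + (2 * s - 1 - p) + e = i + e + (2 * s - 1 - p) by ring]

theorem Lrd (g : G p s d e T u w) (j : ℤ) : Lr p s u w (j + d) ↔ Lr p s u w j := by
  unfold Lr
  simp only [g.ca, g.cl]
  constructor
  · rintro ⟨⟨y, hy⟩, h⟩
    refine ⟨⟨_, hy⟩, fun x hx => h (x - e) ?_⟩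
    rw [show x - e + e = x by ring]
    exact hx
  · rintro ⟨⟨y, hy⟩, h⟩
    refine ⟨⟨y - e, ?_⟩, fun x hx => h _ hx⟩
    rw [show y - e + e = y by ring]
    exact hy

theorem Mxd (g : G p s d e T u w) (j : ℤ) : Mx p s u w (j + d) ↔ Mx p s u w j := by
  unfold Mx
  simp only [g.ca, g.cl]
  constructor
  · rintro ⟨⟨y, hy⟩, x, hx⟩
    exact ⟨⟨_, hy⟩, _, hx⟩
  · rintro ⟨⟨y, hy⟩, x, hx⟩
    refine ⟨⟨y - e, ?_⟩, x - e, ?_⟩
    · rw [show y - e + e = y by ring]
      exact hy
    · rw [show x - e + e = x by ring]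
      exact hx

theorem Mx_blk (g : G p s d e T u w) {j : ℤ} (h : Mx p s u w j) : ∃ b, bk p s u w j b := by
  obtain ⟨⟨y, hy⟩, x, hx⟩ := h
  rcases g.blk hx hy with h | h
  · exact ⟨_, h⟩
  · exact ⟨_, h⟩

theorem up_ne (g : G p s d e T u w) {j : ℤ} (h : Mx p s u w j) : ∃ x, w (j + 1) x := by
  obtain ⟨b, hb⟩ := g.Mx_blk h
  obtain ⟨o, -, -, h2⟩ := g.ty hb
  exact ⟨_, h2⟩

theorem dn_ne (g : G p s d e T u w) {j : ℤ} (h : Mx p s u w j) : ∃ x, u (j - 1) x := by
  obtain ⟨b, hb⟩ := g.Mx_blk h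
  obtain ⟨o, -, h1, -⟩ := g.ty hb
  exact ⟨_, h1⟩

/-- the rows next to a row of long progressions have no long progression or no short interval -/
theorem nolu (g : G p s d e T u w) {j : ℤ} (h : Lr p s u w j) {x z : ℤ} (hx : a u w (j + 1) x)
    (hz : l p s u w (j + 1) z) : False := by
  obtain ⟨y, hy⟩ := g.dn_ne (j := j + 1) ⟨⟨z, hz⟩, x, hx⟩
  rw [show j + 1 - 1 = j by ring] at hy
  exact h.2 y (Or.inl hy)

theorem nold (g : G p s d e T u w) {j : ℤ} (h : Lr p s u w j) {x z : ℤ} (hx : a u w (j - 1) x)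
    (hz : l p s u w (j - 1) z) : False := by
  obtain ⟨y, hy⟩ := g.up_ne (j := j - 1) ⟨⟨z, hz⟩, x, hx⟩
  rw [show j - 1 + 1 = j by ring] at hy
  exact h.2 y (Or.inr hy)

/-- rows without long progressions -/
theorem Sn (g : G p s d e T u w) {j : ℤ} (hj : ∀ y, ¬ l p s u w j y) {x : ℤ}
    (hx : a u w j x) : a u w j (x + p) := by
  rcases g.nA hx with h | h
  · exact h
  · exact absurd h.1 (hj _)

theorem SnN (g : G p s d e T u w) {j : ℤ} (hj : ∀ y, ¬ l p s u w j y) {x : ℤ}
    (hx : a u w j x) (k : ℕ) : a u w j (x + k * p) := by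
  induction k with
  | zero => simpa using hx
  | succ k ih =>
    rw [show x + ((k + 1 : ℕ) : ℤ) * p = x + k * p + p by push_cast; ring]
    exact g.Sn hj ih

theorem ScN (g : G p s d e T u w) {j : ℤ} (hj : ∀ y, ¬ l p s u w j y) (n : ℕ) : ∀ {x y : ℤ},
    a u w j x → a u w j y → y = x + n → p ∣ y - x := by
  have hp := g.hp
  induction n using Nat.strong_induction_on with
  | _ n ih =>
    intro x y hx hy hxy
    rcases Nat.eq_zero_or_pos n with rfl | hn
    · exact ⟨0, by rw [hxy]; push_cast; ring⟩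
    have h1 := g.aa hx hy (by omega)
    have h2 := ih (n - p.toNat) (by omega) (g.Sn hj hx) hy (by omega)
    rw [show y - x = y - (x + p) + p by ring]
    exact dvd_add h2 dvd_rfl

theorem Sc (g : G p s d e T u w) {j : ℤ} (hj : ∀ y, ¬ l p s u w j y) {x y : ℤ}
    (hx : a u w j x) (hy : a u w j y) : p ∣ y - x := by
  rcases le_total x y with h | h
  · exact g.ScN hj (y - x).toNat hx hy (by omega)
  · have := g.ScN hj (x - y).toNat hy hx (by omega)
    rw [show y - x = -(x - y) by ring]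
    exact this.neg_right

theorem Sa (g : G p s d e T u w) {j : ℤ} (hj : ∀ y, ¬ l p s u w j y) {x y : ℤ}
    (hx : a u w j x) (hxy : p ∣ y - x) : a u w j y := by
  have hp := g.hp
  obtain ⟨x', h1, h2⟩ := g.tr_le2 (R := a u w j) (fun k x => g.ap j k x) hx y
  have h3 := g.Sc hj h2 hx
  obtain ⟨m, hm⟩ : p ∣ y - x' := by
    rw [show y - x' = y - x + (x - x') by ring]
    exact dvd_add hxy h3
  have h5 : 0 ≤ m := by
    by_contra hcon
    nlinarith
  have h6 := g.SnN hj h2 m.toNat
  rw [show ((m.toNat : ℕ) : ℤ) = m by omega, show x' + m * p = y by linarith] at h6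
  exact h6

/-- rows of long progressions -/
theorem Ln (g : G p s d e T u w) {j y : ℤ} (h : Lr p s u w j) (hy : l p s u w j y) :
    l p s u w j (y + 2 * s) := by
  have hs := g.hs
  rcases g.ex j (y + 2 * s) with ⟨i, -, -, h1⟩ | ⟨i, h0, h1, h2⟩
  · exact absurd h1 (h.2 _)
  · rcases (show i = 0 ∨ 1 ≤ i by omega) with rfl | h3
    · simpa using h2
    · exact absurd h2 fun h2 => g.ll j y (y + 2 * s - 2 * i) (s - i) (by omega) (by omega)
        (by ring) hy h2

/-- the other class -/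
theorem Lo (g : G p s d e T u w) {j : ℤ} (h : Lr p s u w j) (y : ℤ) :
    ∃ i, l p s u w j (y + 1 - 2 * i) := by
  rcases g.ex j (y + 1) with ⟨i, -, -, h1⟩ | ⟨i, h0, h1, h2⟩
  · exact absurd h1 (h.2 _)
  · exact ⟨i, h2⟩

theorem Uc (g : G p s d e T u w) {j : ℤ} (h : Lr p s u w j) {y z : ℤ} (h1 : u (j - 1) y)
    (h2 : u (j - 1) z) : p ∣ z - y :=
  g.Sc (fun _ hx => g.nold h (Or.inl h1) hx) (Or.inl h1) (Or.inl h2)

theorem Wc (g : G p s d e T u w) {j : ℤ} (h : Lr p s u w j) {y z : ℤ}
    (h1 : w (j + 1) (y + (2 * s - 1 - p))) (h2 : w (j + 1) (z + (2 * s - 1 - p))) :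
    p ∣ z - y := by
  have := g.Sc (fun _ hx => g.nolu h (Or.inr h1) hx) (Or.inr h1) (Or.inr h2)
  rwa [show z + (2 * s - 1 - p) - (y + (2 * s - 1 - p)) = z - y by ring] at this

theorem odd_dvd {p k : ℤ} (hk : k % 2 = 1) (h : p ∣ k) : p % 2 = 1 := by
  obtain ⟨m, hm⟩ := h
  rcases Int.emod_two_eq_zero_or_one p with h1 | h1
  · exfalso
    rw [hm, Int.mul_emod, h1] at hk
    norm_num at hk
  · exact h1

theorem half_dvd {p k : ℤ} (hp : p % 2 = 1) (h : p ∣ 2 * k) : p ∣ k := by
  obtain ⟨q, hq⟩ : ∃ q, p = 2 * q + 1 := ⟨p / 2, by omega⟩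
  have h1 : k = p * k - q * (2 * k) := by rw [hq]; ring
  rw [h1]
  exact dvd_sub (Dvd.intro _ rfl) (h.mul_left _)

/-- the length of the short intervals divides the period of the long progressions -/
theorem Zd (g : G p s d e T u w) {j : ℤ} (h : Lr p s u w j) : p ∣ 2 * s := by
  obtain ⟨y, hy⟩ := h.1
  obtain ⟨i, hi⟩ := g.Lo h y
  have h1 := g.Ln h hy
  have h2 := g.Ln h h1
  have h3 := g.Ln h hi
  have hu := fun y z => @g.Uc _ _ _ _ _ _ _ j h y z
  have hw := fun y z => @g.Wc _ _ _ _ _ _ _ j h y z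
  by_contra hcon
  have e1 : ∀ z, p ∣ z + 2 * s - z → False := fun z hz => hcon (by
    rwa [show z + 2 * s - z = 2 * s by ring] at hz)
  have hodd : p ∣ 4 * s → p % 2 = 1 → False := fun h4 hp2 => hcon
    (half_dvd hp2 (by rwa [show 2 * (2 * s) = 4 * s by ring]))
  have d1 : ∀ k, p ∣ (y + 1 - 2 * i) - y + 2 * k → p % 2 = 1 := fun k hk =>
    odd_dvd (by omega) hk
  rcases hy with hy | hy
  · rcases h1 with h1 | h1
    · exact e1 _ (hu _ _ hy h1)
    · have h4 : p ∣ 4 * s := by
        rcases h2 with h2 | h2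
        · have := hu _ _ hy h2
          rwa [show y + 2 * s + 2 * s - y = 4 * s by ring] at this
        · exact absurd (hw _ _ h1 h2) (e1 _)
      refine hodd h4 ?_
      rcases hi with hi | hi
      · refine d1 0 ?_
        have := hu _ _ hy hi
        rwa [show y + 1 - 2 * i - y + 2 * 0 = y + 1 - 2 * i - y by ring]
      · refine d1 (-s) ?_
        have := hw _ _ h1 hi
        rwa [show y + 1 - 2 * i - y + 2 * -s = y + 1 - 2 * i - (y + 2 * s) by ring]
  · rcases h1 with h1 | h1
    · have h4 : p ∣ 4 * s := by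
        rcases h2 with h2 | h2
        · exact absurd (hu _ _ h1 h2) (e1 _)
        · have := hw _ _ hy h2
          rwa [show y + 2 * s + 2 * s - y = 4 * s by ring] at this
      refine hodd h4 ?_
      rcases hi with hi | hi
      · refine d1 (-s) ?_
        have := hu _ _ h1 hi
        rwa [show y + 1 - 2 * i - y + 2 * -s = y + 1 - 2 * i - (y + 2 * s) by ring]
      · refine d1 0 ?_
        have := hw _ _ hy hi
        rwa [show y + 1 - 2 * i - y + 2 * 0 = y + 1 - 2 * i - y by ring]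
    · exact e1 _ (hw _ _ hy h1)

/-- below a mixed row the row has a short interval with partner below, if it has no long
progression -/
theorem exW (g : G p s d e T u w) {j : ℤ} (hM : Mx p s u w j) (hX : ∀ y, ¬ l p s u w (j - 1) y) :
    ∃ x, w (j - 1) x := by
  have hp := g.hp
  have hs := g.hs
  by_contra hcon
  push Not at hcon
  obtain ⟨b0, hb0⟩ := g.Mx_blk hM
  obtain ⟨-, z, hz⟩ := hM
  obtain ⟨z', hz1, hz2⟩ := g.tr_ge2 (R := a u w j) (fun k x => g.ap j k x) hz b0
  obtain ⟨b, hb, hs1⟩ := g.bs (z' - b0).toNat hb0 hz2 (by omega)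
  obtain ⟨o, ho, k1, -⟩ := g.ty hb
  have h1 : u (j - 1) (b + o + p) := by
    rcases g.Sn hX (Or.inl k1) with h | h
    · exact h
    · exact absurd h (hcon _)
  have h2 : l p s u w j (b + o + p) := Or.inl h1
  have h3 : ∀ β, bk p s u w j β → b < β → b + 2 * s + p ≤ β := by
    intro β hβ h4
    have h5 := g.bb hb hβ h4
    refine g.ab' hs1 hβ ?_
    rcases (show b + 2 * s = β ∨ b + 2 * s < β by omega) with h6 | h6
    · rw [← h6] at hβ
      exact absurd hβ fun h => g.ab hs1 h
    · exact h6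
  rcases g.blk hs1 h2 with h4 | h4
  · have := h3 _ h4 (by omega)
    omega
  · have := h3 _ h4 (by omega)
    omega

/-- two adjacent short intervals with partners in a row with a short interval -/
theorem uu' (g : G p s d e T u w) (hps : p < 2 * s - 1) {j x z : ℤ} (hz : a u w (j + 1) z)
    (h1 : u j x) (h2 : u j (x + p)) : False := by
  have hp := g.hp
  obtain ⟨o1, ho1, k1, -⟩ := g.ub hz h1
  obtain ⟨o2, ho2, k2, -⟩ := g.ub hz h2
  have := g.bb k1 k2 (by omega)
  omega

theorem ww' (g : G p s d e T u w) (hps : p < 2 * s - 1) {j x z : ℤ} (hz : a u w (j - 1) z)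
    (h1 : w j x) (h2 : w j (x + p)) : False := by
  have hp := g.hp
  obtain ⟨o1, ho1, k1, -⟩ := g.wb hz h1
  obtain ⟨o2, ho2, k2, -⟩ := g.wb hz h2
  have := g.bb k1 k2 (by omega)
  omega

/-- two long progressions at distance `p = s` in a row of long progressions -/
theorem LgN (g : G p s d e T u w) (hps : p = s) {j y : ℤ} (h : Lr p s u w j)
    (h1 : l p s u w j y) (h2 : l p s u w j (y + p)) (k : ℕ) :
    l p s u w j (y + k * p) ∧ l p s u w j (y + k * p + p) := by
  induction k with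
  | zero => simpa using ⟨h1, h2⟩
  | succ k ih =>
    rw [show y + ((k + 1 : ℕ) : ℤ) * p = y + k * p + p by push_cast; ring]
    refine ⟨ih.2, ?_⟩
    have := g.Ln h ih.1
    rwa [show y + k * p + 2 * s = y + k * p + p + p by rw [hps]; ring] at this

theorem Lg (g : G p s d e T u w) (hps : p = s) {j y : ℤ} (h : Lr p s u w j)
    (h1 : l p s u w j y) (h2 : l p s u w j (y + p)) (m : ℤ) :
    l p s u w j (y + m * p) := by
  have hT := g.hT
  have h3 := (g.lp j (-(|m| * p)) y).2 h1
  have h4 := (g.lp j (-(|m| * p)) (y + p)).2 h2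
  rw [show y + p + -(|m| * p) * T = y + -(|m| * p) * T + p by ring] at h4
  have h5 := (g.LgN hps h h3 h4 (m + |m| * T).toNat).1
  have h6 : 0 ≤ m + |m| * T := by
    have := abs_nonneg m
    have := neg_abs_le m
    nlinarith
  rw [show (((m + |m| * T).toNat : ℕ) : ℤ) = m + |m| * T by omega,
    show y + -(|m| * p) * T + (m + |m| * T) * p = y + m * p by ring] at h5
  exact h5

/-- all long progressions of such a row are in one class modulo `p` -/
theorem Lu (g : G p s d e T u w) (hps : p = s) (hp2 : p % 2 = 1) {j y z : ℤ}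
    (h : Lr p s u w j) (h1 : l p s u w j y) (h2 : l p s u w j (y + p)) (h3 : l p s u w j z) :
    ∃ m, z = y + m * p := by
  have hp := g.hp
  obtain ⟨q, hq⟩ : ∃ q, q = (z - y) / (2 * p) := ⟨_, rfl⟩
  obtain ⟨r, hr⟩ : ∃ r, r = (z - y) % (2 * p) := ⟨_, rfl⟩
  have e1 : r + 2 * p * q = z - y := by rw [hr, hq]; exact Int.emod_add_mul_ediv _ _
  have e2 : 0 ≤ r := by rw [hr]; exact Int.emod_nonneg _ (by omega)
  have e3 : r < 2 * p := by rw [hr]; exact Int.emod_lt_of_pos _ (by omega)
  have key : ∀ m i, 0 ≤ i → i < s → z = y + m * p + 2 * i → z = y + m * p := by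
    intro m i hi0 hi1 hz
    rcases (show i = 0 ∨ 0 < i by omega) with h4 | h4
    · rw [hz, h4]; ring
    · exact absurd h3 fun h3 => g.ll j (y + m * p) z i h4 hi1 hz (g.Lg hps h h1 h2 m) h3
  rcases Int.emod_two_eq_zero_or_one r with h4 | h4
  · exact ⟨2 * q, key (2 * q) (r / 2) (by omega) (by omega) (by
      have : 2 * (r / 2) = r := by omega
      rw [this]; linear_combination -e1)⟩
  · rcases le_or_gt p r with h5 | h5
    · exact ⟨2 * q + 1, key (2 * q + 1) ((r - p) / 2) (by omega) (by omega) (by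
        have : 2 * ((r - p) / 2) = r - p := by omega
        rw [this]; linear_combination -e1)⟩
    · exact ⟨2 * q - 1, key (2 * q - 1) ((r + p) / 2) (by omega) (by omega) (by
        have : 2 * ((r + p) / 2) = r + p := by omega
        rw [this]; linear_combination -e1)⟩

/-- the descending property -/
def Dp (p s : ℤ) (u w : ℤ → ℤ → Prop) (j : ℤ) : Prop := Lr p s u w j ∧
  (∃ y, w (j + 1) (y + (2 * s - 1 - p)) ∧ w (j + 1) (y + p + (2 * s - 1 - p))) ∧
  ∃ y, u (j - 1) y

theorem dstep (g : G p s d e T u w) (hps : p = s) (hp2 : p % 2 = 1) {j : ℤ}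
    (h : Dp p s u w j) : Dp p s u w (j - 2) := by
  have hp := g.hp
  have hs := g.hs
  obtain ⟨hL, ⟨y, h1, h2⟩, y', h3⟩ := h
  have l1 : l p s u w j y := Or.inr h1
  have l2 : l p s u w j (y + p) := Or.inr h2
  have l3 : l p s u w j y' := Or.inl h3
  obtain ⟨m, hm⟩ := g.Lu hps hp2 hL l1 l2 l3
  have hnl : ∀ z, ¬ l p s u w (j - 1) z := fun z hz => g.nold hL (Or.inl h3) hz
  have a1 : a u w (j - 1) y := g.Sa hnl (Or.inl h3) ⟨-m, by rw [hm]; ring⟩
  have a2 : a u w (j - 1) (y + p) := g.Sa hnl (Or.inl h3) ⟨1 - m, by rw [hm]; ring⟩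
  have w1 : w (j - 1) y := by
    rcases a1 with h | h
    · exact absurd h1 fun h1 => g.ul j y h h1
    · exact h
  have w2 : w (j - 1) (y + p) := by
    rcases a2 with h | h
    · exact absurd h2 fun h2 => g.ul j (y + p) h h2
    · exact h
  have m1 : l p s u w (j - 2) (y - (2 * s - 1 - p)) := Or.inr (by
    rw [show j - 2 + 1 = j - 1 by ring, show y - (2 * s - 1 - p) + (2 * s - 1 - p) = y by ring]
    exact w1)
  have m2 : l p s u w (j - 2) (y - (2 * s - 1 - p) + p) := Or.inr (by
    rw [show j - 2 + 1 = j - 1 by ring,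
      show y - (2 * s - 1 - p) + p + (2 * s - 1 - p) = y + p by ring]
    exact w2)
  have hL2 : Lr p s u w (j - 2) := ⟨⟨_, m1⟩, fun x hx => by
    refine g.ww' (by omega) (j := j - 1) (z := x) ?_ w1 w2
    rw [show j - 1 - 1 = j - 2 by ring]
    exact hx⟩
  have m3 := g.Lg hps hL2 m1 m2 m
  refine ⟨hL2, ⟨y - (2 * s - 1 - p), ?_, ?_⟩, y' - (2 * s - 1 - p), ?_⟩
  · rw [show j - 2 + 1 = j - 1 by ring, show y - (2 * s - 1 - p) + (2 * s - 1 - p) = y by ring]
    exact w1
  · rw [show j - 2 + 1 = j - 1 by ring,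
      show y - (2 * s - 1 - p) + p + (2 * s - 1 - p) = y + p by ring]
    exact w2
  · rcases m3 with h4 | h4
    · rw [hm, show y + m * p - (2 * s - 1 - p) = y - (2 * s - 1 - p) + m * p by ring]
      exact h4
    · exfalso
      rw [show j - 2 + 1 = j - 1 by ring,
        show y - (2 * s - 1 - p) + m * p + (2 * s - 1 - p) = y' by rw [hm]; ring] at h4
      exact g.uw _ _ h3 h4

theorem dall (g : G p s d e T u w) (hps : p = s) (hp2 : p % 2 = 1) {j : ℤ}
    (h : Dp p s u w j) (k : ℕ) : Dp p s u w (j - 2 * k) := by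
  induction k with
  | zero => simpa using h
  | succ k ih =>
    rw [show j - 2 * ((k + 1 : ℕ) : ℤ) = j - 2 * k - 2 by push_cast; ring]
    exact g.dstep hps hp2 ih

/-- a mixed row two rows above a row of long progressions is impossible -/
theorem key (g : G p s d e T u w) {j : ℤ} (hM : Mx p s u w j)
    (hX : ∀ y, ¬ l p s u w (j - 1) y) (hY : Lr p s u w (j - 2)) : False := by
  have hp := g.hp
  have hs := g.hs
  have hd := g.hd
  obtain ⟨x, hx⟩ := g.exW hM hX
  have hdv := g.Zd hY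
  obtain ⟨b0, hb0⟩ := g.Mx_blk hM
  obtain ⟨-, z, hz⟩ := id hM
  obtain ⟨z', hz1, hz2⟩ := g.tr_ge2 (R := a u w j) (fun k x => g.ap j k x) hz b0
  obtain ⟨b, hb, hs1⟩ := g.bs (z' - b0).toNat hb0 hz2 (by omega)
  obtain ⟨o, ho, k1, -⟩ := g.ty hb
  have e2 : j - 2 + 1 = j - 1 := by ring
  rcases (show p = 2 * s ∨ p ≤ s by
    obtain ⟨m, hm⟩ := hdv
    rcases (show m ≤ 0 ∨ m = 1 ∨ 2 ≤ m by omega) with h | h | h
    · nlinarith
    · left; rw [hm, h]; ring
    · right; nlinarith) with h1 | h1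
  · -- `p = 2 s`
    have hW : ∀ y, w (j - 1) y → w (j - 1) (y + p) := by
      intro y hy
      have hl : l p s u w (j - 2) (y - (2 * s - 1 - p)) := Or.inr (by
        rw [e2, show y - (2 * s - 1 - p) + (2 * s - 1 - p) = y by ring]; exact hy)
      have hy' : w (j - 2 + 1) (y - (2 * s - 1 - p) + (2 * s - 1 - p)) := by
        rw [e2, show y - (2 * s - 1 - p) + (2 * s - 1 - p) = y by ring]; exact hy
      obtain ⟨i, hi⟩ := g.Lo hY (y - (2 * s - 1 - p))
      have hodd : ∀ k, ¬ p ∣ 2 * k + 1 := fun k hk => by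
        have := odd_dvd (by omega) hk
        omega
      have hui : u (j - 2 - 1) (y - (2 * s - 1 - p) + 1 - 2 * i) := by
        rcases hi with hi | hi
        · exact hi
        · exfalso
          have := g.Wc hY hy' hi
          refine hodd (-i) ?_
          rwa [show y - (2 * s - 1 - p) + 1 - 2 * i - (y - (2 * s - 1 - p)) = 2 * -i + 1 by
            ring] at this
      rcases g.Ln hY hl with h2 | h2
      · exfalso
        have := g.Uc hY h2 hui
        refine hodd (-i - s) ?_
        rwa [show y - (2 * s - 1 - p) + 1 - 2 * i - (y - (2 * s - 1 - p) + 2 * s) =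
          2 * (-i - s) + 1 by ring] at this
      · rw [e2, show y - (2 * s - 1 - p) + 2 * s + (2 * s - 1 - p) = y + p by rw [h1]; ring] at h2
        exact h2
    have hWN : ∀ k : ℕ, w (j - 1) (x + k * p) := by
      intro k
      induction k with
      | zero => simpa using hx
      | succ k ih =>
        rw [show x + ((k + 1 : ℕ) : ℤ) * p = x + k * p + p by push_cast; ring]
        exact hW _ ih
    obtain ⟨y, hy1, hy2⟩ := g.tr_ge2 (R := u (j - 1)) (fun k x => per_iter (g.pu _) k x) k1 x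
    obtain ⟨m, hm⟩ := g.Sc hX (Or.inr hx) (Or.inl hy2)
    have h5 : 0 ≤ m := by
      by_contra hcon
      nlinarith
    have h6 := hWN m.toNat
    rw [show ((m.toNat : ℕ) : ℤ) = m by omega, show x + m * p = y by linarith] at h6
    exact g.uw _ _ hy2 h6
  · -- `p ≤ s`
    obtain ⟨zu, hzu⟩ := g.up_ne hM
    have hnw : ∀ y, ¬ w j y := by
      intro y hy
      refine hX (y - (2 * s - 1 - p)) (Or.inr ?_)
      rw [show j - 1 + 1 = j by ring, show y - (2 * s - 1 - p) + (2 * s - 1 - p) = y by ring]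
      exact hy
    have hu1 : u j (b + 2 * s) := by
      rcases hs1 with h | h
      · exact h
      · exact absurd h (hnw _)
    have hb2 : bk p s u w j (b + 2 * s + p) := by
      rcases g.nA hs1 with h | h
      · exfalso
        rcases h with h | h
        · exact g.uu' (by omega) (Or.inr hzu) hu1 h
        · exact hnw _ h
      · exact h
    obtain ⟨o2, ho2, k2, -⟩ := g.ty hb2
    have h2 := g.Sc hX (Or.inl k1) (Or.inl k2)
    have h3 : o2 - o = 0 := by
      refine small_dvd hp ?_ (by omega) (by omega)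
      rw [show o2 - o = (b + 2 * s + p + o2 - (b + o)) - (2 * s + p) by ring]
      exact dvd_sub h2 (dvd_add hdv dvd_rfl)
    have hbet : ∀ z, a u w (j - 1) z → b + o < z → z < b + o + 2 * s + p → w (j - 1) z := by
      intro z hz h4 h5
      rcases hz with hz | hz
      swap
      · exact hz
      exfalso
      have h6 := g.aa (Or.inl k1) (Or.inl hz) h4
      have h7 := g.aa (Or.inl hz) (Or.inl k2) (by omega)
      have hl : l p s u w j z := Or.inl hz
      have h8 : ∀ β, bk p s u w j β → b < β → b + 2 * s + p ≤ β := by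
        intro β hβ h4
        have h5 := g.bb hb hβ h4
        refine g.ab' hs1 hβ ?_
        rcases (show b + 2 * s = β ∨ b + 2 * s < β by omega) with h6 | h6
        · rw [← h6] at hβ
          exact absurd hβ fun h => g.ab hs1 h
        · exact h6
      rcases g.blk hs1 hl with h9 | h9
      · have := h8 _ h9 (by omega)
        omega
      · have := h8 _ h9 (by omega)
        omega
    have A1 := g.Sn hX (Or.inl k1)
    have A2 := g.Sn hX A1
    have A3 := g.Sn hX A2
    have W1 := hbet _ A1 (by omega) (by omega)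
    have W2 := hbet _ A2 (by omega) (by omega)
    have toL : ∀ z, w (j - 1) z → l p s u w (j - 2) (z - (2 * s - 1 - p)) := fun z hz =>
      Or.inr (by
        rw [e2, show z - (2 * s - 1 - p) + (2 * s - 1 - p) = z by ring]; exact hz)
    have hp2 : p % 2 = 1 := by
      rcases Int.emod_two_eq_zero_or_one p with h | h
      · exfalso
        exact g.ll (j - 2) _ _ (p / 2) (by omega) (by omega) (by omega) (toL _ W1) (toL _ W2)
      · exact h
    have hps : p = s := by
      by_contra hne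
      have hm : b + o + p + p + p < b + o + 2 * s + p := by omega
      have W3 := hbet _ A3 (by omega) hm
      exact g.ll (j - 2) _ _ p (by omega) (by omega) (by ring) (toL _ W1) (toL _ W3)
    have hD : Dp p s u w (j - 2) := by
      refine ⟨hY, ⟨b + o + p - (2 * s - 1 - p), ?_, ?_⟩, b + o - (2 * s - 1 - p), ?_⟩
      · rw [e2, show b + o + p - (2 * s - 1 - p) + (2 * s - 1 - p) = b + o + p by ring]
        exact W1
      · rw [e2, show b + o + p - (2 * s - 1 - p) + p + (2 * s - 1 - p) = b + o + p + p by ring]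
        exact W2
      · have h4 := g.Lg hps hY (toL _ W1) (by
          have := toL _ W2
          rwa [show b + o + p + p - (2 * s - 1 - p) = b + o + p - (2 * s - 1 - p) + p by ring]
            at this) (-1)
        rcases h4 with h4 | h4
        · rwa [show b + o + p - (2 * s - 1 - p) + -1 * p = b + o - (2 * s - 1 - p) by ring] at h4
        · exfalso
          rw [e2, show b + o + p - (2 * s - 1 - p) + -1 * p + (2 * s - 1 - p) = b + o by ring]
            at h4
          exact g.uw _ _ k1 h4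
    have h4 := (g.dall hps hp2 hD (d - 1).toNat).1
    rw [show (((d - 1).toNat : ℕ) : ℤ) = d - 1 by omega,
      show j - 2 - 2 * (d - 1) = j + d * -2 by ring, dshift (R := Lr p s u w) g.Lrd] at h4
    exact h4.2 z hz

/-- if some row consists of long progressions only, then no row is mixed -/
theorem pure (g : G p s d e T u w) {j0 j1 : ℤ} (h0 : Lr p s u w j0) (h1 : Mx p s u w j1) :
    False := by
  classical
  have hd := g.hd
  have hex : ∃ n : ℕ, Mx p s u w (j0 + n) := by
    refine ⟨(j1 - j0 + d * |j1 - j0|).toNat, ?_⟩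
    have h2 : 0 ≤ j1 - j0 + d * |j1 - j0| := by
      have := abs_nonneg (j1 - j0)
      have := neg_abs_le (j1 - j0)
      nlinarith
    rw [show (((j1 - j0 + d * |j1 - j0|).toNat : ℕ) : ℤ) = j1 - j0 + d * |j1 - j0| by omega,
      show j0 + (j1 - j0 + d * |j1 - j0|) = j1 + d * |j1 - j0| by ring,
      dshift (R := Mx p s u w) g.Mxd]
    exact h1
  obtain ⟨n, hn⟩ : ∃ n, n = Nat.find hex := ⟨_, rfl⟩
  have hM : Mx p s u w (j0 + n) := by rw [hn]; exact Nat.find_spec hex
  have hmin : ∀ m : ℕ, m < n → ¬ Mx p s u w (j0 + m) := by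
    intro m hm
    rw [hn] at hm
    exact Nat.find_min hex hm
  obtain ⟨x, hx⟩ := g.dn_ne hM
  have n1 : n ≠ 0 := by
    rintro rfl
    obtain ⟨z, hz⟩ := hM.2
    exact h0.2 z (by simpa using hz)
  have n2 : n ≠ 1 := by
    rintro rfl
    refine h0.2 x (Or.inl ?_)
    rwa [show j0 + ((1 : ℕ) : ℤ) - 1 = j0 by push_cast; ring] at hx
  have hX : ∀ y, ¬ l p s u w (j0 + n - 1) y := by
    intro y hy
    refine hmin (n - 1) (by omega) ⟨⟨y, ?_⟩, x, Or.inl ?_⟩
    · rwa [show j0 + ((n - 1 : ℕ) : ℤ) = j0 + n - 1 by omega]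
    · rwa [show j0 + ((n - 1 : ℕ) : ℤ) = j0 + n - 1 by omega]
  obtain ⟨y, hy⟩ := g.exW hM hX
  refine g.key hM hX ⟨⟨y - (2 * s - 1 - p), Or.inr ?_⟩, fun z hz => ?_⟩
  · rw [show j0 + (n : ℤ) - 2 + 1 = j0 + n - 1 by ring,
      show y - (2 * s - 1 - p) + (2 * s - 1 - p) = y by ring]
    exact hy
  · refine hmin (n - 2) (by omega) ⟨⟨y - (2 * s - 1 - p), Or.inr ?_⟩, z, ?_⟩
    · rw [show j0 + ((n - 2 : ℕ) : ℤ) + 1 = j0 + n - 1 by omega,
        show y - (2 * s - 1 - p) + (2 * s - 1 - p) = y by ring]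
      exact hy
    · rwa [show j0 + ((n - 2 : ℕ) : ℤ) = j0 + n - 2 by omega]

end G

end MPae024f.Q2
end
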