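import Mathlib

/-!
# The sets `{0, d} ∪ {e, e + 2 d}` with `d` even and `e` odd do not tile

Along every progression with difference `d` a tiling is a sequence of pairs `{x, x + d}` (short)
and pairs `{x, x + 2 d}` (long); the long pairs come in blocks of two, which cover four
consecutive cells. Hence the cells of a progression have a parity `φ` that alternates.
-/

namespace MPae024f.R2

/-- exactly one of the eight possibilities for the integer `n` -/
structure Til (P Q : ℤ → Prop) (d e : ℤ) : Prop where
  ex : ∀ n, (P n ∨ Q (n + d)) ∨ (P (n - d) ∨ Q n) ∨ (P (n - e) ∨ Q (n + e + 2 * d)) ∨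
    (P (n - e - 2 * d) ∨ Q (n + e))
  /-- two short pairs -/
  pp1 : ∀ n, P n → P (n + d) → False
  qq1 : ∀ n, Q n → Q (n + d) → False
  /-- two long pairs -/
  pp2 : ∀ n, P n → P (n + 2 * d) → False
  qq2 : ∀ n, Q n → Q (n + 2 * d) → False
  /-- short start, short end -/
  s12 : ∀ n, (P n ∨ Q (n + d)) → (P (n - d) ∨ Q n) → False
  s13 : ∀ n, (P n ∨ Q (n + d)) → (P (n - e) ∨ Q (n + e + 2 * d)) → False
  s14 : ∀ n, (P n ∨ Q (n + d)) → (P (n - e - 2 * d) ∨ Q (n + e)) → False
  s23 : ∀ n, (P (n - d) ∨ Q n) → (P (n - e) ∨ Q (n + e + 2 * d)) → False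
  s24 : ∀ n, (P (n - d) ∨ Q n) → (P (n - e - 2 * d) ∨ Q (n + e)) → False
  s34 : ∀ n, (P (n - e) ∨ Q (n + e + 2 * d)) → (P (n - e - 2 * d) ∨ Q (n + e)) → False

variable {P Q : ℤ → Prop} {d e : ℤ}

/-- start of a short pair -/
def S (P Q : ℤ → Prop) (d n : ℤ) : Prop := P n ∨ Q (n + d)
/-- start of a long pair -/
def L (P Q : ℤ → Prop) (d e n : ℤ) : Prop := P (n - e) ∨ Q (n + e + 2 * d)

theorem iff3 {a b c : Prop} (h : (b ↔ c) ↔ (a ↔ b)) : c ↔ a := by
  by_cases ha : a <;> by_cases hb : b <;> by_cases hc : c <;> simp_all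

theorem iff4 {a b c : Prop} (ha : ¬ a) (hb : ¬ b) (hc : c) : (c ↔ a) ↔ (b ↔ c) := by
  simp_all

namespace Til

theorem cell (h : Til P Q d e) (n : ℤ) :
    S P Q d n ∨ S P Q d (n - d) ∨ L P Q d e n ∨ L P Q d e (n - 2 * d) := by
  have := h.ex n
  unfold S L
  rw [show n - d + d = n by ring, show n - 2 * d - e = n - e - 2 * d by ring,
    show n - 2 * d + e + 2 * d = n + e by ring]
  exact this

theorem ss (h : Til P Q d e) (n : ℤ) : S P Q d n → S P Q d (n + d) → False := by
  intro h1 h2
  refine h.s12 (n + d) h2 ?_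
  unfold S at h1
  rw [show n + d - d = n by ring]
  exact h1

theorem sl (h : Til P Q d e) (n : ℤ) : S P Q d n → L P Q d e n → False := fun h1 h2 =>
  h.s13 n h1 h2

/-- a long pair cannot end where a short pair starts -/
theorem l2s (h : Til P Q d e) (n : ℤ) : L P Q d e n → S P Q d (n + 2 * d) → False := by
  intro h1 h2
  refine h.s14 (n + 2 * d) h2 ?_
  unfold L at h1
  rw [show n + 2 * d - e - 2 * d = n - e by ring, show n + 2 * d + e = n + e + 2 * d by ring]
  exact h1

/-- a long pair cannot start where a short pair ends -/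
theorem sl1 (h : Til P Q d e) (n : ℤ) : S P Q d n → L P Q d e (n + d) → False := by
  intro h1 h2
  refine h.s23 (n + d) ?_ h2
  unfold S at h1
  rw [show n + d - d = n by ring]
  exact h1

/-- a long pair cannot end where a short pair ends -/
theorem l1s (h : Til P Q d e) (n : ℤ) : L P Q d e n → S P Q d (n + d) → False := by
  intro h1 h2
  refine h.s24 (n + 2 * d) ?_ ?_
  · unfold S at h2
    rw [show n + 2 * d - d = n + d by ring, show n + 2 * d = n + d + d by ring]
    exact h2
  · unfold L at h1
    rw [show n + 2 * d - e - 2 * d = n - e by ring, show n + 2 * d + e = n + e + 2 * d by ring]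
    exact h1

theorem l2l (h : Til P Q d e) (n : ℤ) : L P Q d e n → L P Q d e (n + 2 * d) → False := by
  intro h1 h2
  refine h.s34 (n + 2 * d) h2 ?_
  unfold L at h1
  rw [show n + 2 * d - e - 2 * d = n - e by ring, show n + 2 * d + e = n + e + 2 * d by ring]
  exact h1

/-- long pairs come in blocks -/
theorem block (h : Til P Q d e) (n : ℤ) (hn : L P Q d e n) :
    L P Q d e (n + d) ∨ L P Q d e (n - d) := by
  rcases h.cell (n + d) with h1 | h1 | h1 | h1
  · exact (h.l1s n hn h1).elim
  · rw [show n + d - d = n by ring] at h1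
    exact (h.sl n h1 hn).elim
  · exact Or.inl h1
  · right
    rwa [show n + d - 2 * d = n - d by ring] at h1

/-- the parity of the cell `n` -/
def φ (P Q : ℤ → Prop) (d e n : ℤ) : Prop :=
  S P Q d n ∨ (L P Q d e n ∧ L P Q d e (n + d)) ∨ (L P Q d e (n - d) ∧ L P Q d e (n - 2 * d))

theorem alt (h : Til P Q d e) (n : ℤ) : φ P Q d e (n + d) ↔ ¬ φ P Q d e n := by
  unfold φ
  rw [show n + d - d = n by ring, show n + d - 2 * d = n - d by ring,
    show n + d + d = n + 2 * d by ring]
  constructor
  · rintro (h1 | ⟨h1, h1'⟩ | ⟨h1, h1'⟩) (h2 | ⟨h2, h2'⟩ | ⟨h2, h2'⟩)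
    · exact h.ss n h2 h1
    · exact h.l1s n h2 h1
    · refine h.l2s (n - d) h2 ?_
      rwa [show n - d + 2 * d = n + d by ring]
    · exact h.sl1 n h2 h1
    · exact h.l2l n h2 h1'
    · refine h.l2l (n - d) h2 ?_
      rwa [show n - d + 2 * d = n + d by ring]
    · exact h.sl n h2 h1
    · refine h.l2l (n - d) h1' ?_
      rwa [show n - d + 2 * d = n + d by ring]
    · refine h.l2l (n - 2 * d) h2' ?_
      rwa [show n - 2 * d + 2 * d = n by ring]
  · intro hn
    by_contra hcon
    push Not at hn hcon
    obtain ⟨a1, a2, a3⟩ := hn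
    obtain ⟨b1, b2, b3⟩ := hcon
    rcases h.cell n with c | c | c | c
    · exact a1 c
    · -- `n` is a short end
      rcases h.cell (n + d) with c' | c' | c' | c'
      · exact b1 c'
      · rw [show n + d - d = n by ring] at c'
        exact a1 c'
      · rcases h.block _ c' with c'' | c''
        · rw [show n + d + d = n + 2 * d by ring] at c''
          exact b2 c' c''
        · rw [show n + d - d = n by ring] at c''
          refine h.sl1 (n - d) c ?_
          rwa [show n - d + d = n by ring]
      · rw [show n + d - 2 * d = n - d by ring] at c'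
        exact h.sl _ c c'
    · -- `n` is a long start
      rcases h.block _ c with c' | c'
      · exact a2 c c'
      · exact b3 c c'
    · -- `n` is a long end
      rcases h.cell (n + d) with c' | c' | c' | c'
      · exact b1 c'
      · rw [show n + d - d = n by ring] at c'
        exact a1 c'
      · rcases h.block _ c' with c'' | c''
        · rw [show n + d + d = n + 2 * d by ring] at c''
          exact b2 c' c''
        · rw [show n + d - d = n by ring] at c''
          refine h.l2l (n - 2 * d) c ?_
          rwa [show n - 2 * d + 2 * d = n by ring]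
      · rw [show n + d - 2 * d = n - d by ring] at c'
        exact a3 c' c

theorem alt2 (h : Til P Q d e) (n : ℤ) : φ P Q d e (n + 2 * d) ↔ φ P Q d e n := by
  rw [show n + 2 * d = n + d + d by ring, h.alt, h.alt, not_not]

theorem altk (h : Til P Q d e) (n k : ℤ) : φ P Q d e (n + 2 * k * d) ↔ φ P Q d e n := by
  induction k using Int.induction_on with
  | zero => simp
  | succ k ih =>
    rw [show n + 2 * ((k : ℤ) + 1) * d = n + 2 * k * d + 2 * d by ring, h.alt2, ih]
  | pred k ih =>
    rw [← h.alt2, show n + 2 * (-(k : ℤ) - 1) * d + 2 * d = n + 2 * (-k) * d by ring, ih]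

/-- the comparison of the parities of neighbouring progressions does not depend on the cell -/
theorem psi (h : Til P Q d e) (n f k : ℤ) :
    (φ P Q d e (n + k * d) ↔ φ P Q d e (n + k * d + f)) ↔ (φ P Q d e n ↔ φ P Q d e (n + f)) := by
  rcases Int.emod_two_eq_zero_or_one k with hk | hk
  · obtain ⟨c, rfl⟩ : ∃ c, k = 2 * c := ⟨k / 2, by omega⟩
    rw [h.altk n c, show n + 2 * c * d + f = n + f + 2 * c * d by ring, h.altk (n + f) c]
  · obtain ⟨c, rfl⟩ : ∃ c, k = 2 * c + 1 := ⟨k / 2, by omega⟩
    rw [show n + (2 * c + 1) * d = n + 2 * c * d + d by ring, h.alt, h.altk n c,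
      show n + 2 * c * d + d + f = n + f + 2 * c * d + d by ring, h.alt, h.altk (n + f) c]
    exact not_iff_not

/-- a block gives the same comparison with both neighbours -/
theorem psi_block (h : Til P Q d e) (x : ℤ) (h1 : L P Q d e x) (h2 : L P Q d e (x + d)) :
    (φ P Q d e x ↔ φ P Q d e (x + e)) ↔ (φ P Q d e (x - e) ↔ φ P Q d e x) := by
  have hx : φ P Q d e x := Or.inr (Or.inl ⟨h1, h2⟩)
  unfold L at h1 h2
  rcases h1 with h1 | h1
  · have a1 : φ P Q d e (x - e) := Or.inl (Or.inl h1)
    have a2 : φ P Q d e (x + e) := by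
      rcases h2 with h2 | h2
      · refine (h.pp1 _ h1 ?_).elim
        rwa [show x - e + d = x + d - e by ring]
      · rw [← h.alt2]
        left; right
        rwa [show x + e + 2 * d + d = x + d + e + 2 * d by ring]
    simp only [hx, a1, a2]
  · have a1 : ¬ φ P Q d e (x + e) := by
      rw [← h.alt]
      left; right
      rwa [show x + e + d + d = x + e + 2 * d by ring]
    have a2 : ¬ φ P Q d e (x - e) := by
      rcases h2 with h2 | h2
      · rw [← h.alt]
        left; left
        rwa [show x - e + d = x + d - e by ring]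
      · refine (h.qq1 _ h1 ?_).elim
        rwa [show x + e + 2 * d + d = x + d + e + 2 * d by ring]
    exact iff4 a1 a2 hx

/-- all pairs of the progression of `z` are short -/
def NB (P Q : ℤ → Prop) (d z : ℤ) : Prop := ∀ k : ℤ, S P Q d (z + 2 * k * d)

/-- a progression without long pairs -/
theorem nb_of (h : Til P Q d e) (n : ℤ) (hn : ∀ k : ℤ, ¬ L P Q d e (n + k * d)) :
    NB P Q d n ∨ NB P Q d (n + d) := by
  have c : ∀ k : ℤ, S P Q d (n + k * d) ∨ S P Q d (n + (k - 1) * d) := by
    intro k
    rcases h.cell (n + k * d) with c | c | c | c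
    · exact Or.inl c
    · right
      rwa [show n + (k - 1) * d = n + k * d - d by ring]
    · exact (hn _ c).elim
    · refine (hn (k - 2) ?_).elim
      rwa [show n + (k - 2) * d = n + k * d - 2 * d by ring]
  have up : ∀ k : ℤ, S P Q d (n + k * d) → S P Q d (n + (k + 2) * d) := by
    intro k hk
    rcases c (k + 2) with c1 | c1
    · exact c1
    · refine (h.ss _ hk ?_).elim
      rwa [show n + k * d + d = n + (k + 2 - 1) * d by ring]
  have down : ∀ k : ℤ, S P Q d (n + k * d) → S P Q d (n + (k - 2) * d) := by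
    intro k hk
    rcases c (k - 1) with c1 | c1
    · refine (h.ss _ c1 ?_).elim
      rwa [show n + (k - 1) * d + d = n + k * d by ring]
    · rwa [show k - 2 = k - 1 - 1 by ring]
  have all : ∀ m : ℤ, S P Q d (n + m * d) → NB P Q d (n + m * d) := by
    intro m hm k
    induction k using Int.induction_on with
    | zero => simpa using hm
    | succ k ih =>
      have := up (m + 2 * k) (by rwa [show n + (m + 2 * k) * d = n + m * d + 2 * k * d by ring])
      rwa [show n + m * d + 2 * ((k : ℤ) + 1) * d = n + (m + 2 * k + 2) * d by ring]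
    | pred k ih =>
      have := down (m + 2 * -k)
        (by rwa [show n + (m + 2 * -(k : ℤ)) * d = n + m * d + 2 * -k * d by ring])
      rwa [show n + m * d + 2 * (-(k : ℤ) - 1) * d = n + (m + 2 * -k - 2) * d by ring]
  rcases c 1 with c1 | c1
  · right
    have := all 1 c1
    rwa [one_mul] at this
  · left
    have := all 0 (by simpa using c1)
    simpa using this

theorem nb_shift {z : ℤ} (h : NB P Q d z) (m : ℤ) : NB P Q d (z + 2 * m * d) := by
  intro k
  have := h (m + k)
  rwa [show z + 2 * m * d + 2 * k * d = z + 2 * (m + k) * d by ring]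

/-- the next progression but one after a short one is short -/
theorem nb_next (h : Til P Q d e) {z : ℤ} (hz : NB P Q d z) : NB P Q d (z + 2 * e) := by
  -- alternation
  have up : ∀ x : ℤ, NB P Q d x → P x → P (x + 4 * d) := by
    intro x hx h1
    have h2 : Q (x + 3 * d) := by
      rcases hx 1 with h2 | h2
      · refine (h.pp2 _ h1 ?_).elim
        rwa [show x + 2 * d = x + 2 * 1 * d by ring]
      · rwa [show x + 3 * d = x + 2 * 1 * d + d by ring]
    rcases hx 2 with h3 | h3
    · rwa [show x + 4 * d = x + 2 * 2 * d by ring]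
    · refine (h.qq2 _ h2 ?_).elim
      rwa [show x + 3 * d + 2 * d = x + 2 * 2 * d + d by ring]
  have down : ∀ x : ℤ, NB P Q d x → P x → P (x - 4 * d) := by
    intro x hx h1
    have h2 : Q (x - d) := by
      rcases hx (-1) with h2 | h2
      · refine (h.pp2 _ h2 ?_).elim
        rwa [show x + 2 * -1 * d + 2 * d = x by ring]
      · rwa [show x - d = x + 2 * -1 * d + d by ring]
    rcases hx (-2) with h3 | h3
    · rwa [show x - 4 * d = x + 2 * -2 * d by ring]
    · refine (h.qq2 _ h3 ?_).elim
      rwa [show x + 2 * -2 * d + d + 2 * d = x - d by ring]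
  obtain ⟨x, m, hxm, hx, hPx⟩ : ∃ x m : ℤ, x = z + 2 * m * d ∧ NB P Q d x ∧ P x := by
    rcases hz 0 with h1 | h1
    · exact ⟨z + 2 * 0 * d, 0, rfl, nb_shift hz 0, h1⟩
    · rcases hz 1 with h2 | h2
      · exact ⟨z + 2 * 1 * d, 1, rfl, nb_shift hz 1, h2⟩
      · refine (h.qq2 _ h1 ?_).elim
        rwa [show z + 2 * 0 * d + d + 2 * d = z + 2 * 1 * d + d by ring]
  have allP : ∀ k : ℤ, P (x + 4 * k * d) := by
    intro k
    induction k using Int.induction_on with
    | zero => simpa using hPx
    | succ k ih =>
      have := up _ (by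
        rw [show x + 4 * (k : ℤ) * d = x + 2 * (2 * k) * d by ring]; exact nb_shift hx _) ih
      rwa [show x + 4 * ((k : ℤ) + 1) * d = x + 4 * k * d + 4 * d by ring]
    | pred k ih =>
      have := down _ (by
        rw [show x + 4 * -(k : ℤ) * d = x + 2 * (2 * -k) * d by ring]; exact nb_shift hx _) ih
      rwa [show x + 4 * (-(k : ℤ) - 1) * d = x + 4 * -k * d - 4 * d by ring]
  have allL : ∀ k : ℤ, L P Q d e (x + e + 4 * k * d) := by
    intro k
    left
    rw [show x + e + 4 * k * d - e = x + 4 * k * d by ring]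
    exact allP k
  -- no short pair of the progression of `x` starts at `x + d + 4 k d` or `x - d + 4 k d`
  have noP1 : ∀ k : ℤ, ¬ P (x + 4 * k * d + d) := fun k hk => h.pp1 _ (allP k) hk
  have noP2 : ∀ k : ℤ, ¬ P (x + 4 * k * d - d) := fun k hk => h.pp1 _ hk (by
    rw [show x + 4 * k * d - d + d = x + 4 * k * d by ring]; exact allP k)
  -- the partner of a long pair
  have casea : ∀ k : ℤ, L P Q d e (x + e + 4 * k * d + d) → S P Q d (x + 2 * e + 4 * k * d + 2 * d) := by
    intro k hk
    rcases hk with hk | hk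
    · refine (noP1 k ?_).elim
      rwa [show x + 4 * k * d + d = x + e + 4 * k * d + d - e by ring]
    · right
      rwa [show x + 2 * e + 4 * k * d + 2 * d + d = x + e + 4 * k * d + d + e + 2 * d by ring]
  have caseb : ∀ k : ℤ, L P Q d e (x + e + 4 * k * d - d) → S P Q d (x + 2 * e + 4 * k * d) := by
    intro k hk
    rcases hk with hk | hk
    · refine (noP2 k ?_).elim
      rwa [show x + 4 * k * d - d = x + e + 4 * k * d - d - e by ring]
    · right
      rwa [show x + 2 * e + 4 * k * d + d = x + e + 4 * k * d - d + e + 2 * d by ring]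
  -- the same side everywhere
  have nexta : ∀ k : ℤ, L P Q d e (x + e + 4 * k * d + d) →
      L P Q d e (x + e + 4 * (k + 1) * d + d) := by
    intro k hk
    rcases h.block _ (allL (k + 1)) with h1 | h1
    · exact h1
    · refine (h.l2l _ hk ?_).elim
      rwa [show x + e + 4 * k * d + d + 2 * d = x + e + 4 * (k + 1) * d - d by ring]
  have preva : ∀ k : ℤ, L P Q d e (x + e + 4 * (k + 1) * d - d) →
      L P Q d e (x + e + 4 * k * d - d) := by
    intro k hk
    rcases h.block _ (allL k) with h1 | h1
    · refine (h.l2l _ h1 ?_).elim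
      rwa [show x + e + 4 * k * d + d + 2 * d = x + e + 4 * (k + 1) * d - d by ring]
    · exact h1
  have prevb : ∀ k : ℤ, L P Q d e (x + e + 4 * (k + 1) * d + d) →
      L P Q d e (x + e + 4 * k * d + d) := by
    intro k hk
    rcases h.block _ (allL k) with h1 | h1
    · exact h1
    · exfalso
      -- the cell `x + e + 4 k d + 3 d` is not covered
      rcases h.cell (x + e + 4 * k * d + 3 * d) with c | c | c | c
      · refine h.sl1 _ c ?_
        rw [show x + e + 4 * k * d + 3 * d + d = x + e + 4 * (k + 1) * d by ring]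
        exact allL _
      · refine h.l2s _ (allL k) ?_
        rwa [show x + e + 4 * k * d + 2 * d = x + e + 4 * k * d + 3 * d - d by ring]
      · refine h.l2l _ c ?_
        rwa [show x + e + 4 * k * d + 3 * d + 2 * d = x + e + 4 * (k + 1) * d + d by ring]
      · refine h.l2l _ h1 ?_
        rwa [show x + e + 4 * k * d - d + 2 * d = x + e + 4 * k * d + 3 * d - 2 * d by ring]
  have nextb : ∀ k : ℤ, L P Q d e (x + e + 4 * k * d - d) →
      L P Q d e (x + e + 4 * (k + 1) * d - d) := by
    intro k hk
    rcases h.block _ (allL (k + 1)) with h1 | h1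
    · have h2 := prevb k h1
      refine (h.l2l _ hk ?_).elim
      rwa [show x + e + 4 * k * d - d + 2 * d = x + e + 4 * k * d + d by ring]
    · exact h1
  -- the short pairs between
  have fill : ∀ y : ℤ, S P Q d y → S P Q d (y + 4 * d) → S P Q d (y + 2 * d) := by
    intro y h1 h2
    rcases h.cell (y + 2 * d) with c | c | c | c
    · exact c
    · refine (h.ss _ h1 ?_).elim
      rwa [show y + d = y + 2 * d - d by ring]
    · refine (h.l2s _ c ?_).elim
      rwa [show y + 2 * d + 2 * d = y + 4 * d by ring]
    · rw [show y + 2 * d - 2 * d = y by ring] at c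
      exact (h.sl _ h1 c).elim
  have fin : ∀ y : ℤ, (∀ k : ℤ, S P Q d (y + 4 * k * d)) → NB P Q d y := by
    intro y hy k
    rcases Int.emod_two_eq_zero_or_one k with hk | hk
    · obtain ⟨c, rfl⟩ : ∃ c, k = 2 * c := ⟨k / 2, by omega⟩
      rw [show y + 2 * (2 * c) * d = y + 4 * c * d by ring]
      exact hy c
    · obtain ⟨c, rfl⟩ : ∃ c, k = 2 * c + 1 := ⟨k / 2, by omega⟩
      rw [show y + 2 * (2 * c + 1) * d = y + 4 * c * d + 2 * d by ring]
      refine fill _ (hy c) ?_
      rw [show y + 4 * c * d + 4 * d = y + 4 * (c + 1) * d by ring]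
      exact hy _
  have key : NB P Q d (x + 2 * e) ∨ NB P Q d (x + 2 * e + 2 * d) := by
    rcases h.block _ (allL 0) with h0 | h0
    · right
      have ha : ∀ k : ℤ, L P Q d e (x + e + 4 * k * d + d) := by
        intro k
        induction k using Int.induction_on with
        | zero => exact h0
        | succ k ih => exact nexta _ ih
        | pred k ih => exact prevb _ (by rwa [show -(k : ℤ) - 1 + 1 = -k by ring])
      apply fin
      intro k
      have := casea k (ha k)
      rwa [show x + 2 * e + 2 * d + 4 * k * d = x + 2 * e + 4 * k * d + 2 * d by ring]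
    · left
      have hb : ∀ k : ℤ, L P Q d e (x + e + 4 * k * d - d) := by
        intro k
        induction k using Int.induction_on with
        | zero => exact h0
        | succ k ih => exact nextb _ ih
        | pred k ih => exact preva _ (by rwa [show -(k : ℤ) - 1 + 1 = -k by ring])
      apply fin
      intro k
      have := caseb k (hb k)
      rwa [show x + 2 * e + 4 * k * d = x + 2 * e + 4 * k * d by ring] at this
  subst hxm
  rcases key with hk | hk
  · have := nb_shift hk (-m)
    rwa [show z + 2 * m * d + 2 * e + 2 * -m * d = z + 2 * e by ring] at this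
  · have := nb_shift hk (-m - 1)
    rwa [show z + 2 * m * d + 2 * e + 2 * d + 2 * (-m - 1) * d = z + 2 * e by ring] at this

/-- no tiling if `d` is even and `e` is odd -/
theorem none (h : Til P Q d e) (hd0 : 0 < d) (hd : d % 2 = 0) (he : e % 2 = 1) : False := by
  obtain ⟨i, hi⟩ : ∃ i : ℕ, d = 2 * i := ⟨(d / 2).toNat, by omega⟩
  obtain ⟨c, hc⟩ : ∃ c, e = 2 * c + 1 := ⟨e / 2, by omega⟩
  by_cases hNB : ∃ z, NB P Q d z
  · obtain ⟨z, hz⟩ := hNB
    have h1 : ∀ m : ℕ, NB P Q d (z + 2 * m * e) := by
      intro m
      induction m with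
      | zero => simpa using hz
      | succ m ih =>
        have := h.nb_next ih
        push_cast
        rwa [show z + 2 * ((m : ℤ) + 1) * e = z + 2 * m * e + 2 * e by ring]
    have h2 := h1 i 0
    have h3 := hz c
    refine h.ss _ h3 ?_
    rwa [show z + 2 * c * d + d = z + 2 * (i : ℤ) * e + 2 * 0 * d by
      rw [← hi, hc]; ring]
  · -- every progression has a long pair
    have hL : ∀ n : ℤ, ∃ k : ℤ, L P Q d e (n + k * d) := by
      intro n
      by_contra hcon
      push Not at hcon
      rcases h.nb_of n hcon with h1 | h1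
      · exact hNB ⟨_, h1⟩
      · exact hNB ⟨_, h1⟩
    have hpsi : ∀ n : ℤ, (φ P Q d e n ↔ φ P Q d e (n + e)) ↔ (φ P Q d e (n - e) ↔ φ P Q d e n) := by
      intro n
      obtain ⟨k, hk⟩ : ∃ k : ℤ, L P Q d e (n + k * d) ∧ L P Q d e (n + k * d + d) := by
        obtain ⟨k, hk⟩ := hL n
        rcases h.block _ hk with h1 | h1
        · exact ⟨k, hk, h1⟩
        · refine ⟨k - 1, ?_, ?_⟩
          · rwa [show n + (k - 1) * d = n + k * d - d by ring]
          · rwa [show n + (k - 1) * d + d = n + k * d by ring]
      have h1 := h.psi_block _ hk.1 hk.2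
      have h2 := h.psi n e k
      have h3 := h.psi (n - e) e k
      rw [show n - e + k * d + e = n + k * d by ring, show n - e + e = n by ring,
        show n - e + k * d = n + k * d - e by ring] at h3
      rw [← h2, ← h3]
      exact h1
    have h2e : ∀ n : ℤ, φ P Q d e (n + 2 * e) ↔ φ P Q d e n := by
      intro n
      have := hpsi (n + e)
      rw [show n + e + e = n + 2 * e by ring, show n + e - e = n by ring] at this
      exact iff3 this
    have h2m : ∀ m : ℕ, φ P Q d e (2 * m * e) ↔ φ P Q d e 0 := by
      intro m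
      induction m with
      | zero => simp
      | succ m ih =>
        push_cast
        rw [show 2 * ((m : ℤ) + 1) * e = 2 * m * e + 2 * e by ring, h2e, ih]
    have h3 := h2m i
    have h4 := h.alt (2 * c * d)
    have h5 := h.altk 0 c
    rw [zero_add] at h5
    rw [show (2 * (i : ℤ)) * e = 2 * c * d + d by rw [← hi, hc]; ring] at h3
    tauto

end Til

end MPae024f.R2
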