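import Mathlib
import Pool.Agent.Lib.MP_ae024f_co.QuadResult

/-!
# Two progressions with differences `d` and `q d`

Tilings by `A = {i d : i < p} ∪ {e + i q d : i < s}` and `-A`. `S x`: one of the intervals
`x, x + d, …, x + (p - 1) d` of a tile starts at `x`; `L x`: one of the long progressions
`x, x + q d, …, x + (s - 1) q d` of a tile starts at `x`.
-/

namespace MPae024f.Sc

def S (P Q : ℤ → Prop) (p d x : ℤ) : Prop := P x ∨ Q (x + (p - 1) * d)

def L (P Q : ℤ → Prop) (q s d e x : ℤ) : Prop := P (x - e) ∨ Q (x + e + (s - 1) * (q * d))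

/-- the set `{i d : i < p} ∪ {e + i q d : i < s}` -/
def Ts (p s q d e : ℤ) : Set ℤ :=
  {x | (∃ i, 0 ≤ i ∧ i < p ∧ x = i * d) ∨ ∃ i, 0 ≤ i ∧ i < s ∧ x = e + i * (q * d)}

structure Til (p s q d e : ℤ) (P Q : ℤ → Prop) : Prop where
  ex : ∀ n, (∃ x i, 0 ≤ i ∧ i < p ∧ n = x + i * d ∧ S P Q p d x) ∨
    ∃ x i, 0 ≤ i ∧ i < s ∧ n = x + i * (q * d) ∧ L P Q q s d e x
  ss : ∀ x y i, 0 < i → i < p → y = x + i * d → S P Q p d x → S P Q p d y → False
  sl : ∀ x y i j, 0 ≤ i → i < p → 0 ≤ j → j < s → x + i * d = y + j * (q * d) →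
    S P Q p d x → L P Q q s d e y → False
  ll : ∀ x y i, 0 < i → i < s → y = x + i * (q * d) → L P Q q s d e x → L P Q q s d e y → False
  pp : ∀ x y i, 0 < i → i < s → y = x + i * (q * d) → P x → P y → False
  qq : ∀ x y i, 0 < i → i < s → y = x + i * (q * d) → Q x → Q y → False
  ps : ∀ x y, y = x + (p - 1) * d → P x → Q y → False
  pl : ∀ x y, y = x + 2 * e + (s - 1) * (q * d) → P x → Q y → False

variable {P Q : ℤ → Prop} {p s q d e : ℤ}

theorem til_of_pq (hd : 0 < d) (hp : 2 ≤ p) (hs : 2 ≤ s) (hq : 0 < q)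
    (he : ∀ i j, 0 ≤ i → i < p → 0 ≤ j → j < s → i * d ≠ e + j * (q * d))
    (h : PQ (Ts p s q d e) P Q) : Til p s q d e P Q := by
  have key : ∀ (n : ℤ) (σ τ : Bool) (a b : ℤ), a ∈ Ts p s q d e → b ∈ Ts p s q d e →
      (if σ = true then P (n - a) else Q (n + a)) →
      (if τ = true then P (n - b) else Q (n + b)) → σ = τ ∧ a = b := by
    intro n σ τ a b ha hb h5 h6
    have := (h n).unique (y₁ := (σ, a)) (y₂ := (τ, b)) ⟨ha, h5⟩ ⟨hb, h6⟩
    simpa using this
  have kt : ∀ (n a b x y : ℤ), a ∈ Ts p s q d e → b ∈ Ts p s q d e → n - a = x → n - b = y →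
      P x → P y → a = b := by
    intro n a b x y ha hb hx hy h5 h6
    exact (key n true true a b ha hb (by simpa [hx] using h5) (by simpa [hy] using h6)).2
  have kf : ∀ (n a b x y : ℤ), a ∈ Ts p s q d e → b ∈ Ts p s q d e → n + a = x → n + b = y →
      Q x → Q y → a = b := by
    intro n a b x y ha hb hx hy h5 h6
    exact (key n false false a b ha hb (by simpa [hx] using h5) (by simpa [hy] using h6)).2
  have km : ∀ (n a b x y : ℤ), a ∈ Ts p s q d e → b ∈ Ts p s q d e → n - a = x → n + b = y →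
      P x → Q y → False := by
    intro n a b x y ha hb hx hy h5 h6
    have := (key n true false a b ha hb (by simpa [hx] using h5) (by simpa [hy] using h6)).1
    simp at this
  have ms : ∀ i, 0 ≤ i → i < p → i * d ∈ Ts p s q d e := fun i h0 h1 => Or.inl ⟨i, h0, h1, rfl⟩
  have ml : ∀ i, 0 ≤ i → i < s → e + i * (q * d) ∈ Ts p s q d e := fun i h0 h1 =>
    Or.inr ⟨i, h0, h1, rfl⟩
  have hpd : 0 < q * d := mul_pos hq hd
  have inj : ∀ i j : ℤ, i * d = j * d → i = j := fun i j hij => mul_right_cancel₀ hd.ne' hij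
  have inj' : ∀ i j : ℤ, e + i * (q * d) = e + j * (q * d) → i = j := fun i j hij =>
    mul_right_cancel₀ hpd.ne' (add_left_cancel hij)
  refine ⟨fun n => ?_, ?_, ?_, ?_, ?_, ?_, ?_, ?_⟩
  · obtain ⟨⟨σ, a⟩, ⟨ha, h5⟩, -⟩ := h n
    cases σ
    · simp only [Bool.false_eq_true, if_false] at h5
      rcases ha with ⟨i, h0, h1, ha⟩ | ⟨i, h0, h1, ha⟩
      · simp only at ha
        subst ha
        refine Or.inl ⟨n - (p - 1 - i) * d, p - 1 - i, by omega, by omega, by ring, Or.inr ?_⟩
        rwa [show n - (p - 1 - i) * d + (p - 1) * d = n + i * d by ring]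
      · simp only at ha
        subst ha
        refine Or.inr ⟨n - (s - 1 - i) * (q * d), s - 1 - i, by omega, by omega, by ring,
          Or.inr ?_⟩
        rwa [show n - (s - 1 - i) * (q * d) + e + (s - 1) * (q * d) = n + (e + i * (q * d)) by ring]
    · simp only [if_true] at h5
      rcases ha with ⟨i, h0, h1, ha⟩ | ⟨i, h0, h1, ha⟩
      · simp only at ha
        subst ha
        exact Or.inl ⟨n - i * d, i, h0, h1, by ring, Or.inl h5⟩
      · simp only at ha
        subst ha
        refine Or.inr ⟨n - i * (q * d), i, h0, h1, by ring, Or.inl ?_⟩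
        rwa [show n - i * (q * d) - e = n - (e + i * (q * d)) by ring]
  · rintro x y i h0 h1 rfl (h5 | h5) (h6 | h6)
    · have := inj _ _ (kt (x + i * d) (i * d) (0 * d) _ _ (ms _ h0.le h1) (ms _ le_rfl (by omega))
        (by ring) (by ring) h5 h6)
      omega
    · exact km (x + i * d) (i * d) ((p - 1) * d) _ _ (ms _ h0.le h1) (ms _ (by omega) (by omega))
        (by ring) (by ring) h5 h6
    · exact km (x + i * d) (0 * d) ((p - 1 - i) * d) _ _ (ms _ le_rfl (by omega))
        (ms _ (by omega) (by omega)) (by ring) (by ring) h6 h5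
    · have := inj _ _ (kf (x + i * d) ((p - 1 - i) * d) ((p - 1) * d) _ _
        (ms _ (by omega) (by omega)) (ms _ (by omega) (by omega)) (by ring) (by ring) h5 h6)
      omega
  · rintro x y i j h0 h1 h2 h3 hxy (h5 | h5) (h6 | h6)
    · exact he i j h0 h1 h2 h3 (kt (x + i * d) _ _ _ _ (ms _ h0 h1) (ml _ h2 h3)
        (by ring) (by rw [hxy]; ring) h5 h6)
    · exact km (x + i * d) (i * d) (e + (s - 1 - j) * (q * d)) _ _ (ms _ h0 h1)
        (ml _ (by omega) (by omega)) (by ring) (by rw [hxy]; ring) h5 h6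
    · exact km (x + i * d) (e + j * (q * d)) ((p - 1 - i) * d) _ _ (ml _ h2 h3)
        (ms _ (by omega) (by omega)) (by rw [hxy]; ring) (by ring) h6 h5
    · exact he (p - 1 - i) (s - 1 - j) (by omega) (by omega) (by omega) (by omega)
        (kf (x + i * d) _ _ _ _ (ms _ (by omega) (by omega)) (ml _ (by omega) (by omega))
        (by ring) (by rw [hxy]; ring) h5 h6)
  · rintro x y i h0 h1 rfl (h5 | h5) (h6 | h6)
    · have := inj' _ _ (kt (x + i * (q * d)) (e + i * (q * d)) (e + 0 * (q * d)) _ _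
        (ml _ h0.le h1) (ml _ le_rfl (by omega)) (by ring) (by ring) h5 h6)
      omega
    · exact km (x + i * (q * d)) (e + i * (q * d)) (e + (s - 1) * (q * d)) _ _ (ml _ h0.le h1)
        (ml _ (by omega) (by omega)) (by ring) (by ring) h5 h6
    · exact km (x + i * (q * d)) (e + 0 * (q * d)) (e + (s - 1 - i) * (q * d)) _ _
        (ml _ le_rfl (by omega)) (ml _ (by omega) (by omega)) (by ring) (by ring) h6 h5
    · have := inj' _ _ (kf (x + i * (q * d)) (e + (s - 1 - i) * (q * d)) (e + (s - 1) * (q * d))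
        _ _ (ml _ (by omega) (by omega)) (ml _ (by omega) (by omega)) (by ring) (by ring) h5 h6)
      omega
  · rintro x y i h0 h1 rfl h5 h6
    have := inj' _ _ (kt (x + e + i * (q * d)) (e + i * (q * d)) (e + 0 * (q * d)) _ _
      (ml _ h0.le h1) (ml _ le_rfl (by omega)) (by ring) (by ring) h5 h6)
    omega
  · rintro x y i h0 h1 rfl h5 h6
    have := inj' _ _ (kf (x - e) (e + 0 * (q * d)) (e + i * (q * d)) _ _
      (ml _ le_rfl (by omega)) (ml _ h0.le h1) (by ring) (by ring) h5 h6)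
    omega
  · rintro x y rfl h5 h6
    exact km x (0 * d) ((p - 1) * d) _ _ (ms _ le_rfl (by omega)) (ms _ (by omega) (by omega))
      (by ring) (by ring) h5 h6
  · rintro x y rfl h5 h6
    exact km (x + e) (e + 0 * (q * d)) (e + (s - 1) * (q * d)) _ _ (ml _ le_rfl (by omega))
      (ml _ (by omega) (by omega)) (by ring) (by ring) h5 h6

theorem tr {R : ℤ → Prop} {x y : ℤ} (h : R x) (hxy : x = y) : R y := hxy ▸ h

end MPae024f.Sc
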