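import Mathlib
import Pool.Agent.Lib.MP_ae024f_co.QuadResult
import Pool.Agent.Lib.MP_ae024f_co.R2.Scale

section
/-! From the reduced sets `Ts p s q d e` (coprime `d`, `e`) to
`{a + i D : i < p} ∪ {b + i q D : i < s}`. -/
namespace MPae024f.Sc

/-- The union of `a, a + D, …, a + (p - 1) D` and `b, b + q D, …, b + (s - 1) q D`. -/
def ratioProg (p s q : ℕ) (a b D : ℤ) : Set ℤ :=
  {x | (∃ i : ℕ, i < p ∧ x = a + i * D) ∨ ∃ i : ℕ, i < s ∧ x = b + i * (q * D)}

theorem ratioProg_eq (p s q : ℕ) (a b G d e : ℤ) (hb : b - a = G * e) :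
    ratioProg p s q a b (G * d) = {x | ∃ c ∈ Ts p s q d e, x = a + G * c} := by
  ext x
  constructor
  · rintro (⟨i, hi, rfl⟩ | ⟨i, hi, rfl⟩)
    · exact ⟨i * d, Or.inl ⟨i, by omega, by omega, rfl⟩, by ring⟩
    · exact ⟨e + i * (q * d), Or.inr ⟨i, by omega, by omega, rfl⟩, by linear_combination hb⟩
  · rintro ⟨c, ⟨i, h0, h1, rfl⟩ | ⟨i, h0, h1, rfl⟩, rfl⟩
    · left
      refine ⟨i.toNat, by omega, ?_⟩
      rw [show ((i.toNat : ℕ) : ℤ) = i by omega]; ring
    · right
      refine ⟨i.toNat, by omega, ?_⟩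
      rw [show ((i.toNat : ℕ) : ℤ) = i by omega]; linear_combination -hb

theorem ratioProg_finite (p s q : ℕ) (a b D : ℤ) : (ratioProg p s q a b D).Finite := by
  have h1 : ((fun i : ℕ => a + i * D) '' {i | i < p}).Finite := (Set.finite_lt_nat p).image _
  have h2 : ((fun i : ℕ => b + i * (q * D)) '' {i | i < s}).Finite :=
    (Set.finite_lt_nat s).image _
  refine (h1.union h2).subset ?_
  rintro x (⟨i, hi, rfl⟩ | ⟨i, hi, rfl⟩)
  · exact Or.inl ⟨i, hi, rfl⟩
  · exact Or.inr ⟨i, hi, rfl⟩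

/-- reduction to coprime `d`, `e` -/
theorem unreduced {p s q : ℕ} (hp : 1 ≤ p) {a b D : ℤ} (hD : 0 < D)
    (hdj : ∀ i j : ℕ, i < p → j < s → a + i * D ≠ b + j * (q * D)) (C : ℤ → ℤ → Prop)
    (H : ∀ d e : ℤ, 0 < d → IsCoprime d e →
      (∀ i j : ℤ, 0 ≤ i → i < p → 0 ≤ j → j < s → i * d ≠ e + j * (q * d)) →
      ((∃ P Q, PQ (Ts p s q d e) P Q) ↔ C d e)) :
    (∃ parts : Set (Set ℤ), Setoid.IsPartition parts ∧ ∀ S ∈ parts, ∃ t : ℤ,
      S = {x | ∃ c ∈ ratioProg p s q a b D, x = t + c} ∨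
      S = {x | ∃ c ∈ ratioProg p s q a b D, x = t + -c}) ↔
      C (D / Int.gcd D (b - a)) ((b - a) / Int.gcd D (b - a)) := by
  set G : ℤ := ((Int.gcd D (b - a) : ℕ) : ℤ) with hG
  have hG0 : 0 < G := by
    have : 0 < Int.gcd D (b - a) := Int.gcd_pos_of_ne_zero_left _ (by omega)
    omega
  obtain ⟨d, hd⟩ : ∃ d, D = G * d := Int.gcd_dvd_left D (b - a)
  obtain ⟨e, he⟩ : ∃ e, b - a = G * e := Int.gcd_dvd_right D (b - a)
  have hd' : D / G = d := by rw [hd]; exact Int.mul_ediv_cancel_left _ hG0.ne'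
  have he' : (b - a) / G = e := by rw [he]; exact Int.mul_ediv_cancel_left _ hG0.ne'
  have hcop : IsCoprime d e := by
    rw [← hd', ← he', Int.isCoprime_iff_gcd_eq_one]
    exact Int.gcd_ediv_gcd_ediv_gcd (Int.gcd_pos_of_ne_zero_left _ (by omega))
  have hd0 : 0 < d := by
    by_contra hcon
    have : G * d ≤ 0 := mul_nonpos_of_nonneg_of_nonpos hG0.le (by omega)
    omega
  rw [hd', he']
  have hdj' : ∀ i j : ℤ, 0 ≤ i → i < p → 0 ≤ j → j < s → i * d ≠ e + j * (q * d) := by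
    intro i j h0 h1 h2 h3 h4
    apply hdj i.toNat j.toNat (by omega) (by omega)
    rw [show ((i.toNat : ℕ) : ℤ) = i by omega, show ((j.toNat : ℕ) : ℤ) = j by omega, hd]
    linear_combination G * h4 - he
  rw [← H d e hd0 hcop hdj', ← pq_scale a G hG0.ne']
  have hset := ratioProg_eq p s q a b G d e he
  rw [← hd] at hset
  rw [← hset]
  have hne : (ratioProg p s q a b D).Nonempty := ⟨a + (0 : ℕ) * D, Or.inl ⟨0, by omega, rfl⟩⟩
  exact ⟨fun h => pq_of_partition (ratioProg_finite p s q a b D) hne h,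
    fun ⟨P, Q, h⟩ => partition_of_pq hne h⟩

end MPae024f.Sc
end

section
/-! A set of `K` integers which together with a reflected copy is a complete residue system modulo
`2 K` tiles; the sufficient conditions for two progressions with differences `d` and `2 d`. -/
namespace MPae024f.Sc

theorem pq_of_cover (K : ℕ) (hK : 0 < K) (a : Fin K → ℤ) (t : ℤ)
    (hc : ∀ n : ℤ, ∃ i, ((2 * K : ℕ) : ℤ) ∣ n - a i ∨ ((2 * K : ℕ) : ℤ) ∣ n + a i - t) :
    ∃ P Q, PQ (Set.range a) P Q := by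
  haveI : NeZero (2 * K) := ⟨by omega⟩
  let f : Bool × Fin K → ZMod (2 * K) := fun x =>
    if x.1 = true then ((a x.2 : ℤ) : ZMod (2 * K)) else ((t - a x.2 : ℤ) : ZMod (2 * K))
  have e1 : ∀ (n : ℤ) (i : Fin K), f (true, i) = (n : ZMod (2 * K)) ↔
      ((2 * K : ℕ) : ℤ) ∣ n - a i := by
    intro n i
    simp only [f, if_true]
    rw [ZMod.intCast_eq_intCast_iff_dvd_sub]
  have e2 : ∀ (n : ℤ) (i : Fin K), f (false, i) = (n : ZMod (2 * K)) ↔
      ((2 * K : ℕ) : ℤ) ∣ n + a i - t := by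
    intro n i
    simp only [f, Bool.false_eq_true, if_false]
    rw [ZMod.intCast_eq_intCast_iff_dvd_sub, show n - (t - a i) = n + a i - t by ring]
  have hsurj : Function.Surjective f := by
    intro z
    obtain ⟨n, rfl⟩ := ZMod.intCast_surjective z
    obtain ⟨i, h | h⟩ := hc n
    · exact ⟨(true, i), (e1 n i).2 h⟩
    · exact ⟨(false, i), (e2 n i).2 h⟩
  have hbij : Function.Bijective f := by
    rw [Fintype.bijective_iff_surjective_and_card]
    refine ⟨hsurj, ?_⟩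
    rw [ZMod.card, Fintype.card_prod, Fintype.card_bool, Fintype.card_fin]
  refine ⟨fun n => ((2 * K : ℕ) : ℤ) ∣ n, fun n => ((2 * K : ℕ) : ℤ) ∣ n - t, fun n => ?_⟩
  have key : ∀ (σ : Bool) (i : Fin K), f (σ, i) = (n : ZMod (2 * K)) ↔
      (if σ = true then ((2 * K : ℕ) : ℤ) ∣ n - a i else ((2 * K : ℕ) : ℤ) ∣ n + a i - t) := by
    intro σ i
    cases σ
    · simp only [Bool.false_eq_true, if_false]; exact e2 n i
    · simp only [if_true]; exact e1 n i
  obtain ⟨⟨σ, i⟩, hi⟩ := hsurj (n : ZMod (2 * K))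
  refine ⟨(σ, a i), ⟨⟨i, rfl⟩, (key σ i).1 hi⟩, ?_⟩
  rintro ⟨τ, b⟩ ⟨⟨j, rfl⟩, hb⟩
  have := hbij.injective (((key τ j).2 hb).trans hi.symm)
  simp only [Prod.mk.injEq] at this ⊢
  exact ⟨this.1, by rw [this.2]⟩

theorem ts_range (K : ℕ) (s d e : ℤ) (hs : 0 ≤ s) (hK : (K : ℤ) = s + 2) :
    Set.range (fun i : Fin K => if ((i : ℕ) : ℤ) < 2 then ((i : ℕ) : ℤ) * d
      else e + (((i : ℕ) : ℤ) - 2) * (2 * d)) = Ts 2 s 2 d e := by
  ext x
  constructor
  · rintro ⟨i, rfl⟩
    have hi := i.2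
    by_cases h : ((i : ℕ) : ℤ) < 2
    · exact Or.inl ⟨_, by omega, h, by simp only [if_pos h]⟩
    · exact Or.inr ⟨((i : ℕ) : ℤ) - 2, by omega, by omega, by simp only [if_neg h]⟩
  · rintro (⟨i, h0, h1, rfl⟩ | ⟨i, h0, h1, rfl⟩)
    · refine ⟨⟨i.toNat, by omega⟩, ?_⟩
      simp only
      rw [show ((i.toNat : ℕ) : ℤ) = i by omega, if_pos h1]
    · refine ⟨⟨(i + 2).toNat, by omega⟩, ?_⟩
      simp only
      rw [show (((i + 2).toNat : ℕ) : ℤ) = i + 2 by omega, if_neg (by omega)]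
      ring

/-- the sufficient conditions -/
theorem suff2 {s d e : ℤ} (hs : 2 ≤ s) (hd : IsCoprime d (2 * (s + 2))) (c : ℤ)
    (hc : c = 2 ∨ c = 3 ∨ c = 4 ∨ c = 5) (h : 2 * (s + 2) ∣ e - c * d) :
    ∃ P Q, PQ (Ts 2 s 2 d e) P Q := by
  obtain ⟨K, hK⟩ : ∃ K : ℕ, (K : ℤ) = s + 2 := ⟨(s + 2).toNat, by omega⟩
  obtain ⟨t, ht⟩ : ∃ t : ℤ, t = if c < 4 then 2 * s + 3 else 3 := ⟨_, rfl⟩
  rw [← ts_range K s d e (by omega) hK]
  apply pq_of_cover K (by omega) _ (t * d)
  have hKK : ((2 * K : ℕ) : ℤ) = 2 * (s + 2) := by push_cast; rw [hK]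
  rw [hKK]
  intro n
  -- `n ≡ m d` with `0 ≤ m < 2 (s + 2)`
  obtain ⟨m, hm0, hm1, w, hw⟩ : ∃ m : ℤ, 0 ≤ m ∧ m < 2 * (s + 2) ∧ ∃ w, n = m * d +
      2 * (s + 2) * w := by
    obtain ⟨u, v, huv⟩ := hd
    refine ⟨(n * u) % (2 * (s + 2)), Int.emod_nonneg _ (by omega),
      Int.emod_lt_of_pos _ (by omega), (n * u) / (2 * (s + 2)) * d + n * v, ?_⟩
    have h1 := Int.emod_add_mul_ediv (n * u) (2 * (s + 2))
    linear_combination (-d) * h1 - n * huv
  obtain ⟨j, hj⟩ := h
  have fin : ∀ (i : ℤ) (hi0 : 0 ≤ i) (hi1 : i < s + 2),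
      ((∃ z, n - (if i < 2 then i * d else e + (i - 2) * (2 * d)) = 2 * (s + 2) * z) ∨
       (∃ z, n + (if i < 2 then i * d else e + (i - 2) * (2 * d)) - t * d = 2 * (s + 2) * z)) →
      ∃ i : Fin K, (2 * (s + 2) ∣ n - (if ((i : ℕ) : ℤ) < 2 then ((i : ℕ) : ℤ) * d
        else e + (((i : ℕ) : ℤ) - 2) * (2 * d))) ∨
        (2 * (s + 2) ∣ n + (if ((i : ℕ) : ℤ) < 2 then ((i : ℕ) : ℤ) * d
        else e + (((i : ℕ) : ℤ) - 2) * (2 * d)) - t * d) := by
    intro i hi0 hi1 h
    refine ⟨⟨i.toNat, by omega⟩, ?_⟩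
    simp only
    rw [show ((i.toNat : ℕ) : ℤ) = i by omega]
    exact h
  -- the four kinds of residues
  have k1 : m = 0 ∨ m = 1 → _ := fun hm => fin m hm0 (by omega) (Or.inl ⟨w, by
    rw [if_pos (by omega), hw]; ring⟩)
  have k2 : ∀ i, 0 ≤ i → i < s → m = c + 2 * i → _ := fun i h0 h1 hm =>
    fin (i + 2) (by omega) (by omega) (Or.inl ⟨w - j, by
      rw [if_neg (by omega), hw, hm]; linear_combination -hj⟩)
  have k3 : m = t ∨ m = t - 1 → _ := fun hm => fin (t - m) (by omega) (by omega)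
    (Or.inr ⟨w, by rw [if_pos (by omega), hw]; ring⟩)
  have k4 : ∀ i ε, 0 ≤ i → i < s → m = t - (c + 2 * i) + 2 * (s + 2) * ε → _ :=
    fun i ε h0 h1 hm => fin (i + 2) (by omega) (by omega) (Or.inr ⟨w + j + ε * d, by
      rw [if_neg (by omega), hw, hm]; linear_combination hj⟩)
  by_cases h1 : m = 0 ∨ m = 1
  · exact k1 h1
  by_cases h3 : m = t ∨ m = t - 1
  · exact k3 h3
  rcases hc with rfl | rfl | rfl | rfl
  · rw [if_pos (by norm_num)] at ht
    rcases Int.emod_two_eq_zero_or_one m with h2 | h2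
    · exact k2 ((m - 2) / 2) (by omega) (by omega) (by omega)
    · exact k4 ((t - 2 - m) / 2) 0 (by omega) (by omega) (by omega)
  · rw [if_pos (by norm_num)] at ht
    rcases Int.emod_two_eq_zero_or_one m with h2 | h2
    · exact k4 ((t - 3 - m) / 2) 0 (by omega) (by omega) (by omega)
    · exact k2 ((m - 3) / 2) (by omega) (by omega) (by omega)
  · rw [if_neg (by norm_num)] at ht
    rcases Int.emod_two_eq_zero_or_one m with h2 | h2
    · exact k2 ((m - 4) / 2) (by omega) (by omega) (by omega)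
    · exact k4 ((t - 4 + 2 * (s + 2) - m) / 2) 1 (by omega) (by omega) (by omega)
  · rw [if_neg (by norm_num)] at ht
    rcases Int.emod_two_eq_zero_or_one m with h2 | h2
    · exact k4 ((t - 5 + 2 * (s + 2) - m) / 2) 1 (by omega) (by omega) (by omega)
    · exact k2 ((m - 5) / 2) (by omega) (by omega) (by omega)

end MPae024f.Sc
end

section
/-! Constructions for two progressions with differences `d` and `q d`. -/
namespace MPae024f.Sc

variable {p s q d e : ℤ}

theorem pq_intro {A : Set ℤ} {P Q : ℤ → Prop}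
    (hex : ∀ n, ∃ σ : Bool, ∃ a, a ∈ A ∧ (if σ = true then P (n - a) else Q (n + a)))
    (huq : ∀ n (σ τ : Bool) (a b : ℤ), a ∈ A → b ∈ A → (if σ = true then P (n - a) else Q (n + a)) →
      (if τ = true then P (n - b) else Q (n + b)) → σ = τ ∧ a = b) : PQ A P Q := by
  intro n
  obtain ⟨σ, a, ha, h⟩ := hex n
  refine ⟨(σ, a), ⟨ha, h⟩, ?_⟩
  rintro ⟨τ, b⟩ ⟨hb, h'⟩
  obtain ⟨h1, h2⟩ := huq n τ σ b a hb ha h' h
  simp only [Prod.mk.injEq]
  exact ⟨h1, h2⟩

theorem ex_mod {p q : ℤ} (hp : 0 < p) (hc : IsCoprime p q) (x : ℤ) :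
    ∃ i, 0 ≤ i ∧ i < p ∧ p ∣ x - i * q := by
  obtain ⟨a, b, hab⟩ := hc
  refine ⟨(x * b) % p, Int.emod_nonneg _ hp.ne', Int.emod_lt_of_pos _ hp, ?_⟩
  have h1 := Int.emod_add_mul_ediv (x * b) p
  exact ⟨x * a + (x * b) / p * q, by linear_combination (-x) * hab - q * h1⟩

theorem uq_mod {p q : ℤ} (hc : IsCoprime p q) {x i j : ℤ} (hi0 : 0 ≤ i) (hi1 : i < p)
    (hj0 : 0 ≤ j) (hj1 : j < p) (hi : p ∣ x - i * q) (hj : p ∣ x - j * q) : i = j := by
  have h1 : p ∣ (i - j) * q := by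
    have := dvd_sub hj hi
    rwa [show x - j * q - (x - i * q) = (i - j) * q by ring] at this
  have h2 := hc.dvd_of_dvd_mul_right h1
  have h3 : i - j = 0 := by
    obtain ⟨c, hc⟩ := h2
    rcases lt_trichotomy c 0 with h | h | h
    · have : p * c ≤ p * (-1) := mul_le_mul_of_nonneg_left (by omega) (by omega)
      omega
    · rw [h] at hc; omega
    · have : p * 1 ≤ p * c := mul_le_mul_of_nonneg_left (by omega) (by omega)
      omega
  omega

theorem not_three {d e : ℤ} (hde : IsCoprime d e) (h3 : 3 ∣ d) : ¬ 3 ∣ e := by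
  intro h
  obtain ⟨a, b, hab⟩ := hde
  have h1 : (3 : ℤ) ∣ 1 := by
    rw [← hab]
    exact dvd_add (dvd_mul_of_dvd_right h3 a) (dvd_mul_of_dvd_right h b)
  omega

theorem three_cases {e : ℤ} (he : ¬ 3 ∣ e) (n : ℤ) : 3 ∣ n ∨ 3 ∣ n + e ∨ 3 ∣ n - e := by
  rcases (show e % 3 = 1 ∨ e % 3 = 2 by omega) with h | h <;>
    rcases (show n % 3 = 0 ∨ n % 3 = 1 ∨ n % 3 = 2 by omega) with h' | h' | h' <;> omega

theorem sub_mul_ediv' {d : ℤ} (hd : 0 < d) (n i : ℤ) : (n - i * d) / d = n / d - i := by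
  rw [show n - i * d = n + (-i) * d by ring, Int.add_mul_ediv_right _ _ hd.ne']; ring

theorem add_mul_ediv' {d : ℤ} (hd : 0 < d) (n i : ℤ) : (n + i * d) / d = n / d + i := by
  rw [Int.add_mul_ediv_right _ _ hd.ne']

/-- `s = p`: even `d` -/
theorem suff_eq (hd : 0 < d) (hde : IsCoprime d e) (hp : 0 < p) (hc : IsCoprime p q)
    (h2 : 2 ∣ d) : ∃ P Q, PQ (Ts p p q d e) P Q := by
  obtain ⟨c, rfl⟩ := h2
  have he : e % 2 = 1 := by
    by_contra hcon
    obtain ⟨a, b, hab⟩ := hde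
    obtain ⟨t, rfl⟩ : ∃ t, e = 2 * t := ⟨e / 2, by omega⟩
    have : 1 = 2 * (a * c + b * t) := by linear_combination -hab
    omega
  have ev : ∀ i, 2 ∣ i * (2 * c) := fun i => ⟨i * c, by ring⟩
  have ev' : ∀ i, 2 ∣ i * (q * (2 * c)) := fun i => ⟨i * q * c, by ring⟩
  refine ⟨fun n => 2 ∣ n ∧ p ∣ n / (2 * c), fun _ => False, pq_intro ?_ ?_⟩
  · intro n
    rcases (show n % 2 = 0 ∨ n % 2 = 1 by omega) with h | h
    · refine ⟨true, ((n / (2 * c)) % p) * (2 * c), Or.inl ⟨_, Int.emod_nonneg _ hp.ne',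
        Int.emod_lt_of_pos _ hp, rfl⟩, ?_⟩
      simp only [if_true]
      refine ⟨dvd_sub (by omega) (ev _), ?_⟩
      rw [sub_mul_ediv' hd]
      exact Int.dvd_self_sub_emod
    · obtain ⟨i, h0, h1, h3⟩ := ex_mod hp hc ((n - e) / (2 * c))
      refine ⟨true, e + i * (q * (2 * c)), Or.inr ⟨i, h0, h1, rfl⟩, ?_⟩
      simp only [if_true]
      rw [show n - (e + i * (q * (2 * c))) = (n - e) - i * (q * (2 * c)) by ring]
      refine ⟨dvd_sub (by omega) (ev' _), ?_⟩
      rw [show (n - e) - i * (q * (2 * c)) = (n - e) - (i * q) * (2 * c) by ring,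
        sub_mul_ediv' hd]
      exact h3
  · rintro n σ τ a b ha hb h h'
    cases σ
    · simp at h
    cases τ
    · simp at h'
    refine ⟨rfl, ?_⟩
    simp only [if_true] at h h'
    rcases ha with ⟨i, i0, i1, rfl⟩ | ⟨i, i0, i1, rfl⟩ <;>
      rcases hb with ⟨j, j0, j1, rfl⟩ | ⟨j, j0, j1, rfl⟩
    · obtain ⟨-, h1⟩ := h
      obtain ⟨-, h2⟩ := h'
      rw [sub_mul_ediv' hd] at h1 h2
      rw [uq_mod (isCoprime_one_right : IsCoprime p 1) i0 i1 j0 j1 (by simpa using h1)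
        (by simpa using h2)]
    · exfalso
      have h1 := h.1
      have h2 := h'.1
      have := ev i
      have := ev' j
      omega
    · exfalso
      have h1 := h.1
      have h2 := h'.1
      have := ev' i
      have := ev j
      omega
    · obtain ⟨-, h1⟩ := h
      obtain ⟨-, h2⟩ := h'
      rw [show n - (e + i * (q * (2 * c))) = (n - e) - (i * q) * (2 * c) by ring,
        sub_mul_ediv' hd] at h1
      rw [show n - (e + j * (q * (2 * c))) = (n - e) - (j * q) * (2 * c) by ring,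
        sub_mul_ediv' hd] at h2
      rw [uq_mod hc i0 i1 j0 j1 h1 h2]

/-- `p = 2 s`, `3 ∣ d` -/
theorem suff_small (hd : 0 < d) (hde : IsCoprime d e) (hs : 0 < s) (hg : Int.gcd (2 * s) q ≤ 2)
    (h3 : 3 ∣ d) : ∃ P Q, PQ (Ts (2 * s) s q d e) P Q := by
  have he := not_three hde h3
  -- each class modulo `2 s` is `i q` or `κ - i q` with exactly one `i`
  obtain ⟨κ, hκ1, hκ2, hκ3, hκ4⟩ : ∃ κ : ℤ,
      (∀ x, (∃ i, 0 ≤ i ∧ i < s ∧ 2 * s ∣ x - i * q) ∨
        ∃ i, 0 ≤ i ∧ i < s ∧ 2 * s ∣ x + i * q - κ) ∧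
      (∀ x i j, 0 ≤ i → i < s → 0 ≤ j → j < s → 2 * s ∣ x - i * q → 2 * s ∣ x - j * q → i = j) ∧
      (∀ x i j, 0 ≤ i → i < s → 0 ≤ j → j < s → 2 * s ∣ x + i * q - κ →
        2 * s ∣ x + j * q - κ → i = j) ∧
      (∀ x i j, 0 ≤ i → i < s → 0 ≤ j → j < s → 2 * s ∣ x - i * q →
        2 * s ∣ x + j * q - κ → False) := by
    rcases (show Int.gcd (2 * s) q = 0 ∨ Int.gcd (2 * s) q = 1 ∨ Int.gcd (2 * s) q = 2 by omega)
      with hg | hg | hg
    · rw [Int.gcd_eq_zero_iff] at hg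
      omega
    · -- coprime
      have hc : IsCoprime (2 * s) q := Int.isCoprime_iff_gcd_eq_one.2 hg
      refine ⟨-q, ?_, ?_, ?_, ?_⟩
      · intro x
        obtain ⟨i, h0, h1, h2⟩ := ex_mod (by omega : (0 : ℤ) < 2 * s) hc x
        rcases lt_or_ge i s with h | h
        · exact Or.inl ⟨i, h0, h, h2⟩
        · refine Or.inr ⟨2 * s - 1 - i, by omega, by omega, ?_⟩
          have : x + (2 * s - 1 - i) * q - -q = (x - i * q) + 2 * s * q := by ring
          rw [this]
          exact dvd_add h2 ⟨q, rfl⟩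
      · intro x i j i0 i1 j0 j1 h h'
        exact uq_mod hc i0 (by omega) j0 (by omega) h h'
      · intro x i j i0 i1 j0 j1 h h'
        have h1 : 2 * s ∣ x - (2 * s - 1 - i) * q := by
          rw [show x - (2 * s - 1 - i) * q = (x + i * q - -q) - 2 * s * q by ring]
          exact dvd_sub h ⟨q, rfl⟩
        have h2 : 2 * s ∣ x - (2 * s - 1 - j) * q := by
          rw [show x - (2 * s - 1 - j) * q = (x + j * q - -q) - 2 * s * q by ring]
          exact dvd_sub h' ⟨q, rfl⟩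
        have := uq_mod hc (by omega) (by omega) (by omega) (by omega) h1 h2
        omega
      · intro x i j i0 i1 j0 j1 h h'
        have h2 : 2 * s ∣ x - (2 * s - 1 - j) * q := by
          rw [show x - (2 * s - 1 - j) * q = (x + j * q - -q) - 2 * s * q by ring]
          exact dvd_sub h' ⟨q, rfl⟩
        have := uq_mod hc i0 (by omega) (by omega) (by omega) h h2
        omega
    · -- `gcd = 2`
      have hq2 : (2 : ℤ) ∣ q := by
        have := Int.gcd_dvd_right (2 * s) q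
        rw [hg] at this
        exact_mod_cast this
      obtain ⟨q', rfl⟩ := hq2
      have hc : IsCoprime s q' := by
        rw [Int.isCoprime_iff_gcd_eq_one]
        rw [Int.gcd_mul_left] at hg
        have : (2 : ℤ).natAbs = 2 := rfl
        rw [this] at hg
        omega
      have key : ∀ y i : ℤ, 2 * s ∣ 2 * y - i * (2 * q') ↔ s ∣ y - i * q' := by
        intro y i
        rw [show 2 * y - i * (2 * q') = 2 * (y - i * q') by ring]
        exact mul_dvd_mul_iff_left (by norm_num)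
      have ev : ∀ x i : ℤ, 2 * s ∣ x - i * (2 * q') → x % 2 = 0 := by
        rintro x i ⟨c, hc⟩
        have : x = 2 * (s * c + i * q') := by linear_combination hc
        omega
      refine ⟨1, ?_, ?_, ?_, ?_⟩
      · intro x
        rcases (show x % 2 = 0 ∨ x % 2 = 1 by omega) with h | h
        · left
          obtain ⟨i, h0, h1, h2⟩ := ex_mod hs hc (x / 2)
          refine ⟨i, h0, h1, ?_⟩
          rw [show x = 2 * (x / 2) by omega, key]
          exact h2
        · right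
          obtain ⟨i, h0, h1, h2⟩ := ex_mod hs hc ((1 - x) / 2)
          refine ⟨i, h0, h1, ?_⟩
          rw [show x + i * (2 * q') - 1 = -(2 * ((1 - x) / 2) - i * (2 * q')) by
            have : 2 * ((1 - x) / 2) = 1 - x := by omega
            linear_combination this, Int.dvd_neg, key]
          exact h2
      · intro x i j i0 i1 j0 j1 h h'
        have hx := ev x i h
        rw [show x = 2 * (x / 2) by omega, key] at h h'
        exact uq_mod hc i0 i1 j0 j1 h h'
      · intro x i j i0 i1 j0 j1 h h'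
        rw [show x + i * (2 * q') - 1 = -((1 - x) - i * (2 * q')) by ring, Int.dvd_neg] at h
        rw [show x + j * (2 * q') - 1 = -((1 - x) - j * (2 * q')) by ring, Int.dvd_neg] at h'
        have hx := ev (1 - x) i h
        rw [show 1 - x = 2 * ((1 - x) / 2) by omega, key] at h h'
        exact uq_mod hc i0 i1 j0 j1 h h'
      · intro x i j i0 i1 j0 j1 h h'
        rw [show x + j * (2 * q') - 1 = -((1 - x) - j * (2 * q')) by ring, Int.dvd_neg] at h'
        have hx := ev x i h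
        have hx' := ev (1 - x) j h'
        omega
  obtain ⟨c, rfl⟩ := h3
  have ev : ∀ i, 3 ∣ i * (3 * c) := fun i => ⟨i * c, by ring⟩
  have ev' : ∀ i, 3 ∣ i * (q * (3 * c)) := fun i => ⟨i * q * c, by ring⟩
  refine ⟨fun n => 3 ∣ n + e ∧ 2 * s ∣ (n + e) / (3 * c),
    fun n => 3 ∣ n - e ∧ 2 * s ∣ (n - e) / (3 * c) - κ, pq_intro ?_ ?_⟩
  · intro n
    rcases three_cases he n with h | h | h
    · rcases hκ1 (n / (3 * c)) with ⟨i, h0, h1, h2⟩ | ⟨i, h0, h1, h2⟩
      · refine ⟨true, e + i * (q * (3 * c)), Or.inr ⟨i, h0, h1, rfl⟩, ?_⟩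
        simp only [if_true]
        rw [show n - (e + i * (q * (3 * c))) + e = n - i * (q * (3 * c)) by ring]
        refine ⟨dvd_sub h (ev' _), ?_⟩
        rw [show n - i * (q * (3 * c)) = n - (i * q) * (3 * c) by ring, sub_mul_ediv' hd]
        exact h2
      · refine ⟨false, e + i * (q * (3 * c)), Or.inr ⟨i, h0, h1, rfl⟩, ?_⟩
        simp only [Bool.false_eq_true, if_false]
        rw [show n + (e + i * (q * (3 * c))) - e = n + i * (q * (3 * c)) by ring]
        refine ⟨dvd_add h (ev' _), ?_⟩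
        rw [show n + i * (q * (3 * c)) = n + (i * q) * (3 * c) by ring, add_mul_ediv' hd]
        exact h2
    · refine ⟨true, (((n + e) / (3 * c)) % (2 * s)) * (3 * c), Or.inl ⟨_,
        Int.emod_nonneg _ (by omega), Int.emod_lt_of_pos _ (by omega), rfl⟩, ?_⟩
      simp only [if_true]
      rw [show n - (n + e) / (3 * c) % (2 * s) * (3 * c) + e =
        (n + e) - (n + e) / (3 * c) % (2 * s) * (3 * c) by ring]
      refine ⟨dvd_sub h (ev _), ?_⟩
      rw [sub_mul_ediv' hd]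
      exact Int.dvd_self_sub_emod
    · refine ⟨false, ((κ - (n - e) / (3 * c)) % (2 * s)) * (3 * c), Or.inl ⟨_,
        Int.emod_nonneg _ (by omega), Int.emod_lt_of_pos _ (by omega), rfl⟩, ?_⟩
      simp only [Bool.false_eq_true, if_false]
      rw [show n + (κ - (n - e) / (3 * c)) % (2 * s) * (3 * c) - e =
        (n - e) + (κ - (n - e) / (3 * c)) % (2 * s) * (3 * c) by ring]
      refine ⟨dvd_add h (ev _), ?_⟩
      rw [add_mul_ediv' hd]
      have := Int.dvd_self_sub_emod (x := κ - (n - e) / (3 * c)) (m := 2 * s)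
      rw [← Int.dvd_neg]
      rwa [show -((n - e) / (3 * c) + (κ - (n - e) / (3 * c)) % (2 * s) - κ) =
        (κ - (n - e) / (3 * c)) - (κ - (n - e) / (3 * c)) % (2 * s) by ring]
  · -- the eight forms
    have c1 : ∀ n i : ℤ, (3 ∣ n - i * (3 * c) + e ∧ 2 * s ∣ (n - i * (3 * c) + e) / (3 * c)) →
        3 ∣ n + e ∧ 2 * s ∣ (n + e) / (3 * c) - i * 1 := by
      rintro n i ⟨h1, h2⟩
      have := ev i
      refine ⟨by omega, ?_⟩
      rwa [show n - i * (3 * c) + e = (n + e) - i * (3 * c) by ring, sub_mul_ediv' hd,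
        ← mul_one i] at h2
    have c2 : ∀ n i : ℤ, (3 ∣ n - (e + i * (q * (3 * c))) + e ∧
        2 * s ∣ (n - (e + i * (q * (3 * c))) + e) / (3 * c)) →
        3 ∣ n ∧ 2 * s ∣ n / (3 * c) - i * q := by
      rintro n i ⟨h1, h2⟩
      have := ev' i
      refine ⟨by omega, ?_⟩
      rwa [show n - (e + i * (q * (3 * c))) + e = n - (i * q) * (3 * c) by ring,
        sub_mul_ediv' hd] at h2
    have c3 : ∀ n i : ℤ, (3 ∣ n + i * (3 * c) - e ∧
        2 * s ∣ (n + i * (3 * c) - e) / (3 * c) - κ) →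
        3 ∣ n - e ∧ 2 * s ∣ (κ - (n - e) / (3 * c)) - i * 1 := by
      rintro n i ⟨h1, h2⟩
      have := ev i
      refine ⟨by omega, ?_⟩
      rw [show n + i * (3 * c) - e = (n - e) + i * (3 * c) by ring, add_mul_ediv' hd] at h2
      rw [← Int.dvd_neg]
      rwa [show -(κ - (n - e) / (3 * c) - i * 1) = (n - e) / (3 * c) + i - κ by ring]
    have c4 : ∀ n i : ℤ, (3 ∣ n + (e + i * (q * (3 * c))) - e ∧
        2 * s ∣ (n + (e + i * (q * (3 * c))) - e) / (3 * c) - κ) →
        3 ∣ n ∧ 2 * s ∣ n / (3 * c) + i * q - κ := by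
      rintro n i ⟨h1, h2⟩
      have := ev' i
      refine ⟨by omega, ?_⟩
      rwa [show n + (e + i * (q * (3 * c))) - e = n + (i * q) * (3 * c) by ring,
        add_mul_ediv' hd] at h2
    rintro n σ τ a b ha hb h h'
    cases σ <;> cases τ <;> simp only [if_true, Bool.false_eq_true, if_false] at h h' <;>
      rcases ha with ⟨i, i0, i1, rfl⟩ | ⟨i, i0, i1, rfl⟩ <;>
      rcases hb with ⟨j, j0, j1, rfl⟩ | ⟨j, j0, j1, rfl⟩
    · refine ⟨rfl, ?_⟩
      rw [uq_mod isCoprime_one_right i0 i1 j0 j1 (c3 _ _ h).2 (c3 _ _ h').2]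
    · exfalso; have := (c3 _ _ h).1; have := (c4 _ _ h').1; omega
    · exfalso; have := (c4 _ _ h).1; have := (c3 _ _ h').1; omega
    · refine ⟨rfl, ?_⟩
      rw [hκ3 _ i j i0 i1 j0 j1 (c4 _ _ h).2 (c4 _ _ h').2]
    · exfalso; have := (c3 _ _ h).1; have := (c1 _ _ h').1; omega
    · exfalso; have := (c3 _ _ h).1; have := (c2 _ _ h').1; omega
    · exfalso; have := (c4 _ _ h).1; have := (c1 _ _ h').1; omega
    · exact (hκ4 _ j i j0 j1 i0 i1 (c2 _ _ h').2 (c4 _ _ h).2).elim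
    · exfalso; have := (c1 _ _ h).1; have := (c3 _ _ h').1; omega
    · exfalso; have := (c1 _ _ h).1; have := (c4 _ _ h').1; omega
    · exfalso; have := (c2 _ _ h).1; have := (c3 _ _ h').1; omega
    · exact (hκ4 _ i j i0 i1 j0 j1 (c2 _ _ h).2 (c4 _ _ h').2).elim
    · refine ⟨rfl, ?_⟩
      rw [uq_mod isCoprime_one_right i0 i1 j0 j1 (c1 _ _ h).2 (c1 _ _ h').2]
    · exfalso; have := (c1 _ _ h).1; have := (c2 _ _ h').1; omega
    · exfalso; have := (c2 _ _ h).1; have := (c1 _ _ h').1; omega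
    · refine ⟨rfl, ?_⟩
      rw [hκ2 _ i j i0 i1 j0 j1 (c2 _ _ h).2 (c2 _ _ h').2]

/-- two indices in `[0, 2 p)` in one class modulo `p` with equal parities of the blocks -/
theorem uq_two {p q : ℤ} (hq : 0 < q) (hc : IsCoprime p q) {i j t t' : ℤ} (hi0 : 0 ≤ i)
    (hi1 : i < 2 * p) (hj0 : 0 ≤ j) (hj1 : j < 2 * p) (h : (i - j) * q = p * (t - t'))
    (hp : 0 < p) (ht : (t / q) % 2 = (t' / q) % 2) : i = j := by
  have h1 : p ∣ i - j := hc.dvd_of_dvd_mul_right ⟨_, h⟩
  obtain ⟨w, hw⟩ := h1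
  have hw1 : w < 2 := by
    by_contra hcon
    have : p * 2 ≤ p * w := mul_le_mul_of_nonneg_left (by omega) (by omega)
    omega
  have hw2 : -2 < w := by
    by_contra hcon
    have : p * w ≤ p * (-2) := mul_le_mul_of_nonneg_left (by omega) (by omega)
    omega
  have h2 : w * q = t - t' := by
    rw [hw, mul_assoc] at h
    exact mul_left_cancel₀ hp.ne' h
  rcases (show w = -1 ∨ w = 0 ∨ w = 1 by omega) with rfl | rfl | rfl
  · exfalso
    rw [show t' = t + 1 * q by linarith, Int.add_mul_ediv_right _ _ hq.ne'] at ht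
    omega
  · omega
  · exfalso
    rw [show t = t' + 1 * q by linarith, Int.add_mul_ediv_right _ _ hq.ne'] at ht
    omega

/-- `s = 2 p`, `3 ∣ d` -/
theorem suff_big (hd : 0 < d) (hde : IsCoprime d e) (hp : 0 < p) (hq : 0 < q)
    (hc : IsCoprime p q) (h3 : 3 ∣ d) : ∃ P Q, PQ (Ts p (2 * p) q d e) P Q := by
  have he := not_three hde h3
  obtain ⟨c, rfl⟩ := h3
  have ev : ∀ i, 3 ∣ i * (3 * c) := fun i => ⟨i * c, by ring⟩
  have ev' : ∀ i, 3 ∣ i * (q * (3 * c)) := fun i => ⟨i * q * c, by ring⟩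
  refine ⟨fun n => 3 ∣ n ∧ ∃ t, n / (3 * c) = p * t ∧ (t / q) % 2 = 0,
    fun n => 3 ∣ n ∧ ∃ t, n / (3 * c) - (p - 1) = p * t ∧ (t / q) % 2 = 1, pq_intro ?_ ?_⟩
  · intro n
    rcases three_cases he n with h | h | h
    · have h1 := Int.emod_add_mul_ediv (n / (3 * c)) p
      have h2 := Int.emod_nonneg (n / (3 * c)) hp.ne'
      have h4 := Int.emod_lt_of_pos (n / (3 * c)) hp
      rcases Int.emod_two_eq_zero_or_one (n / (3 * c) / p / q) with h5 | h5
      · refine ⟨true, ((n / (3 * c)) % p) * (3 * c), Or.inl ⟨_, h2, h4, rfl⟩, ?_⟩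
        simp only [if_true]
        refine ⟨dvd_sub h (ev _), _, ?_, h5⟩
        rw [sub_mul_ediv' hd]
        linear_combination -h1
      · refine ⟨false, (p - 1 - (n / (3 * c)) % p) * (3 * c), Or.inl ⟨_, by omega, by omega, rfl⟩,
          ?_⟩
        simp only [Bool.false_eq_true, if_false]
        refine ⟨dvd_add h (ev _), _, ?_, h5⟩
        rw [add_mul_ediv' hd]
        linear_combination -h1
    · -- `3 ∣ n + e`
      obtain ⟨i, h0, h1, t, ht⟩ := ex_mod hp hc ((p - 1) - (n + e) / (3 * c))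
      have key : ∀ i, (n + (e + i * (q * (3 * c)))) / (3 * c) = (n + e) / (3 * c) + i * q := by
        intro i
        rw [show n + (e + i * (q * (3 * c))) = (n + e) + (i * q) * (3 * c) by ring,
          add_mul_ediv' hd]
      rcases Int.emod_two_eq_zero_or_one (-t / q) with h5 | h5
      · refine ⟨false, e + (i + p) * (q * (3 * c)), Or.inr ⟨_, by omega, by omega, rfl⟩, ?_⟩
        simp only [Bool.false_eq_true, if_false]
        refine ⟨?_, -t + 1 * q, ?_, ?_⟩
        · rw [← add_assoc]; exact dvd_add h (ev' _)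
        · rw [key]; linear_combination -ht
        · rw [Int.add_mul_ediv_right _ _ hq.ne']; omega
      · refine ⟨false, e + i * (q * (3 * c)), Or.inr ⟨_, by omega, by omega, rfl⟩, ?_⟩
        simp only [Bool.false_eq_true, if_false]
        refine ⟨?_, -t, ?_, h5⟩
        · rw [← add_assoc]; exact dvd_add h (ev' _)
        · rw [key]; linear_combination -ht
    · -- `3 ∣ n - e`
      obtain ⟨i, h0, h1, t, ht⟩ := ex_mod hp hc ((n - e) / (3 * c))
      have key : ∀ i, (n - (e + i * (q * (3 * c)))) / (3 * c) = (n - e) / (3 * c) - i * q := by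
        intro i
        rw [show n - (e + i * (q * (3 * c))) = (n - e) - (i * q) * (3 * c) by ring,
          sub_mul_ediv' hd]
      rcases Int.emod_two_eq_zero_or_one (t / q) with h5 | h5
      · refine ⟨true, e + i * (q * (3 * c)), Or.inr ⟨_, by omega, by omega, rfl⟩, ?_⟩
        simp only [if_true]
        refine ⟨?_, t, ?_, h5⟩
        · rw [← sub_sub]; exact dvd_sub h (ev' _)
        · rw [key]; exact ht
      · refine ⟨true, e + (i + p) * (q * (3 * c)), Or.inr ⟨_, by omega, by omega, rfl⟩, ?_⟩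
        simp only [if_true]
        refine ⟨?_, t + (-1) * q, ?_, ?_⟩
        · rw [← sub_sub]; exact dvd_sub h (ev' _)
        · rw [key]; linear_combination ht
        · rw [Int.add_mul_ediv_right _ _ hq.ne']; omega
  · have c1 : ∀ n i : ℤ, (3 ∣ n - i * (3 * c) ∧ ∃ t, (n - i * (3 * c)) / (3 * c) = p * t ∧
        (t / q) % 2 = 0) → 3 ∣ n ∧ ∃ t, n / (3 * c) - i * 1 = p * t ∧ (t / q) % 2 = 0 := by
      rintro n i ⟨h1, t, h2, h4⟩
      have := ev i
      rw [sub_mul_ediv' hd] at h2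
      exact ⟨by omega, t, by linarith, h4⟩
    have c2 : ∀ n i : ℤ, (3 ∣ n - (e + i * (q * (3 * c))) ∧
        ∃ t, (n - (e + i * (q * (3 * c)))) / (3 * c) = p * t ∧ (t / q) % 2 = 0) →
        3 ∣ n - e ∧ ∃ t, (n - e) / (3 * c) - i * q = p * t ∧ (t / q) % 2 = 0 := by
      rintro n i ⟨h1, t, h2, h4⟩
      have := ev' i
      rw [show n - (e + i * (q * (3 * c))) = (n - e) - (i * q) * (3 * c) by ring,
        sub_mul_ediv' hd] at h2
      exact ⟨by omega, t, by linarith, h4⟩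
    have c3 : ∀ n i : ℤ, (3 ∣ n + i * (3 * c) ∧ ∃ t, (n + i * (3 * c)) / (3 * c) - (p - 1) = p * t ∧
        (t / q) % 2 = 1) → 3 ∣ n ∧ ∃ t, n / (3 * c) - (p - 1 - i) * 1 = p * t ∧
        (t / q) % 2 = 1 := by
      rintro n i ⟨h1, t, h2, h4⟩
      have := ev i
      rw [add_mul_ediv' hd] at h2
      exact ⟨by omega, t, by linarith, h4⟩
    have c4 : ∀ n i : ℤ, (3 ∣ n + (e + i * (q * (3 * c))) ∧
        ∃ t, (n + (e + i * (q * (3 * c)))) / (3 * c) - (p - 1) = p * t ∧ (t / q) % 2 = 1) →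
        3 ∣ n + e ∧ ∃ t, (n + e) / (3 * c) + i * q - (p - 1) = p * t ∧ (t / q) % 2 = 1 := by
      rintro n i ⟨h1, t, h2, h4⟩
      have := ev' i
      rw [show n + (e + i * (q * (3 * c))) = (n + e) + (i * q) * (3 * c) by ring,
        add_mul_ediv' hd] at h2
      exact ⟨by omega, t, by linarith, h4⟩
    rintro n σ τ a b ha hb h h'
    cases σ <;> cases τ <;> simp only [if_true, Bool.false_eq_true, if_false] at h h' <;>
      rcases ha with ⟨i, i0, i1, rfl⟩ | ⟨i, i0, i1, rfl⟩ <;>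
      rcases hb with ⟨j, j0, j1, rfl⟩ | ⟨j, j0, j1, rfl⟩
    · refine ⟨rfl, ?_⟩
      obtain ⟨-, t, h1, -⟩ := c3 _ _ h
      obtain ⟨-, t', h2, -⟩ := c3 _ _ h'
      have := uq_mod (p := p) isCoprime_one_right (by omega) (by omega) (by omega) (by omega)
        ⟨t, h1⟩ ⟨t', h2⟩
      rw [show i = j by omega]
    · exfalso; have := (c3 _ _ h).1; have := (c4 _ _ h').1; omega
    · exfalso; have := (c4 _ _ h).1; have := (c3 _ _ h').1; omega
    · refine ⟨rfl, ?_⟩
      obtain ⟨-, t, h1, h4⟩ := c4 _ _ h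
      obtain ⟨-, t', h2, h5⟩ := c4 _ _ h'
      rw [uq_two hq hc i0 i1 j0 j1 (t := t) (t' := t') (by linear_combination h1 - h2) hp
        (by rw [h4, h5])]
    · exfalso
      obtain ⟨-, t, h1, h4⟩ := c3 _ _ h
      obtain ⟨-, t', h2, h5⟩ := c1 _ _ h'
      have h6 := uq_mod (p := p) isCoprime_one_right (by omega) (by omega) (by omega) (by omega)
        ⟨t, h1⟩ ⟨t', h2⟩
      rw [h6] at h1
      have h7 : t = t' := mul_left_cancel₀ hp.ne' (h1.symm.trans h2)
      rw [h7] at h4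
      omega
    · exfalso; have := (c3 _ _ h).1; have := (c2 _ _ h').1; omega
    · exfalso; have := (c4 _ _ h).1; have := (c1 _ _ h').1; omega
    · exfalso; have := (c4 _ _ h).1; have := (c2 _ _ h').1; omega
    · exfalso
      obtain ⟨-, t, h1, h4⟩ := c1 _ _ h
      obtain ⟨-, t', h2, h5⟩ := c3 _ _ h'
      have h6 := uq_mod (p := p) isCoprime_one_right (by omega) (by omega) (by omega) (by omega)
        ⟨t, h1⟩ ⟨t', h2⟩
      rw [← h6] at h2
      have h7 : t = t' := mul_left_cancel₀ hp.ne' (h1.symm.trans h2)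
      rw [h7] at h4
      omega
    · exfalso; have := (c1 _ _ h).1; have := (c4 _ _ h').1; omega
    · exfalso; have := (c2 _ _ h).1; have := (c3 _ _ h').1; omega
    · exfalso; have := (c2 _ _ h).1; have := (c4 _ _ h').1; omega
    · refine ⟨rfl, ?_⟩
      obtain ⟨-, t, h1, -⟩ := c1 _ _ h
      obtain ⟨-, t', h2, -⟩ := c1 _ _ h'
      rw [uq_mod (p := p) isCoprime_one_right i0 i1 j0 j1 ⟨t, h1⟩ ⟨t', h2⟩]
    · exfalso; have := (c1 _ _ h).1; have := (c2 _ _ h').1; omega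
    · exfalso; have := (c2 _ _ h).1; have := (c1 _ _ h').1; omega
    · refine ⟨rfl, ?_⟩
      obtain ⟨-, t, h1, h4⟩ := c2 _ _ h
      obtain ⟨-, t', h2, h5⟩ := c2 _ _ h'
      have h6 : j = i := uq_two hq hc j0 j1 i0 i1 (t := t) (t' := t')
        (by linear_combination h1 - h2) hp (by rw [h4, h5])
      rw [h6]

end MPae024f.Sc
end

section
/-! Ratio `q = 2`: the sufficient conditions for `{i d : i < p} ∪ {e + 2 i d : i < s}`. -/
namespace MPae024f.Sc

theorem ts_range' (K : ℕ) (p s d e : ℤ) (hp : 0 ≤ p) (hs : 0 ≤ s) (hK : (K : ℤ) = p + s) :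
    Set.range (fun i : Fin K => if ((i : ℕ) : ℤ) < p then ((i : ℕ) : ℤ) * d
      else e + (((i : ℕ) : ℤ) - p) * (2 * d)) = Ts p s 2 d e := by
  ext x
  constructor
  · rintro ⟨i, rfl⟩
    have hi := i.2
    by_cases h : ((i : ℕ) : ℤ) < p
    · exact Or.inl ⟨_, by omega, h, by simp only [if_pos h]⟩
    · exact Or.inr ⟨((i : ℕ) : ℤ) - p, by omega, by omega, by simp only [if_neg h]⟩
  · rintro (⟨i, h0, h1, rfl⟩ | ⟨i, h0, h1, rfl⟩)
    · refine ⟨⟨i.toNat, by omega⟩, ?_⟩
      simp only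
      rw [show ((i.toNat : ℕ) : ℤ) = i by omega, if_pos h1]
    · refine ⟨⟨(i + p).toNat, by omega⟩, ?_⟩
      simp only
      rw [show (((i + p).toNat : ℕ) : ℤ) = i + p by omega, if_neg (by omega)]
      ring

theorem coprime_of_dvd {d e c m : ℤ} (hde : IsCoprime d e) (h : m ∣ e - c * d) :
    IsCoprime d m := by
  obtain ⟨j, hj⟩ := h
  obtain ⟨a, b, hab⟩ := hde
  exact ⟨a + b * c, b * j, by linear_combination hab - b * hj⟩

/-- a complete residue system modulo `2 (p + s)` -/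
theorem suff_m4 {p s d e : ℤ} (hp : 2 ≤ p) (hs : 2 ≤ s) (hde : IsCoprime d e) (c : ℤ)
    (hc : c = p ∨ c = p + 1 ∨ c = 2 * p ∨ c = 2 * p + 1) (h : 2 * (p + s) ∣ e - c * d) :
    ∃ P Q, PQ (Ts p s 2 d e) P Q := by
  have hd := coprime_of_dvd hde h
  obtain ⟨K, hK⟩ : ∃ K : ℕ, (K : ℤ) = p + s := ⟨(p + s).toNat, by omega⟩
  obtain ⟨t, ht⟩ : ∃ t : ℤ, t = if c < 2 * p then 2 * p + 2 * s - 1 else 2 * p - 1 := ⟨_, rfl⟩
  rw [← ts_range' K p s d e (by omega) (by omega) hK]
  apply pq_of_cover K (by omega) _ (t * d)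
  have hKK : ((2 * K : ℕ) : ℤ) = 2 * (p + s) := by push_cast; rw [hK]
  rw [hKK]
  intro n
  obtain ⟨m, hm0, hm1, w, hw⟩ : ∃ m : ℤ, 0 ≤ m ∧ m < 2 * (p + s) ∧ ∃ w, n = m * d +
      2 * (p + s) * w := by
    obtain ⟨u, v, huv⟩ := hd
    refine ⟨(n * u) % (2 * (p + s)), Int.emod_nonneg _ (by omega),
      Int.emod_lt_of_pos _ (by omega), (n * u) / (2 * (p + s)) * d + n * v, ?_⟩
    have h1 := Int.emod_add_mul_ediv (n * u) (2 * (p + s))
    linear_combination (-d) * h1 - n * huv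
  obtain ⟨j, hj⟩ := h
  have fin : ∀ (i : ℤ) (hi0 : 0 ≤ i) (hi1 : i < p + s),
      ((∃ z, n - (if i < p then i * d else e + (i - p) * (2 * d)) = 2 * (p + s) * z) ∨
       (∃ z, n + (if i < p then i * d else e + (i - p) * (2 * d)) - t * d = 2 * (p + s) * z)) →
      ∃ i : Fin K, (2 * (p + s) ∣ n - (if ((i : ℕ) : ℤ) < p then ((i : ℕ) : ℤ) * d
        else e + (((i : ℕ) : ℤ) - p) * (2 * d))) ∨
        (2 * (p + s) ∣ n + (if ((i : ℕ) : ℤ) < p then ((i : ℕ) : ℤ) * d
        else e + (((i : ℕ) : ℤ) - p) * (2 * d)) - t * d) := by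
    intro i hi0 hi1 h
    refine ⟨⟨i.toNat, by omega⟩, ?_⟩
    simp only
    rw [show ((i.toNat : ℕ) : ℤ) = i by omega]
    exact h
  have k1 : m < p → _ := fun hm => fin m hm0 (by omega) (Or.inl ⟨w, by
    rw [if_pos (by omega), hw]; ring⟩)
  have k2 : ∀ i, 0 ≤ i → i < s → m = c + 2 * i → _ := fun i h0 h1 hm =>
    fin (i + p) (by omega) (by omega) (Or.inl ⟨w - j, by
      rw [if_neg (by omega), hw, hm]; linear_combination -hj⟩)
  have k3 : t - p < m ∧ m ≤ t → _ := fun hm => fin (t - m) (by omega) (by omega)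
    (Or.inr ⟨w, by rw [if_pos (by omega), hw]; ring⟩)
  have k4 : ∀ i ε, 0 ≤ i → i < s → m = t - (c + 2 * i) + 2 * (p + s) * ε → _ :=
    fun i ε h0 h1 hm => fin (i + p) (by omega) (by omega) (Or.inr ⟨w + j + ε * d, by
      rw [if_neg (by omega), hw, hm]; linear_combination hj⟩)
  by_cases h1 : m < p
  · exact k1 h1
  by_cases h3 : t - p < m ∧ m ≤ t
  · exact k3 h3
  rcases hc with rfl | rfl | rfl | rfl
  · rw [if_pos (by omega)] at ht
    rcases Int.emod_two_eq_zero_or_one (m - c) with h2 | h2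
    · exact k2 ((m - c) / 2) (by omega) (by omega) (by omega)
    · exact k4 ((t - c - m) / 2) 0 (by omega) (by omega) (by omega)
  · rw [if_pos (by omega)] at ht
    rcases Int.emod_two_eq_zero_or_one (m - p) with h2 | h2
    · exact k4 ((t - (p + 1) - m) / 2) 0 (by omega) (by omega) (by omega)
    · exact k2 ((m - (p + 1)) / 2) (by omega) (by omega) (by omega)
  · rw [if_neg (by omega)] at ht
    rcases Int.emod_two_eq_zero_or_one m with h2 | h2
    · exact k2 ((m - 2 * p) / 2) (by omega) (by omega) (by omega)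
    · exact k4 ((t - 2 * p + 2 * (p + s) - m) / 2) 1 (by omega) (by omega) (by omega)
  · rw [if_neg (by omega)] at ht
    rcases Int.emod_two_eq_zero_or_one m with h2 | h2
    · exact k4 ((t - (2 * p + 1) + 2 * (p + s) - m) / 2) 1 (by omega) (by omega) (by omega)
    · exact k2 ((m - (2 * p + 1)) / 2) (by omega) (by omega) (by omega)

/-- if `A ∪ (t - A)` is a disjoint union and tiles by translations, `A` tiles -/
theorem pq_of_block {A U : Set ℤ} {T : ℤ → Prop} (t : ℤ) (h1 : ∀ u ∈ U, u ∈ A ∨ t - u ∈ A)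
    (h2 : ∀ u ∈ A, u ∈ U) (h3 : ∀ u ∈ A, t - u ∈ U) (hx : ∀ u, u ∈ A → t - u ∈ A → False)
    (hT : ∀ n, ∃! u, u ∈ U ∧ T (n - u)) : PQ A T (fun m => T (m - t)) := by
  intro n
  obtain ⟨u, ⟨hu, hu'⟩, huq⟩ := hT n
  have key : ∀ (σ : Bool) (a : ℤ), a ∈ A →
      (if σ = true then T (n - a) else T (n + a - t)) → (if σ = true then a else t - a) = u := by
    intro σ a ha h
    cases σ
    · simp only [Bool.false_eq_true, if_false] at h ⊢
      exact huq _ ⟨h3 a ha, by rwa [show n - (t - a) = n + a - t by ring]⟩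
    · simp only [if_true] at h ⊢
      exact huq _ ⟨h2 a ha, h⟩
  have fin : ∀ (σ : Bool) (a : ℤ), a ∈ A → (if σ = true then a else t - a) = u →
      (∀ (τ : Bool) (b : ℤ), b ∈ A → (if τ = true then b else t - b) = u → τ = σ ∧ b = a) := by
    intro σ a ha h τ b hb h'
    cases σ <;> cases τ <;> simp only [Bool.false_eq_true, if_false, if_true] at h h'
    · exact ⟨rfl, by omega⟩
    · exact (hx b hb (by rwa [show t - b = a by omega])).elim
    · exact (hx a ha (by rwa [show t - a = b by omega])).elim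
    · exact ⟨rfl, by omega⟩
  rcases h1 u hu with h | h
  · refine ⟨(true, u), ⟨h, by simpa using hu'⟩, ?_⟩
    rintro ⟨τ, b⟩ ⟨hb, hb'⟩
    obtain ⟨e1, e2⟩ := fin true u h (by simp) τ b hb (key τ b hb hb')
    simp only [Prod.mk.injEq]
    exact ⟨e1, e2⟩
  · refine ⟨(false, t - u), ⟨h, by
      simp only [Bool.false_eq_true, if_false]
      rwa [show n + (t - u) - t = n - u by ring]⟩, ?_⟩
    rintro ⟨τ, b⟩ ⟨hb, hb'⟩
    obtain ⟨e1, e2⟩ := fin false (t - u) h (by simp) τ b hb (key τ b hb hb')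
    simp only [Prod.mk.injEq]
    exact ⟨e1, e2⟩

theorem block_tile {p d : ℤ} (hp : 0 < p) (hc : IsCoprime p d) {X : Set ℤ} {T : ℤ → Prop}
    (hX : ∀ m, ∃! x, x ∈ X ∧ T (m - x)) (n : ℤ) :
    ∃! u, u ∈ {u | ∃ i x, 0 ≤ i ∧ i < p ∧ x ∈ X ∧ u = i * d + p * x} ∧
      (p ∣ n - u ∧ T ((n - u) / p)) := by
  obtain ⟨i, hi0, hi1, c, hc1⟩ := ex_mod hp hc n
  obtain ⟨x, ⟨hx, hx'⟩, hxu⟩ := hX c
  refine ⟨i * d + p * x, ⟨⟨i, x, hi0, hi1, hx, rfl⟩, ?_, ?_⟩, ?_⟩
  · exact ⟨c - x, by linear_combination hc1⟩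
  · rwa [show n - (i * d + p * x) = p * (c - x) by linear_combination hc1,
      Int.mul_ediv_cancel_left _ hp.ne']
  · rintro u ⟨⟨i', x', hi0', hi1', hx1, rfl⟩, ⟨c', hc'⟩, hT⟩
    have hii : i' = i := uq_mod hc hi0' hi1' hi0 hi1 (x := n)
      ⟨c' + x', by linear_combination hc'⟩ ⟨c, hc1⟩
    subst hii
    rw [hc', Int.mul_ediv_cancel_left _ hp.ne'] at hT
    have hcc : c' = c - x' := by
      apply mul_left_cancel₀ hp.ne'
      linear_combination hc1 - hc'
    rw [hcc] at hT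
    rw [hxu x' ⟨hx1, hT⟩]

theorem sub_ediv {f : ℤ} (hf : f ≠ 0) (m k : ℤ) : (m - k * f) / f = m / f - k := by
  rw [show m - k * f = m + (-k) * f by ring, Int.add_mul_ediv_right _ _ hf]; ring

theorem tile3 {f : ℤ} (hf : f ≠ 0) (m : ℤ) :
    ∃! x, x ∈ ({0, f, 2 * f} : Set ℤ) ∧ ((m - x) / f) % 3 = 0 := by
  have e0 : (m - 0) / f = m / f := by rw [sub_zero]
  have e1 : (m - f) / f = m / f - 1 := by
    have := sub_ediv hf m 1
    rwa [one_mul] at this
  have e2 := sub_ediv hf m 2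
  rcases (show (m / f) % 3 = 0 ∨ (m / f) % 3 = 1 ∨ (m / f) % 3 = 2 by omega) with h | h | h
  · refine ⟨0, ⟨by simp, by rw [e0]; omega⟩, ?_⟩
    rintro x ⟨(rfl | rfl | rfl), hx'⟩
    · rfl
    · rw [e1] at hx'; omega
    · rw [e2] at hx'; omega
  · refine ⟨f, ⟨by simp, by rw [e1]; omega⟩, ?_⟩
    rintro x ⟨(rfl | rfl | rfl), hx'⟩
    · rw [e0] at hx'; omega
    · rfl
    · rw [e2] at hx'; omega
  · refine ⟨2 * f, ⟨by simp, by rw [e2]; omega⟩, ?_⟩
    rintro x ⟨(rfl | rfl | rfl), hx'⟩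
    · rw [e0] at hx'; omega
    · rw [e1] at hx'; omega
    · rfl

theorem tile4 {a b : ℤ} (ha : a % 2 = 1) (hb : b ≠ 0) (m : ℤ) :
    ∃! x, x ∈ ({0, a, 2 * b, a + 2 * b} : Set ℤ) ∧ (2 ∣ m - x ∧ ((m - x) / 2 / b) % 2 = 0) := by
  have e : ∀ n : ℤ, (n - 2 * b) / 2 / b = n / 2 / b - 1 := by
    intro n
    rw [show n - 2 * b = n + (-b) * 2 by ring, Int.add_mul_ediv_right _ _ (by norm_num)]
    have := sub_ediv hb (n / 2) 1
    rwa [one_mul, ← sub_eq_add_neg] at *
  rcases (show m % 2 = 0 ∨ m % 2 = 1 by omega) with h | h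
  · rcases (show (m / 2 / b) % 2 = 0 ∨ (m / 2 / b) % 2 = 1 by omega) with h' | h'
    · refine ⟨0, ⟨by simp, by omega, by rw [sub_zero]; exact h'⟩, ?_⟩
      rintro x ⟨(rfl | rfl | rfl | rfl), hx1, hx2⟩
      · rfl
      · omega
      · rw [e] at hx2; omega
      · omega
    · refine ⟨2 * b, ⟨by simp, by omega, by rw [e]; omega⟩, ?_⟩
      rintro x ⟨(rfl | rfl | rfl | rfl), hx1, hx2⟩
      · rw [sub_zero] at hx2; omega
      · omega
      · rfl
      · omega
  · rcases (show ((m - a) / 2 / b) % 2 = 0 ∨ ((m - a) / 2 / b) % 2 = 1 by omega) with h' | h'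
    · refine ⟨a, ⟨by simp, by omega, h'⟩, ?_⟩
      rintro x ⟨(rfl | rfl | rfl | rfl), hx1, hx2⟩
      · omega
      · rfl
      · omega
      · rw [show m - (a + 2 * b) = m - a - 2 * b by ring, e] at hx2; omega
    · refine ⟨a + 2 * b, ⟨by simp, by omega, by
        rw [show m - (a + 2 * b) = m - a - 2 * b by ring, e]; omega⟩, ?_⟩
      rintro x ⟨(rfl | rfl | rfl | rfl), hx1, hx2⟩
      · omega
      · omega
      · omega
      · rfl

theorem zero_of_mul {p x : ℤ} (hp : 0 < p) (h : p * x = 0) : x = 0 := by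
  rcases mul_eq_zero.1 h with h | h
  · omega
  · exact h

/-- `p = 2 s`, `e = p f + ε d` -/
theorem suff_block3 {s d f ε : ℤ} (hs : 1 ≤ s) (hc : IsCoprime (2 * s) d) (hf : f ≠ 0)
    (hε : ε = 0 ∨ ε = 1) : ∃ P Q, PQ (Ts (2 * s) s 2 d (2 * s * f + ε * d)) P Q := by
  have hp : 0 < 2 * s := by omega
  refine ⟨_, _, pq_of_block (U := {u | ∃ i x, 0 ≤ i ∧ i < 2 * s ∧ x ∈ ({0, f, 2 * f} : Set ℤ) ∧
    u = i * d + 2 * s * x}) (T := fun n => 2 * s ∣ n ∧ (n / (2 * s) / f) % 3 = 0)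
    (2 * (2 * s * f) + (2 * s - 1) * d) ?_ ?_ ?_ ?_ 
    (block_tile hp hc (X := {0, f, 2 * f}) (T := fun m => (m / f) % 3 = 0) (tile3 hf))⟩
  · rintro u ⟨i, x, h0, h1, (rfl | rfl | rfl), rfl⟩
    · exact Or.inl (Or.inl ⟨i, h0, h1, by ring⟩)
    · rcases (show (i - ε) % 2 = 0 ∨ (i - ε) % 2 = 1 by omega) with h | h
      · obtain ⟨j, hj⟩ : ∃ j, i = 2 * j + ε := ⟨(i - ε) / 2, by omega⟩
        exact Or.inl (Or.inr ⟨j, by omega, by omega, by rw [hj]; ring⟩)
      · obtain ⟨j, hj⟩ : ∃ j, i = 2 * s - 1 - (2 * j + ε) :=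
          ⟨(2 * s - 1 - i - ε) / 2, by omega⟩
        exact Or.inr (Or.inr ⟨j, by omega, by omega, by rw [hj]; ring⟩)
    · exact Or.inr (Or.inl ⟨2 * s - 1 - i, by omega, by omega, by ring⟩)
  · rintro u (⟨i, h0, h1, rfl⟩ | ⟨j, h0, h1, rfl⟩)
    · exact ⟨i, 0, h0, h1, by simp, by ring⟩
    · exact ⟨2 * j + ε, f, by omega, by omega, by simp, by ring⟩
  · rintro u (⟨i, h0, h1, rfl⟩ | ⟨j, h0, h1, rfl⟩)
    · exact ⟨2 * s - 1 - i, 2 * f, by omega, by omega, by simp, by ring⟩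
    · exact ⟨2 * s - 1 - (2 * j + ε), f, by omega, by omega, by simp, by ring⟩
  · -- the two sets are disjoint
    have key : ∀ a y : ℤ, 0 < a → a < 4 * s → a * d = 2 * s * (d + y) → y = 0 := by
      intro a y h0 h1 h2
      have h3 : 2 * s ∣ a := hc.dvd_of_dvd_mul_right ⟨d + y, by linear_combination h2⟩
      obtain ⟨c, hc'⟩ := h3
      have hc1 : c = 1 := by
        rcases lt_trichotomy c 1 with h | h | h
        · have : 2 * s * c ≤ 2 * s * 0 := mul_le_mul_of_nonneg_left (by omega) (by omega)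
          omega
        · exact h
        · have : 2 * s * 2 ≤ 2 * s * c := mul_le_mul_of_nonneg_left (by omega) (by omega)
          omega
      subst hc1
      apply zero_of_mul hp
      linear_combination d * hc' - h2
    rintro u (⟨i, h0, h1, rfl⟩ | ⟨i, h0, h1, rfl⟩) (⟨j, k0, k1, hj⟩ | ⟨j, k0, k1, hj⟩)
    · have := key (i + j + 1) (2 * f) (by omega) (by omega) (by linear_combination -hj)
      omega
    · exact hf (key (i + (2 * j + ε) + 1) f (by omega) (by omega) (by linear_combination -hj))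
    · exact hf (key (2 * i + ε + j + 1) f (by omega) (by omega) (by linear_combination -hj))
    · have := key (2 * i + ε + (2 * j + ε) + 1) 0 (by omega) (by omega)
        (by linear_combination -hj)
      have h5 : (2 * i + ε + (2 * j + ε) + 1 - 2 * s) * d = 0 := by linear_combination -hj
      rcases mul_eq_zero.1 h5 with h6 | h6
      · omega
      · subst h6
        obtain ⟨a, b, hab⟩ := hc
        have h7 : (2 * s) ∣ 1 := ⟨a, by linear_combination -hab⟩
        have := Int.le_of_dvd (by norm_num) h7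
        omega

/-- `p = s`, `e = p f + ε d` -/
theorem suff_block4 {p d f ε : ℤ} (hp : 2 ≤ p) (hc : IsCoprime p d) (hf : f ≠ 0)
    (hfd : f + d ≠ 0) (hd : d % 2 = 1) (hε : ε = 0 ∨ ε = 1) :
    ∃ P Q, PQ (Ts p p 2 d (p * f + ε * d)) P Q := by
  -- the four columns
  have ht : ∃ T : ℤ → Prop, ∀ m, ∃! x, x ∈ ({0, f, f + d, 2 * f + d} : Set ℤ) ∧ T (m - x) := by
    rcases (show f % 2 = 0 ∨ f % 2 = 1 by omega) with h | h
    · obtain ⟨b, rfl⟩ : ∃ b, f = 2 * b := ⟨f / 2, by omega⟩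
      refine ⟨fun n => 2 ∣ n ∧ (n / 2 / b) % 2 = 0, fun m => ?_⟩
      have := tile4 (a := 2 * b + d) (b := b) (by omega) (by omega) m
      rwa [show ({0, 2 * b + d, 2 * b, 2 * b + d + 2 * b} : Set ℤ) =
        {0, 2 * b, 2 * b + d, 2 * (2 * b) + d} by
        ext x; simp only [Set.mem_insert_iff, Set.mem_singleton_iff]
        constructor
        · rintro (h | h | h | h)
          · exact Or.inl h
          · exact Or.inr (Or.inr (Or.inl h))
          · exact Or.inr (Or.inl h)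
          · exact Or.inr (Or.inr (Or.inr (by omega)))
        · rintro (h | h | h | h)
          · exact Or.inl h
          · exact Or.inr (Or.inr (Or.inl h))
          · exact Or.inr (Or.inl h)
          · exact Or.inr (Or.inr (Or.inr (by omega)))] at this
    · obtain ⟨b, hb⟩ : ∃ b, f + d = 2 * b := ⟨(f + d) / 2, by omega⟩
      refine ⟨fun n => 2 ∣ n ∧ (n / 2 / b) % 2 = 0, fun m => ?_⟩
      have := tile4 (a := f) (b := b) (by omega) (by omega) m
      rwa [show ({0, f, 2 * b, f + 2 * b} : Set ℤ) =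
        {0, f, f + d, 2 * f + d} by
        rw [← hb, show f + (f + d) = 2 * f + d by ring]] at this
  obtain ⟨T, hT⟩ := ht
  refine ⟨_, _, pq_of_block (U := {u | ∃ i x, 0 ≤ i ∧ i < p ∧
    x ∈ ({0, f, f + d, 2 * f + d} : Set ℤ) ∧ u = i * d + p * x})
    (T := fun n => p ∣ n ∧ T (n / p))
    (2 * (p * f) + (2 * p - 1) * d) ?_ ?_ ?_ ?_ (block_tile (by omega) hc hT)⟩
  · rintro u ⟨i, x, h0, h1, (rfl | rfl | rfl | rfl), rfl⟩
    · exact Or.inl (Or.inl ⟨i, h0, h1, by ring⟩)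
    · rcases (show (i - ε) % 2 = 0 ∨ (i - ε) % 2 = 1 by omega) with h | h
      · obtain ⟨j, hj⟩ : ∃ j, i = 2 * j + ε := ⟨(i - ε) / 2, by omega⟩
        exact Or.inl (Or.inr ⟨j, by omega, by omega, by rw [hj]; ring⟩)
      · obtain ⟨j, hj⟩ : ∃ j, i = 2 * p - 1 - (2 * j + ε) :=
          ⟨(2 * p - 1 - i - ε) / 2, by omega⟩
        exact Or.inr (Or.inr ⟨j, by omega, by omega, by rw [hj]; ring⟩)
    · rcases (show (p + i - ε) % 2 = 0 ∨ (p + i - ε) % 2 = 1 by omega) with h | h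
      · obtain ⟨j, hj⟩ : ∃ j, i = 2 * j + ε - p := ⟨(p + i - ε) / 2, by omega⟩
        exact Or.inl (Or.inr ⟨j, by omega, by omega, by rw [hj]; ring⟩)
      · obtain ⟨j, hj⟩ : ∃ j, i = p - 1 - (2 * j + ε) :=
          ⟨(p - 1 - i - ε) / 2, by omega⟩
        exact Or.inr (Or.inr ⟨j, by omega, by omega, by rw [hj]; ring⟩)
    · exact Or.inr (Or.inl ⟨p - 1 - i, by omega, by omega, by ring⟩)
  · rintro u (⟨i, h0, h1, rfl⟩ | ⟨j, h0, h1, rfl⟩)
    · exact ⟨i, 0, h0, h1, by simp, by ring⟩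
    · rcases lt_or_ge (2 * j + ε) p with h | h
      · exact ⟨2 * j + ε, f, by omega, by omega, by simp, by ring⟩
      · exact ⟨2 * j + ε - p, f + d, by omega, by omega, by simp, by ring⟩
  · rintro u (⟨i, h0, h1, rfl⟩ | ⟨j, h0, h1, rfl⟩)
    · exact ⟨p - 1 - i, 2 * f + d, by omega, by omega, by simp, by ring⟩
    · rcases lt_or_ge (2 * p - 1 - (2 * j + ε)) p with h | h
      · exact ⟨2 * p - 1 - (2 * j + ε), f, by omega, by omega, by simp, by ring⟩
      · exact ⟨p - 1 - (2 * j + ε), f + d, by omega, by omega, by simp, by ring⟩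
  · -- the two sets are disjoint
    have key : ∀ a y : ℤ, 0 < a → a < 3 * p → a * d = p * (2 * d + y) →
        (y + d = 0 ∨ y = 0) := by
      intro a y h0 h1 h2
      have h3 : p ∣ a := hc.dvd_of_dvd_mul_right ⟨2 * d + y, by linear_combination h2⟩
      obtain ⟨c, hc'⟩ := h3
      have hc1 : c = 1 ∨ c = 2 := by
        rcases lt_trichotomy c 1 with h | h | h
        · have : p * c ≤ p * 0 := mul_le_mul_of_nonneg_left (by omega) (by omega)
          omega
        · exact Or.inl h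
        · rcases lt_trichotomy c 2 with h' | h' | h'
          · omega
          · exact Or.inr h'
          · have : p * 3 ≤ p * c := mul_le_mul_of_nonneg_left (by omega) (by omega)
            omega
      rcases hc1 with rfl | rfl
      · left
        apply zero_of_mul (p := p) (by omega)
        linear_combination d * hc' - h2
      · right
        apply zero_of_mul (p := p) (by omega)
        linear_combination d * hc' - h2
    rintro u (⟨i, h0, h1, rfl⟩ | ⟨i, h0, h1, rfl⟩) (⟨j, k0, k1, hj⟩ | ⟨j, k0, k1, hj⟩)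
    · have := key (i + j + 1) (2 * f) (by omega) (by omega) (by linear_combination -hj)
      omega
    · have := key (i + (2 * j + ε) + 1) f (by omega) (by omega) (by linear_combination -hj)
      tauto
    · have := key (2 * i + ε + j + 1) f (by omega) (by omega) (by linear_combination -hj)
      tauto
    · have h5 : (2 * i + ε + (2 * j + ε) + 1 - 2 * p) * d = 0 := by linear_combination -hj
      rcases mul_eq_zero.1 h5 with h6 | h6
      · omega
      · omega

/-- the condition for ratio two -/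
def Cond (p s d e : ℤ) : Prop :=
  (∃ c, (c = p ∨ c = p + 1 ∨ c = 2 * p ∨ c = 2 * p + 1) ∧ 2 * (p + s) ∣ e - c * d) ∨
  (p = 2 * s ∧ (3 ∣ d ∨ p ∣ e ∨ p ∣ e - d)) ∨
  (p = s ∧ ((¬ 2 ∣ p ∧ 2 ∣ d) ∨ p ∣ e ∨ p ∣ e - d)) ∨
  (s = 2 * p ∧ ¬ 2 ∣ p ∧ 3 ∣ d)

theorem coprime_two {p : ℤ} (h : p % 2 = 1) : IsCoprime p 2 :=
  ⟨1, -(p / 2), by omega⟩

/-- ratio two: sufficiency -/
theorem suffQ2 {p s d e : ℤ} (hp : 2 ≤ p) (hs : 2 ≤ s) (hd : 0 < d) (hde : IsCoprime d e)
    (hdj : ∀ i j, 0 ≤ i → i < p → 0 ≤ j → j < s → i * d ≠ e + j * (2 * d))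
    (h : Cond p s d e) : ∃ P Q, PQ (Ts p s 2 d e) P Q := by
  -- `p ∣ e - ε d` gives `e = p f + ε d` with `f ≠ 0`, `IsCoprime p d`
  have key : ∀ ε, (ε = 0 ∨ ε = 1) → p ∣ e - ε * d →
      ∃ f, e = p * f + ε * d ∧ f ≠ 0 ∧ IsCoprime p d := by
    rintro ε hε hdv
    have hc := (coprime_of_dvd hde hdv).symm
    obtain ⟨f, hf⟩ := hdv
    refine ⟨f, by omega, ?_, hc⟩
    rintro rfl
    exact hdj ε 0 (by omega) (by omega) le_rfl (by omega) (by linear_combination -hf)
  rcases h with ⟨c, hc, h⟩ | ⟨rfl, h⟩ | ⟨rfl, h⟩ | ⟨rfl, h1, h⟩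
  · exact suff_m4 hp hs hde c hc h
  · have k2 : ∀ ε, (ε = 0 ∨ ε = 1) → 2 * s ∣ e - ε * d → ∃ P Q, PQ (Ts (2 * s) s 2 d e) P Q := by
      intro ε hε hdv
      obtain ⟨f, rfl, hf, hc⟩ := key ε hε hdv
      exact suff_block3 (by omega) hc hf hε
    rcases h with h | h | h
    · refine suff_small hd hde (by omega) ?_ h
      exact Nat.le_of_dvd (by norm_num) (Int.gcd_dvd_natAbs_right _ _)
    · exact k2 0 (Or.inl rfl) (by simpa using h)
    · exact k2 1 (Or.inr rfl) (by simpa using h)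
  · have k2 : ∀ ε, (ε = 0 ∨ ε = 1) → p ∣ e - ε * d → ∃ P Q, PQ (Ts p p 2 d e) P Q := by
      intro ε hε hdv
      obtain ⟨f, hf1, hf, hc⟩ := key ε hε hdv
      rcases Int.emod_two_eq_zero_or_one d with h2 | h2
      · refine suff_eq hd hde (by omega) (coprime_two ?_) (by omega)
        by_contra hcon
        obtain ⟨a, b, hab⟩ := hc
        obtain ⟨x, hx⟩ : ∃ x, p = 2 * x := ⟨p / 2, by omega⟩
        obtain ⟨y, hy⟩ : ∃ y, d = 2 * y := ⟨d / 2, by omega⟩
        have : 1 = 2 * (a * x + b * y) := by rw [← hab, hx, hy]; ring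
        omega
      · rw [hf1]
        refine suff_block4 hp hc hf ?_ h2 hε
        intro h3
        have h4 : f = -d := by omega
        -- `e = (ε - p) d`, so a cell of the comb is `0` or `d`
        rcases Int.emod_two_eq_zero_or_one (p - ε) with h5 | h5
        · exact hdj 0 ((p - ε) / 2) le_rfl (by omega) (by omega) (by omega) (by
            rw [hf1, h4, show (p - ε) / 2 * (2 * d) = 2 * ((p - ε) / 2) * d by ring,
              show 2 * ((p - ε) / 2) = p - ε by omega]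
            ring)
        · exact hdj 1 ((p - ε + 1) / 2) (by omega) (by omega) (by omega) (by omega) (by
            rw [hf1, h4, show (p - ε + 1) / 2 * (2 * d) = 2 * ((p - ε + 1) / 2) * d by ring,
              show 2 * ((p - ε + 1) / 2) = p - ε + 1 by omega]
            ring)
    rcases h with ⟨h1, h⟩ | h | h
    · exact suff_eq hd hde (by omega) (coprime_two (by omega)) h
    · exact k2 0 (Or.inl rfl) (by simpa using h)
    · exact k2 1 (Or.inr rfl) (by simpa using h)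
  · exact suff_big hd hde (by omega) (by norm_num) (coprime_two (by omega)) h

end MPae024f.Sc
end

section
/-! The case `p = 2`, `s ≥ 3`: necessary conditions. -/
namespace MPae024f.Sc

variable {P Q : ℤ → Prop} {s d e : ℤ}

/-- two adjacent long progressions start at `b` and `b + d` -/
def Bk (P Q : ℤ → Prop) (s d e b : ℤ) : Prop := L P Q 2 s d e b ∧ L P Q 2 s d e (b + d)

theorem s_of_p {x y : ℤ} (h : P x) (hxy : x = y) : S P Q 2 d y := Or.inl (hxy ▸ h)

theorem s_of_q {x y : ℤ} (h : Q x) (hxy : x = y + d) : S P Q 2 d y :=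
  Or.inr (by rw [show y + (2 - 1) * d = y + d by ring, ← hxy]; exact h)

theorem l_of_p {x y : ℤ} (h : P x) (hxy : x = y - e) : L P Q 2 s d e y := Or.inl (hxy ▸ h)

theorem l_of_q {x y : ℤ} (h : Q x) (hxy : x = y + e + (s - 1) * (2 * d)) : L P Q 2 s d e y :=
  Or.inr (hxy ▸ h)

theorem cov (h : Til 2 s 2 d e P Q) (n : ℤ) : S P Q 2 d n ∨ S P Q 2 d (n - d) ∨
    ∃ j, 0 ≤ j ∧ j < s ∧ L P Q 2 s d e (n - j * (2 * d)) := by
  rcases h.ex n with ⟨x, i, h0, h1, hn, hx⟩ | ⟨x, i, h0, h1, hn, hx⟩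
  · rcases (show i = 0 ∨ i = 1 by omega) with rfl | rfl
    · exact Or.inl (tr hx (by rw [hn]; ring))
    · exact Or.inr (Or.inl (tr hx (by rw [hn]; ring)))
  · exact Or.inr (Or.inr ⟨i, h0, h1, tr hx (by rw [hn]; ring)⟩)

theorem ss2 (h : Til 2 s 2 d e P Q) {x y : ℤ} (hx : S P Q 2 d x) (hy : S P Q 2 d y)
    (hxy : y = x + d) : False :=
  h.ss x y 1 (by norm_num) (by norm_num) (by rw [hxy]; ring) hx hy

theorem sl0 (h : Til 2 s 2 d e P Q) {x y : ℤ} (j : ℤ) (h0 : 0 ≤ j) (h1 : j < s)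
    (hx : S P Q 2 d x) (hy : L P Q 2 s d e y) (hxy : x = y + j * (2 * d)) : False :=
  h.sl x y 0 j (by norm_num) (by norm_num) h0 h1 (by rw [hxy]; ring) hx hy

theorem sl1 (h : Til 2 s 2 d e P Q) {x y : ℤ} (j : ℤ) (h0 : 0 ≤ j) (h1 : j < s)
    (hx : S P Q 2 d x) (hy : L P Q 2 s d e y) (hxy : x + d = y + j * (2 * d)) : False :=
  h.sl x y 1 j (by norm_num) (by norm_num) h0 h1 (by rw [← hxy]; ring) hx hy

theorem ll2 (h : Til 2 s 2 d e P Q) {x y : ℤ} (j : ℤ) (h0 : 0 < j) (h1 : j < s)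
    (hx : L P Q 2 s d e x) (hy : L P Q 2 s d e y) (hxy : y = x + j * (2 * d)) : False :=
  h.ll x y j h0 h1 hxy hx hy

theorem pp2 (h : Til 2 s 2 d e P Q) {x y : ℤ} (j : ℤ) (h0 : 0 < j) (h1 : j < s)
    (hx : P x) (hy : P y) (hxy : y = x + j * (2 * d)) : False := h.pp x y j h0 h1 hxy hx hy

theorem qq2 (h : Til 2 s 2 d e P Q) {x y : ℤ} (j : ℤ) (h0 : 0 < j) (h1 : j < s)
    (hx : Q x) (hy : Q y) (hxy : y = x + j * (2 * d)) : False := h.qq x y j h0 h1 hxy hx hy

theorem ps2 (h : Til 2 s 2 d e P Q) {x y : ℤ} (hx : P x) (hy : Q y) (hxy : y = x + d) : False :=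
  h.ps x y (by rw [hxy]; ring) hx hy

/-- after a short interval: a short interval or a block of long progressions -/
theorem lemA (h : Til 2 s 2 d e P Q) (hs : 3 ≤ s) {x y : ℤ} (hx : S P Q 2 d x)
    (hy : y = x + 2 * d) : S P Q 2 d y ∨ Bk P Q s d e y := by
  subst hy
  rcases cov h (x + 2 * d) with h1 | h1 | ⟨j, h0, h1, h2⟩
  · exact Or.inl h1
  · exact absurd h1 fun h1 => ss2 h hx h1 (by ring)
  rcases (show j = 0 ∨ 1 ≤ j by omega) with rfl | hj
  swap
  · exact absurd h2 fun h2 => sl0 h (j - 1) (by omega) (by omega) hx h2 (by ring)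
  have h3 : L P Q 2 s d e (x + 2 * d) := tr h2 (by ring)
  rcases cov h (x + 3 * d) with h4 | h4 | ⟨j, h4, h5, h6⟩
  · exact absurd h4 fun h4 => sl1 h 1 (by norm_num) (by omega) h4 h3 (by ring)
  · exact Or.inl (tr h4 (by ring))
  rcases (show j = 0 ∨ 1 ≤ j by omega) with rfl | hj
  · exact Or.inr ⟨h3, tr h6 (by ring)⟩
  · exact absurd h6 fun h6 => sl1 h (j - 1) (by omega) (by omega) hx h6 (by ring)

/-- after a block: a short interval or another block -/
theorem lemB (h : Til 2 s 2 d e P Q) (hs : 3 ≤ s) {b y : ℤ} (hb : Bk P Q s d e b)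
    (hy : y = b + s * (2 * d)) : S P Q 2 d y ∨ Bk P Q s d e y := by
  subst hy
  rcases cov h (b + s * (2 * d)) with h1 | h1 | ⟨j, h0, h1, h2⟩
  · exact Or.inl h1
  · exact absurd h1 fun h1 => sl0 h (s - 1) (by omega) (by omega) h1 hb.2 (by ring)
  rcases (show j = 0 ∨ 1 ≤ j by omega) with rfl | hj
  swap
  · exact absurd h2 fun h2 => ll2 h (s - j) (by omega) (by omega) hb.1 h2 (by ring)
  have h3 : L P Q 2 s d e (b + s * (2 * d)) := tr h2 (by ring)
  rcases cov h (b + s * (2 * d) + d) with h4 | h4 | ⟨j, h4, h5, h6⟩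
  · exact absurd h4 fun h4 => sl1 h 1 (by norm_num) (by omega) h4 h3 (by ring)
  · exact Or.inl (tr h4 (by ring))
  rcases (show j = 0 ∨ 1 ≤ j by omega) with rfl | hj
  · exact Or.inr ⟨h3, tr h6 (by ring)⟩
  · exact absurd h6 fun h6 => ll2 h (s - j) (by omega) (by omega) hb.2 h6 (by ring)

/-- the type of a short interval changes at the next one -/
theorem typ (h : Til 2 s 2 d e P Q) (hs : 3 ≤ s) {x y : ℤ} (hx : S P Q 2 d x)
    (hy : S P Q 2 d y) (hxy : y = x + 2 * d) : (P x ∧ Q (y + d)) ∨ (Q (x + d) ∧ P y) := by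
  rcases hx with hx | hx <;> rcases hy with hy | hy
  · exact absurd hy fun hy => pp2 h 1 (by norm_num) (by omega) hx hy (by rw [hxy]; ring)
  · exact Or.inl ⟨hx, tr hy (by ring)⟩
  · exact Or.inr ⟨tr hx (by ring), hy⟩
  · exact absurd hy fun hy => qq2 h 1 (by norm_num) (by omega) hx hy (by rw [hxy]; ring)

theorem lemC (h : Til 2 s 2 d e P Q) (hs : 3 ≤ s) {x y z : ℤ} (hx : S P Q 2 d x)
    (hy : S P Q 2 d y) (hz : S P Q 2 d z) (hxy : y = x + 2 * d) (hyz : z = x + 4 * d) :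
    False := by
  rcases typ h hs hx hy hxy with ⟨h1, h2⟩ | ⟨h1, h2⟩ <;>
    rcases typ h hs hy hz (by rw [hxy, hyz]; ring) with ⟨h3, h4⟩ | ⟨h3, h4⟩
  · exact qq2 h 1 (by norm_num) (by omega) h2 h4 (by rw [hxy, hyz]; ring)
  · exact pp2 h 2 (by norm_num) (by omega) h1 h4 (by rw [hyz]; ring)
  · exact qq2 h 2 (by norm_num) (by omega) h1 h4 (by rw [hyz]; ring)
  · exact pp2 h 1 (by norm_num) (by omega) h2 h4 (by rw [hxy, hyz]; ring)

theorem lemTypes (h : Til 2 s 2 d e P Q) {b : ℤ} (hb : Bk P Q s d e b) :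
    (P (b - e) ∧ Q (b + d + e + (s - 1) * (2 * d))) ∨
      (Q (b + e + (s - 1) * (2 * d)) ∧ P (b + d - e)) := by
  obtain ⟨h1 | h1, h2 | h2⟩ := hb
  · exact absurd h2 fun h2 => ss2 h (s_of_p h1 rfl) (s_of_p h2 rfl) (by ring)
  · exact Or.inl ⟨h1, h2⟩
  · exact Or.inr ⟨h1, h2⟩
  · exact absurd h2 fun h2 => ss2 h (s_of_q (y := b + e + (s - 1) * (2 * d) - d) h1 (by ring))
      (s_of_q (y := b + e + (s - 1) * (2 * d)) h2 (by ring)) (by ring)

/-- a block starts two or four steps after a short interval -/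
theorem bk_of_s (h : Til 2 s 2 d e P Q) (hs : 3 ≤ s) {x : ℤ} (hx : S P Q 2 d x) :
    Bk P Q s d e (x + 2 * d) ∨ (S P Q 2 d (x + 2 * d) ∧ Bk P Q s d e (x + 4 * d)) := by
  rcases lemA h hs hx rfl with h1 | h1
  · rcases lemA h hs h1 (y := x + 4 * d) (by ring) with h2 | h2
    · exact absurd h2 fun h2 => lemC h hs hx h1 h2 rfl rfl
    · exact Or.inr ⟨h1, h2⟩
  · exact Or.inl h1

theorem E1 (h : Til 2 s 2 d e P Q) (hs : 3 ≤ s) {x y : ℤ} (hx : S P Q 2 d x)
    (hy : S P Q 2 d y) (hxy : y = x + s * (2 * d)) : False := by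
  rcases bk_of_s h hs hx with h1 | ⟨-, h1⟩
  · exact sl0 h (s - 1) (by omega) (by omega) hy h1.1 (by rw [hxy]; ring)
  · exact sl0 h (s - 2) (by omega) (by omega) hy h1.1 (by rw [hxy]; ring)

theorem E2 (h : Til 2 s 2 d e P Q) (hs : 3 ≤ s) {x y : ℤ} (hx : S P Q 2 d x)
    (hy : S P Q 2 d y) (hxy : y = x + s * (2 * d) + d) : False := by
  rcases bk_of_s h hs hx with h1 | ⟨-, h1⟩
  · exact sl0 h (s - 1) (by omega) (by omega) hy h1.2 (by rw [hxy]; ring)
  · exact sl0 h (s - 2) (by omega) (by omega) hy h1.2 (by rw [hxy]; ring)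

theorem E3 (h : Til 2 s 2 d e P Q) (hs : 3 ≤ s) {x y : ℤ} (hx : S P Q 2 d x)
    (hy : S P Q 2 d y) (hxy : y = x + s * (2 * d) + 3 * d) : False := by
  rcases bk_of_s h hs hx with h1 | ⟨-, h1⟩
  · rcases lemB h hs h1 rfl with h2 | h2
    · exact ss2 h h2 hy (by rw [hxy]; ring)
    · exact sl0 h 0 (by omega) (by omega) hy h2.2 (by rw [hxy]; ring)
  · exact sl0 h (s - 1) (by omega) (by omega) hy h1.2 (by rw [hxy]; ring)

theorem lemH (h : Til 2 s 2 d e P Q) (hs : 3 ≤ s) {x y z : ℤ} (hx : S P Q 2 d x)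
    (hy : S P Q 2 d y) (hxy : y = x + (s + 1) * (2 * d)) (hz : z = x + 2 * d) :
    Bk P Q s d e z := by
  subst hz
  rcases bk_of_s h hs hx with h1 | ⟨-, h1⟩
  · exact h1
  · exact absurd hy fun hy => sl0 h (s - 1) (by omega) (by omega) hy h1.1 (by rw [hxy]; ring)

theorem lemD (h : Til 2 s 2 d e P Q) (hs : 3 ≤ s) {b y : ℤ} (hb : Bk P Q s d e b)
    (hy : Bk P Q s d e y) (hby : y = b + s * (2 * d)) : False := by
  subst hby
  rcases lemTypes h hb with ⟨h1, h2⟩ | ⟨h1, h2⟩ <;>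
    rcases lemTypes h hy with ⟨h3, h4⟩ | ⟨h3, h4⟩
  · exact E1 h hs (s_of_p h1 rfl) (s_of_p h3 rfl) (by ring)
  · exact E2 h hs (s_of_p h1 rfl) (s_of_p h4 rfl) (by ring)
  · exact E2 h hs (s_of_q (y := b + e + (s - 1) * (2 * d) - d) h1 (by ring))
      (s_of_q (y := b + e + (s - 1) * (2 * d) + s * (2 * d)) h4 (by ring)) (by ring)
  · exact E1 h hs (s_of_p h2 rfl) (s_of_p h4 rfl) (by ring)

theorem lemE (h : Til 2 s 2 d e P Q) (hs : 3 ≤ s) {b m y : ℤ} (hb : Bk P Q s d e b)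
    (hm : S P Q 2 d m) (hy : Bk P Q s d e y) (hbm : m = b + s * (2 * d))
    (hby : y = b + s * (2 * d) + 2 * d) : False := by
  subst hbm hby
  rcases lemTypes h hb with ⟨h1, h2⟩ | ⟨h1, h2⟩ <;>
    rcases lemTypes h hy with ⟨h3, h4⟩ | ⟨h3, h4⟩
  · have h5 := lemH h hs (s_of_p h1 rfl) (s_of_p h3 rfl) (by ring) (z := b - e + 2 * d) rfl
    have h6 := lemH h hs (s_of_q (y := b + e + (s - 1) * (2 * d)) h2 (by ring))
      (s_of_q (y := b + e + (s - 1) * (2 * d) + (s + 1) * (2 * d)) h4 (by ring)) rfl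
      (z := b + e + s * (2 * d)) (by ring)
    have h7 : Q (b + s * (2 * d) + d) := by
      rcases lemTypes h h5 with ⟨-, h7⟩ | ⟨h7, -⟩
      · exact tr h7 (by ring)
      · exact absurd h7 fun h7 => sl0 h (s - 1) (by omega) (by omega)
          (s_of_q (y := b + s * (2 * d) - d) h7 (by ring)) hb.2 (by ring)
    have h8 : P (b + s * (2 * d)) := by
      rcases lemTypes h h6 with ⟨h8, -⟩ | ⟨-, h8⟩
      · exact tr h8 (by ring)
      · exact absurd h8 fun h8 => ss2 h hm (s_of_p (y := b + s * (2 * d) + d) h8 (by ring)) rfl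
    exact ps2 h h8 h7 rfl
  · exact E3 h hs (s_of_p h1 rfl) (s_of_p h4 rfl) (by ring)
  · exact E3 h hs (s_of_q (y := b + e + (s - 1) * (2 * d) - d) h1 (by ring))
      (s_of_q (y := b + e + (s - 1) * (2 * d) - d + s * (2 * d) + 3 * d) h4 (by ring)) rfl
  · have h5 := lemH h hs (s_of_p h2 rfl) (s_of_p h4 rfl) (by ring) (z := b + d - e + 2 * d) rfl
    have h6 := lemH h hs (s_of_q (y := b + e + (s - 1) * (2 * d) - d) h1 (by ring))
      (s_of_q (y := b + e + (s - 1) * (2 * d) - d + (s + 1) * (2 * d)) h3 (by ring)) rfl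
      (z := b + e + s * (2 * d) - d) (by ring)
    have h7 : Q (b + s * (2 * d) + d) := by
      rcases lemTypes h h5 with ⟨-, h7⟩ | ⟨h7, -⟩
      · exact absurd h7 fun h7 => ss2 h hm
          (s_of_q (y := b + s * (2 * d) + d) h7 (by ring)) (by ring)
      · exact tr h7 (by ring)
    have h8 : P (b + s * (2 * d)) := by
      rcases lemTypes h h6 with ⟨h8, -⟩ | ⟨-, h8⟩
      · exact absurd h8 fun h8 => sl0 h (s - 1) (by omega) (by omega)
          (s_of_p (y := b + s * (2 * d) - d) h8 (by ring)) hb.2 (by ring)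
      · exact tr h8 (by ring)
    exact ps2 h h8 h7 rfl

/-- a block is followed by exactly two short intervals and a block -/
theorem lemF (h : Til 2 s 2 d e P Q) (hs : 3 ≤ s) {b : ℤ} (hb : Bk P Q s d e b) :
    S P Q 2 d (b + s * (2 * d)) ∧ S P Q 2 d (b + (s + 1) * (2 * d)) ∧
      Bk P Q s d e (b + (s + 2) * (2 * d)) := by
  have h1 : S P Q 2 d (b + s * (2 * d)) := by
    rcases lemB h hs hb rfl with h1 | h1
    · exact h1
    · exact absurd h1 fun h1 => lemD h hs hb h1 rfl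
  have h2 : S P Q 2 d (b + (s + 1) * (2 * d)) := by
    rcases lemA h hs h1 (y := b + (s + 1) * (2 * d)) (by ring) with h2 | h2
    · exact h2
    · exact absurd h2 fun h2 => lemE h hs hb h1 h2 rfl (by ring)
  refine ⟨h1, h2, ?_⟩
  rcases lemA h hs h2 (y := b + (s + 2) * (2 * d)) (by ring) with h3 | h3
  · exact absurd h3 fun h3 => lemC h hs h1 h2 h3 (by ring) (by ring)
  · exact h3

/-- short intervals of a row start in one class -/
theorem par (h : Til 2 s 2 d e P Q) (hs : 3 ≤ s) (j : ℕ) : ∀ {x y : ℤ}, S P Q 2 d x →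
    S P Q 2 d y → y = x + (2 * (j : ℤ) + 1) * d → False := by
  induction j using Nat.strong_induction_on with
  | _ j ih =>
    intro x y hx hy hxy
    rcases Nat.eq_zero_or_pos j with rfl | hj
    · exact ss2 h hx hy (by rw [hxy]; push_cast; ring)
    rcases lemA h hs hx rfl with h1 | h1
    · refine ih (j - 1) (by omega) h1 hy ?_
      rw [hxy]
      push_cast [Nat.cast_sub (show 1 ≤ j by omega)]
      ring
    · rcases le_or_gt (j : ℤ) s with hjs | hjs
      · exact sl0 h ((j : ℤ) - 1) (by omega) (by omega) hy h1.2 (by rw [hxy]; ring)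
      · obtain ⟨s', rfl⟩ : ∃ s' : ℕ, s = s' := ⟨s.toNat, by omega⟩
        refine ih (j - s' - 1) (by omega) (lemF h hs h1).1 hy ?_
        rw [hxy]
        have : ((j - s' - 1 : ℕ) : ℤ) = (j : ℤ) - s' - 1 := by omega
        rw [this]
        ring


/-- the same for all integers -/
theorem parZ (h : Til 2 s 2 d e P Q) (hs : 3 ≤ s) (j : ℤ) {x y : ℤ} (hx : S P Q 2 d x)
    (hy : S P Q 2 d y) (hxy : y = x + (2 * j + 1) * d) : False := by
  rcases le_or_gt 0 j with hj | hj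
  · obtain ⟨k, rfl⟩ : ∃ k : ℕ, j = k := ⟨j.toNat, by omega⟩
    exact par h hs k hx hy hxy
  · obtain ⟨k, rfl⟩ : ∃ k : ℕ, j = -(k : ℤ) - 1 := ⟨(-j - 1).toNat, by omega⟩
    exact par h hs k hy hx (by rw [hxy]; ring)

/-- every row contains a block -/
theorem lemG (h : Til 2 s 2 d e P Q) (hs : 3 ≤ s) {z : ℤ} (hz : L P Q 2 s d e z) :
    ∃ i : ℤ, Bk P Q s d e (z + i * d) := by
  by_cases hS : ∃ i : ℤ, S P Q 2 d (z + i * d)
  · obtain ⟨i, hi⟩ := hS
    rcases bk_of_s h hs hi with h1 | ⟨-, h1⟩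
    · exact ⟨i + 2, by rw [show z + (i + 2) * d = z + i * d + 2 * d by ring]; exact h1⟩
    · exact ⟨i + 4, by rw [show z + (i + 4) * d = z + i * d + 4 * d by ring]; exact h1⟩
  exfalso
  push Not at hS
  have step : ∀ i : ℤ, L P Q 2 s d e (z + i * d) → L P Q 2 s d e (z + (i + 2 * s) * d) := by
    intro i hi
    rcases cov h (z + (i + 2 * s) * d) with h1 | h1 | ⟨j, h0, h1, h2⟩
    · exact absurd h1 (hS _)
    · exact absurd (tr h1 (y := z + (i + 2 * s - 1) * d) (by ring)) (hS _)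
    · rcases (show j = 0 ∨ 1 ≤ j by omega) with rfl | hj
      · exact tr h2 (by ring)
      · exact absurd h2 fun h2 => ll2 h (s - j) (by omega) (by omega) hi h2 (by ring)
  have key : ∀ i : ℤ, L P Q 2 s d e (z + i * d) → ∃ k : ℤ, P (z + (i + 2 * k) * d - e) := by
    intro i hi
    have h1 := step i hi
    rcases hi with hi | hi
    · exact ⟨0, by rw [show z + (i + 2 * 0) * d - e = z + i * d - e by ring]; exact hi⟩
    · rcases h1 with h1 | h1
      · exact ⟨s, h1⟩
      · exact absurd h1 fun h1 => E1 h hs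
          (s_of_q (y := z + i * d + e + (s - 1) * (2 * d) - d) hi (by ring))
          (s_of_q (y := z + i * d + e + (s - 1) * (2 * d) - d + s * (2 * d)) h1 (by ring)) rfl
  obtain ⟨k, hk⟩ := key 0 (by rw [show z + 0 * d = z by ring]; exact hz)
  obtain ⟨m, hm⟩ : ∃ m : ℤ, L P Q 2 s d e (z + (2 * m + 1) * d) := by
    rcases cov h (z + 1 * d) with h1 | h1 | ⟨j, h0, h1, h2⟩
    · exact absurd h1 (hS _)
    · exact absurd (tr h1 (y := z + 0 * d) (by ring)) (hS _)
    · exact ⟨-j, tr h2 (by ring)⟩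
  obtain ⟨k', hk'⟩ := key _ hm
  exact parZ h hs (m + k' - k) (s_of_p hk rfl) (s_of_p hk' rfl) (by ring)

/-- the blocks of a row form one class modulo `2 (s + 2) d` -/
theorem uniq (h : Til 2 s 2 d e P Q) (hs : 3 ≤ s) (j : ℕ) : ∀ {b y : ℤ}, Bk P Q s d e b →
    Bk P Q s d e y → y = b + j * d → 2 * (s + 2) ∣ (j : ℤ) := by
  induction j using Nat.strong_induction_on with
  | _ j ih =>
    intro b y hb hy hby
    obtain ⟨h1, h2, h3⟩ := lemF h hs hb
    rcases le_or_gt (2 * (s + 2)) (j : ℤ) with hj | hj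
    · obtain ⟨t, rfl⟩ : ∃ t : ℕ, s = t := ⟨s.toNat, by omega⟩
      have h4 := ih (j - 2 * (t + 2)) (by omega) h3 hy (by
        rw [hby]
        have : ((j - 2 * (t + 2) : ℕ) : ℤ) = (j : ℤ) - 2 * (t + 2) := by omega
        rw [this]
        ring)
      have : (j : ℤ) = ((j - 2 * (t + 2) : ℕ) : ℤ) + 2 * ((t : ℤ) + 2) * 1 := by omega
      rw [this]
      exact dvd_add h4 ⟨1, rfl⟩
    · rcases Nat.even_or_odd' j with ⟨i, rfl | rfl⟩
      · rcases Nat.eq_zero_or_pos i with rfl | hi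
        · exact ⟨0, by simp⟩
        exfalso
        push_cast at hj hby
        rcases (show (i : ℤ) < s ∨ (i : ℤ) = s ∨ (i : ℤ) = s + 1 by omega) with hi' | hi' | hi'
        · exact ll2 h i (by omega) hi' hb.1 hy.1 (by rw [hby]; ring)
        · exact sl0 h 0 le_rfl (by omega) h1 hy.1 (by rw [hby, hi']; ring)
        · exact sl0 h 0 le_rfl (by omega) h2 hy.1 (by rw [hby, hi']; ring)
      · exfalso
        push_cast at hj hby
        rcases (show (i : ℤ) = 0 ∨ (0 < (i : ℤ) ∧ (i : ℤ) < s) ∨ (i : ℤ) = s ∨ (i : ℤ) = s + 1 by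
          omega) with hi' | ⟨hi, hi'⟩ | hi' | hi'
        · exact ll2 h 1 (by norm_num) (by omega) hb.1 hy.2 (by rw [hby, hi']; ring)
        · exact ll2 h i hi hi' hb.2 hy.1 (by rw [hby]; ring)
        · exact sl1 h 0 le_rfl (by omega) h1 hy.1 (by rw [hby, hi']; ring)
        · exact sl1 h 0 le_rfl (by omega) h2 hy.1 (by rw [hby, hi']; ring)

theorem uniqZ (h : Til 2 s 2 d e P Q) (hs : 3 ≤ s) (j : ℤ) {b y : ℤ} (hb : Bk P Q s d e b)
    (hy : Bk P Q s d e y) (hby : y = b + j * d) : 2 * (s + 2) ∣ j := by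
  rcases le_or_gt 0 j with hj | hj
  · obtain ⟨k, rfl⟩ : ∃ k : ℕ, j = k := ⟨j.toNat, by omega⟩
    exact uniq h hs k hb hy hby
  · obtain ⟨k, rfl⟩ : ∃ k : ℕ, j = -(k : ℤ) := ⟨(-j).toNat, by omega⟩
    exact (uniq h hs k hy hb (by rw [hby]; ring)).neg_right

/-- case 1: the block is carried over by `e + 2 s d` -/
theorem B1 (h : Til 2 s 2 d e P Q) (hs : 3 ≤ s) {b : ℤ} (hb : Bk P Q s d e b)
    (hdn : P (b - e)) (hp : P (b + s * (2 * d))) :
    Bk P Q s d e (b + (e + s * (2 * d))) ∧ P (b + (e + s * (2 * d)) - e) ∧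
      P (b + (e + s * (2 * d)) + s * (2 * d)) := by
  have hup : Q (b + d + e + (s - 1) * (2 * d)) := by
    rcases lemTypes h hb with ⟨-, h1⟩ | ⟨-, h1⟩
    · exact h1
    · exact absurd h1 fun h1 => ss2 h (s_of_p hdn rfl) (s_of_p h1 rfl) (by ring)
  have h0 : S P Q 2 d (b + e + (s - 1) * (2 * d)) := s_of_q hup (by ring)
  have hl : L P Q 2 s d e (b + (e + s * (2 * d))) := l_of_p hp (by ring)
  have hB : Bk P Q s d e (b + (e + s * (2 * d))) := by
    rcases lemA h hs h0 (y := b + (e + s * (2 * d))) (by ring) with h1 | h1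
    · exact absurd h1 fun h1 => sl0 h 0 le_rfl (by omega) h1 hl (by ring)
    · exact h1
  refine ⟨hB, tr hp (by ring), ?_⟩
  obtain ⟨-, h3, -⟩ := lemF h hs hb
  obtain ⟨h4, -, -⟩ := lemF h hs hB
  rcases h4 with h4 | h4
  · exact h4
  · exact absurd h4 fun h4 => sl1 h 0 le_rfl (by omega) h3
      (l_of_q (y := b + (s + 1) * (2 * d) + d) h4 (by ring)) (by ring)

/-- case 2: the block is carried over by `e + 2 (s + 1) d` -/
theorem B2 (h : Til 2 s 2 d e P Q) (hs : 3 ≤ s) {b : ℤ} (hb : Bk P Q s d e b)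
    (hdn : P (b - e)) (hq : Q (b + s * (2 * d) + d)) :
    Bk P Q s d e (b + (e + (s + 1) * (2 * d))) ∧ P (b + (e + (s + 1) * (2 * d)) - e) ∧
      Q (b + (e + (s + 1) * (2 * d)) + s * (2 * d) + d) := by
  have hup : Q (b + d + e + (s - 1) * (2 * d)) := by
    rcases lemTypes h hb with ⟨-, h1⟩ | ⟨-, h1⟩
    · exact h1
    · exact absurd h1 fun h1 => ss2 h (s_of_p hdn rfl) (s_of_p h1 rfl) (by ring)
  have h0 : S P Q 2 d (b + e + (s - 1) * (2 * d)) := s_of_q hup (by ring)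
  obtain ⟨h2, h3, h3'⟩ := lemF h hs hb
  have hp : P (b + (s + 1) * (2 * d)) := by
    rcases typ h hs h2 h3 (by ring) with ⟨h1, -⟩ | ⟨-, h1⟩
    · exact absurd h1 fun h1 => ps2 h h1 hq rfl
    · exact h1
  have hl : L P Q 2 s d e (b + (e + (s + 1) * (2 * d))) := l_of_p hp (by ring)
  have hS : S P Q 2 d (b + (e + s * (2 * d))) := by
    rcases lemA h hs h0 (y := b + (e + s * (2 * d))) (by ring) with h1 | h1
    · exact h1
    · exact absurd hl fun hl => ll2 h 1 (by norm_num) (by omega) h1.1 hl (by ring)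
  have hB : Bk P Q s d e (b + (e + (s + 1) * (2 * d))) := by
    rcases lemA h hs hS (y := b + (e + (s + 1) * (2 * d))) (by ring) with h1 | h1
    · exact absurd h1 fun h1 => sl0 h 0 le_rfl (by omega) h1 hl (by ring)
    · exact h1
  refine ⟨hB, tr hp (by ring), ?_⟩
  obtain ⟨h4, h5, -⟩ := lemF h hs hB
  rcases typ h hs h4 h5 (by ring) with ⟨-, h6⟩ | ⟨h6, -⟩
  · exact absurd h6 fun h6 => ll2 h 1 (by norm_num) (by omega) h3'.2
      (l_of_q (y := b + (s + 2) * (2 * d) + d + 2 * d) h6 (by ring)) (by ring)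
  · exact h6

theorem B1iter (h : Til 2 s 2 d e P Q) (hs : 3 ≤ s) {b : ℤ} (hb : Bk P Q s d e b)
    (hdn : P (b - e)) (hp : P (b + s * (2 * d))) (k : ℕ) :
    Bk P Q s d e (b + k * (e + s * (2 * d))) ∧ P (b + k * (e + s * (2 * d)) - e) ∧
      P (b + k * (e + s * (2 * d)) + s * (2 * d)) := by
  induction k with
  | zero => simpa using ⟨hb, hdn, hp⟩
  | succ k ih =>
    have := B1 h hs ih.1 ih.2.1 ih.2.2
    rw [show b + ((k + 1 : ℕ) : ℤ) * (e + s * (2 * d)) =
      b + (k : ℤ) * (e + s * (2 * d)) + (e + s * (2 * d)) by push_cast; ring]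
    exact this

theorem B2iter (h : Til 2 s 2 d e P Q) (hs : 3 ≤ s) {b : ℤ} (hb : Bk P Q s d e b)
    (hdn : P (b - e)) (hq : Q (b + s * (2 * d) + d)) (k : ℕ) :
    Bk P Q s d e (b + k * (e + (s + 1) * (2 * d))) ∧
      P (b + k * (e + (s + 1) * (2 * d)) - e) ∧
      Q (b + k * (e + (s + 1) * (2 * d)) + s * (2 * d) + d) := by
  induction k with
  | zero => simpa using ⟨hb, hdn, hq⟩
  | succ k ih =>
    have := B2 h hs ih.1 ih.2.1 ih.2.2
    rw [show b + ((k + 1 : ℕ) : ℤ) * (e + (s + 1) * (2 * d)) =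
      b + (k : ℤ) * (e + (s + 1) * (2 * d)) + (e + (s + 1) * (2 * d)) by push_cast; ring]
    exact this

theorem main_dn (h : Til 2 s 2 d e P Q) (hd : 0 < d) (hs : 3 ≤ s) {b : ℤ}
    (hb : Bk P Q s d e b) (hdn : P (b - e)) :
    2 * (s + 2) ∣ e - 4 * d ∨ 2 * (s + 2) ∣ e - 2 * d := by
  obtain ⟨k, rfl⟩ : ∃ k : ℕ, d = k := ⟨d.toNat, by omega⟩
  rcases (lemF h hs hb).1 with h1 | h1
  · left
    have h2 := uniqZ h hs (e + s * (2 * k)) hb (B1iter h hs hb hdn h1 k).1 (by ring)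
    rw [show e - 4 * (k : ℤ) = e + s * (2 * k) - 2 * (s + 2) * k by ring]
    exact dvd_sub h2 ⟨k, rfl⟩
  · right
    have h2 := uniqZ h hs (e + (s + 1) * (2 * k)) hb
      (B2iter h hs hb hdn (tr h1 (by ring)) k).1 (by ring)
    rw [show e - 2 * (k : ℤ) = e + (s + 1) * (2 * k) - 2 * (s + 2) * k by ring]
    exact dvd_sub h2 ⟨k, rfl⟩

/-- reflecting the set -/
theorem swap (h : Til 2 s 2 d e P Q) :
    Til 2 s 2 d (-e - (2 * s - 3) * d) (fun n => Q (n + d)) (fun n => P (n - d)) := by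
  have hS : ∀ x, S (fun n => Q (n + d)) (fun n => P (n - d)) 2 d x ↔ S P Q 2 d x := by
    intro x
    unfold S
    simp only
    rw [show x + (2 - 1) * d = x + d by ring, show x + d - d = x by ring]
    exact or_comm
  have hL : ∀ x, L (fun n => Q (n + d)) (fun n => P (n - d)) 2 s d (-e - (2 * s - 3) * d) x ↔
      L P Q 2 s d e x := by
    intro x
    unfold L
    simp only
    rw [show x - (-e - (2 * s - 3) * d) + d = x + e + (s - 1) * (2 * d) by ring,
      show x + (-e - (2 * s - 3) * d) + (s - 1) * (2 * d) - d = x - e by ring]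
    exact or_comm
  refine ⟨fun n => ?_, ?_, ?_, ?_, ?_, ?_, ?_, ?_⟩
  · simp only [hS, hL]
    exact h.ex n
  · intro x y i
    simp only [hS]
    exact h.ss x y i
  · intro x y i j
    simp only [hS, hL]
    exact h.sl x y i j
  · intro x y i
    simp only [hL]
    exact h.ll x y i
  · intro x y i h0 h1 hxy hx hy
    exact h.qq (x + d) (y + d) i h0 h1 (by rw [hxy]; ring) hx hy
  · intro x y i h0 h1 hxy hx hy
    exact h.pp (x - d) (y - d) i h0 h1 (by rw [hxy]; ring) hx hy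
  · intro x y hxy hx hy
    exact h.ps (y - d) (x + d) (by rw [hxy]; ring) hy hx
  · intro x y hxy hx hy
    exact h.pl (y - d) (x + d) (by rw [hxy]; ring) hy hx

/-- necessary conditions for `p = 2`, `s ≥ 3` -/
theorem necc (h : Til 2 s 2 d e P Q) (hd : 0 < d) (hs : 3 ≤ s) :
    2 * (s + 2) ∣ e - 2 * d ∨ 2 * (s + 2) ∣ e - 3 * d ∨ 2 * (s + 2) ∣ e - 4 * d ∨
      2 * (s + 2) ∣ e - 5 * d := by
  obtain ⟨b, hb⟩ : ∃ b, Bk P Q s d e b := by
    rcases h.ex 0 with ⟨x, i, -, -, -, hx⟩ | ⟨x, i, -, -, -, hx⟩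
    · rcases bk_of_s h hs hx with h1 | ⟨-, h1⟩
      · exact ⟨_, h1⟩
      · exact ⟨_, h1⟩
    · obtain ⟨i, hi⟩ := lemG h hs hx
      exact ⟨_, hi⟩
  rcases lemTypes h hb with ⟨h1, -⟩ | ⟨h1, -⟩
  · rcases main_dn h hd hs hb h1 with h2 | h2
    · exact Or.inr (Or.inr (Or.inl h2))
    · exact Or.inl h2
  · have h' := swap h
    have hb' : Bk (fun n => Q (n + d)) (fun n => P (n - d)) s d (-e - (2 * s - 3) * d) b := by
      constructor
      · rcases hb.1 with h3 | h3
        · refine Or.inr (tr (R := P) h3 ?_)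
          ring
        · refine Or.inl (tr (R := Q) h3 ?_)
          ring
      · rcases hb.2 with h3 | h3
        · refine Or.inr (tr (R := P) h3 ?_)
          ring
        · refine Or.inl (tr (R := Q) h3 ?_)
          ring
    rcases main_dn h' hd hs hb' (tr (R := Q) h1 (by ring)) with ⟨k, h2⟩ | ⟨k, h2⟩
    · exact Or.inr (Or.inl ⟨-k - d, by linarith⟩)
    · exact Or.inr (Or.inr (Or.inr ⟨-k - d, by linarith⟩))

end MPae024f.Sc
end

section
/-! The case `3 ≤ q ≤ p`: rows of short intervals and rows of long progressions. -/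
namespace MPae024f.Sc

variable {P Q : ℤ → Prop} {p s q d e T : ℤ}

/-- long progressions after the short interval at `y` -/
theorem blk3 (h : Til p s q d e P Q) (hq : 3 ≤ q) (hqp : q ≤ p) (hs : 2 ≤ s) {y : ℤ} (hy : S P Q p d y)
    (hl : L P Q q s d e (y + p * d)) {i : ℤ} (h1 : 1 ≤ i) (h2 : i ≤ 2)
    (hb : ∀ m, 1 ≤ m → m < i → L P Q q s d e (y + p * d + m * d)) :
    L P Q q s d e (y + p * d + i * d) := by
  rcases h.ex (y + p * d + i * d) with ⟨x, m, h4, h5, h6, hx⟩ | ⟨x, m, h4, h5, h6, hx⟩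
  · exfalso
    rcases (show m = 0 ∨ (1 ≤ m ∧ m < i) ∨ m = i ∨ i < m by omega) with h7 | ⟨h7, h8⟩ | h7 | h7
    · refine h.sl x (y + p * d) (q - i) 1 (by omega) (by omega) (by omega) (by omega) ?_ hx hl
      rw [h7] at h6
      linear_combination -h6
    · refine h.sl x (y + p * d + (i - m) * d) 0 0 (by omega) (by omega) (by omega) (by omega) ?_
        hx (hb (i - m) (by omega) (by omega))
      linear_combination -h6
    · refine h.sl x (y + p * d) 0 0 (by omega) (by omega) (by omega) (by omega) ?_ hx hl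
      rw [h7] at h6
      linear_combination -h6
    · refine h.ss y x (p + i - m) (by omega) (by omega) ?_ hy hx
      linear_combination -h6
  · rcases (show m = 0 ∨ 1 ≤ m by omega) with h7 | h7
    · subst h7
      exact tr hx (by linear_combination -h6)
    · exfalso
      refine h.sl y x (p + i - q) (m - 1) (by omega) (by omega) (by omega) (by omega) ?_ hy hx
      linear_combination h6

/-- after a short interval comes a short interval -/
theorem nxt3 (h : Til p s q d e P Q) (hq : 3 ≤ q) (hqp : q ≤ p) (hs : 2 ≤ s) {y z : ℤ} (hy : S P Q p d y) (hz : z = y + p * d) :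
    S P Q p d z := by
  subst hz
  rcases h.ex (y + p * d) with ⟨x, m, h4, h5, h6, hx⟩ | ⟨x, m, h4, h5, h6, hx⟩
  · rcases (show m = 0 ∨ 1 ≤ m by omega) with h7 | h7
    · subst h7
      exact tr hx (by linear_combination -h6)
    · exact absurd hx fun hx => h.ss y x (p - m) (by omega) (by omega)
        (by linear_combination -h6) hy hx
  · exfalso
    rcases (show m = 0 ∨ 1 ≤ m by omega) with h7 | h7
    swap
    · refine h.sl y x (p - q) (m - 1) (by omega) (by omega) (by omega) (by omega) ?_ hy hx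
      linear_combination h6
    subst h7
    have h0 : L P Q q s d e (y + p * d) := tr hx (by linear_combination -h6)
    have h1 : L P Q q s d e (y + p * d + 1 * d) := blk3 h hq hqp hs hy h0 le_rfl (by norm_num)
      (fun m h1 h2 => by omega)
    have h2 : L P Q q s d e (y + p * d + 2 * d) := blk3 h hq hqp hs hy h0 (by norm_num) le_rfl
      (fun m h2 h3 => by rw [show m = 1 by omega]; exact h1)
    have kp : ∀ (a b i : ℤ), P a → P b → b = a + i * d → 0 < i → i < p → False :=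
      fun a b i ha hb hab hi hi' => h.ss a b i hi hi' hab (Or.inl ha) (Or.inl hb)
    have kq : ∀ (a b i : ℤ), Q a → Q b → b = a + i * d → 0 < i → i < p → False :=
      fun a b i ha hb hab hi hi' => h.ss (a - (p - 1) * d) (b - (p - 1) * d) i hi hi'
        (by rw [hab]; ring) (Or.inr (tr ha (by ring))) (Or.inr (tr hb (by ring)))
    rcases h0 with h0 | h0 <;> rcases h1 with h1 | h1 <;> rcases h2 with h2 | h2
    · exact kp _ _ 1 h0 h1 (by ring) (by norm_num) (by omega)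
    · exact kp _ _ 1 h0 h1 (by ring) (by norm_num) (by omega)
    · exact kp _ _ 2 h0 h2 (by ring) (by norm_num) (by omega)
    · exact kq _ _ 1 h1 h2 (by ring) (by norm_num) (by omega)
    · exact kp _ _ 1 h1 h2 (by ring) (by norm_num) (by omega)
    · exact kq _ _ 2 h0 h2 (by ring) (by norm_num) (by omega)
    · exact kq _ _ 1 h0 h1 (by ring) (by norm_num) (by omega)
    · exact kq _ _ 1 h0 h1 (by ring) (by norm_num) (by omega)

theorem per_iter {R : ℤ → Prop} (h : ∀ x, R (x + T) ↔ R x) (x k : ℤ) : R (x + k * T) ↔ R x := by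
  have h1 : ∀ (k : ℕ) (x : ℤ), R (x + k * T) ↔ R x := by
    intro k
    induction k with
    | zero => intro x; simp
    | succ k ih =>
      intro x
      rw [show x + ((k + 1 : ℕ) : ℤ) * T = x + k * T + T by push_cast; ring, h]
      exact ih x
  rcases le_or_gt 0 k with hk | hk
  · obtain ⟨n, rfl⟩ : ∃ n : ℕ, k = n := ⟨k.toNat, by omega⟩
    exact h1 n x
  · obtain ⟨n, rfl⟩ : ∃ n : ℕ, k = -(n : ℤ) := ⟨(-k).toNat, by omega⟩
    rw [← h1 n (x + -(n : ℤ) * T), show x + -(n : ℤ) * T + n * T = x by ring]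

/-- a periodic tiling in which short intervals are followed by short intervals -/
structure W0 (p s q d e T : ℤ) (P Q : ℤ → Prop) : Prop extends Til p s q d e P Q where
  hd : 0 < d
  hp : 3 ≤ p
  hs : 2 ≤ s
  hT : 0 < T
  pP : ∀ x, P (x + T) ↔ P x
  pQ : ∀ x, Q (x + T) ↔ Q x
  nx : ∀ y, S P Q p d y → S P Q p d (y + p * d)

namespace W0

theorem perS (h : W0 p s q d e T P Q) (x k : ℤ) : S P Q p d (x + k * T) ↔ S P Q p d x := by
  unfold S
  rw [per_iter h.pP x k, show x + k * T + (p - 1) * d = x + (p - 1) * d + k * T by ring,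
    per_iter h.pQ]

theorem perL (h : W0 p s q d e T P Q) (x k : ℤ) :
    L P Q q s d e (x + k * T) ↔ L P Q q s d e x := by
  unfold L
  rw [show x + k * T - e = x - e + k * T by ring, per_iter h.pP,
    show x + k * T + e + (s - 1) * (q * d) = x + e + (s - 1) * (q * d) + k * T by ring,
    per_iter h.pQ]

/-- the mirrored tiling -/
theorem mir (h : W0 p s q d e T P Q) :
    W0 p s q d (-e - (s - 1) * (q * d) + (p - 1) * d) T (fun n => Q (n + (p - 1) * d))
      (fun n => P (n - (p - 1) * d)) := by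
  have hS : ∀ x, S (fun n => Q (n + (p - 1) * d)) (fun n => P (n - (p - 1) * d)) p d x ↔
      S P Q p d x := by
    intro x
    unfold S
    simp only
    rw [show x + (p - 1) * d - (p - 1) * d = x by ring]
    exact or_comm
  have hL : ∀ x, L (fun n => Q (n + (p - 1) * d)) (fun n => P (n - (p - 1) * d)) q s d
      (-e - (s - 1) * (q * d) + (p - 1) * d) x ↔ L P Q q s d e x := by
    intro x
    unfold L
    simp only
    rw [show x - (-e - (s - 1) * (q * d) + (p - 1) * d) + (p - 1) * d =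
        x + e + (s - 1) * (q * d) by ring,
      show x + (-e - (s - 1) * (q * d) + (p - 1) * d) + (s - 1) * (q * d) - (p - 1) * d =
        x - e by ring]
    exact or_comm
  refine { ex := fun n => ?_, ss := ?_, sl := ?_, ll := ?_, pp := ?_, qq := ?_, ps := ?_,
           pl := ?_, hd := h.hd, hp := h.hp, hs := h.hs, hT := h.hT,
           pP := ?_, pQ := ?_, nx := ?_ }
  · simp only [hS, hL]
    exact h.ex n
  · intro x y i
    simp only [hS]
    exact h.ss x y i
  · intro x y i j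
    simp only [hS, hL]
    exact h.sl x y i j
  · intro x y i
    simp only [hL]
    exact h.ll x y i
  · intro x y i h0 h1 hxy hx hy
    exact h.qq (x + (p - 1) * d) (y + (p - 1) * d) i h0 h1 (by rw [hxy]; ring) hx hy
  · intro x y i h0 h1 hxy hx hy
    exact h.pp (x - (p - 1) * d) (y - (p - 1) * d) i h0 h1 (by rw [hxy]; ring) hx hy
  · intro x y hxy hx hy
    exact h.ps (y - (p - 1) * d) (x + (p - 1) * d) (by rw [hxy]; ring) hy hx
  · intro x y hxy hx hy
    exact h.pl (y - (p - 1) * d) (x + (p - 1) * d) (by rw [hxy]; ring) hy hx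
  · intro x
    rw [show x + T + (p - 1) * d = x + (p - 1) * d + T by ring]
    exact h.pQ _
  · intro x
    rw [show x + T - (p - 1) * d = x - (p - 1) * d + T by ring]
    exact h.pP _
  · intro y
    simp only [hS]
    exact h.nx y

theorem sp (_ : W0 p s q d e T P Q) {x y : ℤ} (h : P x) (hxy : x = y) : S P Q p d y :=
  Or.inl (hxy ▸ h)

theorem sq (_ : W0 p s q d e T P Q) {x y : ℤ} (h : Q x) (hxy : x = y + (p - 1) * d) :
    S P Q p d y := Or.inr (hxy ▸ h)

theorem lp (_ : W0 p s q d e T P Q) {x y : ℤ} (h : P x) (hxy : x + e = y) : L P Q q s d e y :=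
  Or.inl (by rw [← hxy, show x + e - e = x by ring]; exact h)

theorem lq (_ : W0 p s q d e T P Q) {x y : ℤ} (h : Q x) (hxy : x = y + e + (s - 1) * (q * d)) :
    L P Q q s d e y := Or.inr (hxy ▸ h)

theorem nxt (h : W0 p s q d e T P Q) {y z : ℤ} (hy : S P Q p d y) (hz : z = y + p * d) :
    S P Q p d z := hz ▸ h.nx y hy

theorem nxtN (h : W0 p s q d e T P Q) {y : ℤ} (hy : S P Q p d y) (k : ℕ) :
    S P Q p d (y + k * (p * d)) := by
  induction k with
  | zero => exact tr hy (by push_cast; ring)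
  | succ k ih => exact h.nxt ih (by push_cast; ring)

/-- the short intervals of a row form a full class -/
theorem nxtZ (h : W0 p s q d e T P Q) {y z : ℤ} (hy : S P Q p d y) (k : ℤ)
    (hz : z = y + k * (p * d)) : S P Q p d z := by
  subst hz
  have hT := h.hT
  obtain ⟨n, hn⟩ : ∃ n : ℕ, (n : ℤ) = k + k.natAbs * T := by
    refine ⟨(k + k.natAbs * T).toNat, ?_⟩
    have : (k.natAbs : ℤ) * 1 ≤ k.natAbs * T :=
      mul_le_mul_of_nonneg_left (by omega) (Int.natCast_nonneg _)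
    omega
  have h1 := h.nxtN hy n
  rw [hn] at h1
  rw [← h.perS _ (k.natAbs * (p * d))]
  exact tr h1 (by ring)

theorem suniq (h : W0 p s q d e T P Q) {y z : ℤ} (hy : S P Q p d y) (hz : S P Q p d z) (i : ℤ)
    (hyz : z = y + i * d) : p ∣ i := by
  have hp : 3 ≤ p := h.hp
  have h1 := Int.emod_add_mul_ediv i p
  have h2 : 0 ≤ i % p := Int.emod_nonneg _ (by omega)
  have h3 : i % p < p := Int.emod_lt_of_pos _ (by omega)
  rcases (show i % p = 0 ∨ 0 < i % p by omega) with h4 | h4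
  · exact Int.dvd_of_emod_eq_zero h4
  · exact absurd hz fun hz => h.ss (y + (i / p) * (p * d)) z (i % p) h4 h3
      (by rw [hyz]; linear_combination (-d) * h1) (h.nxtZ hy _ rfl) hz

theorem nosl (h : W0 p s q d e T P Q) {y z : ℤ} (hy : S P Q p d y) (hz : L P Q q s d e z) (i : ℤ)
    (hyz : z = y + i * d) : False := by
  have hp : 3 ≤ p := h.hp
  have hs := h.hs
  have h1 := Int.emod_add_mul_ediv i p
  refine h.sl (y + (i / p) * (p * d)) z (i % p) 0 (Int.emod_nonneg _ (by omega))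
    (Int.emod_lt_of_pos _ (by omega)) le_rfl (by omega) ?_ (h.nxtZ hy _ rfl) hz
  rw [hyz]
  linear_combination d * h1

theorem lnx (h : W0 p s q d e T P Q) {y z : ℤ} (hy : L P Q q s d e y)
    (hz : z = y + s * (q * d)) : L P Q q s d e z := by
  subst hz
  rcases h.ex (y + s * (q * d)) with ⟨x, m, h4, h5, h6, hx⟩ | ⟨x, m, h4, h5, h6, hx⟩
  · exact absurd hy fun hy => h.nosl hx hy (m - s * q) (by linear_combination h6)
  · rcases (show m = 0 ∨ 1 ≤ m by omega) with h7 | h7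
    · subst h7
      exact tr hx (by linear_combination -h6)
    · exact absurd hx fun hx => h.ll y x (s - m) (by omega) (by omega)
        (by linear_combination -h6) hy hx

theorem lnxN (h : W0 p s q d e T P Q) {y : ℤ} (hy : L P Q q s d e y) (k : ℕ) :
    L P Q q s d e (y + k * (s * (q * d))) := by
  induction k with
  | zero => exact tr hy (by push_cast; ring)
  | succ k ih => exact h.lnx ih (by push_cast; ring)

theorem lnxZ (h : W0 p s q d e T P Q) {y z : ℤ} (hy : L P Q q s d e y) (k : ℤ)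
    (hz : z = y + k * (s * (q * d))) : L P Q q s d e z := by
  subst hz
  have hT := h.hT
  obtain ⟨n, hn⟩ : ∃ n : ℕ, (n : ℤ) = k + k.natAbs * T := by
    refine ⟨(k + k.natAbs * T).toNat, ?_⟩
    have : (k.natAbs : ℤ) * 1 ≤ k.natAbs * T :=
      mul_le_mul_of_nonneg_left (by omega) (Int.natCast_nonneg _)
    omega
  have h1 := h.lnxN hy n
  rw [hn] at h1
  rw [← h.perL _ (k.natAbs * (s * (q * d)))]
  exact tr h1 (by ring)

theorem luniq (h : W0 p s q d e T P Q) {y z : ℤ} (hy : L P Q q s d e y)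
    (hz : L P Q q s d e z) (i : ℤ) (hyz : z = y + i * (q * d)) : s ∣ i := by
  have hs := h.hs
  have h1 := Int.emod_add_mul_ediv i s
  have h2 : 0 ≤ i % s := Int.emod_nonneg _ (by omega)
  have h3 : i % s < s := Int.emod_lt_of_pos _ (by omega)
  rcases (show i % s = 0 ∨ 0 < i % s by omega) with h4 | h4
  · exact Int.dvd_of_emod_eq_zero h4
  · exact absurd hz fun hz => h.ll (y + (i / s) * (s * (q * d))) z (i % s) h4 h3
      (by rw [hyz]; linear_combination (-q * d) * h1) (h.lnxZ hy _ rfl) hz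

/-- there is a short interval in the row of `z` -/
def Sr (P Q : ℤ → Prop) (p d z : ℤ) : Prop := ∃ i : ℤ, S P Q p d (z + i * d)

theorem sr_of (_ : W0 p s q d e T P Q) {x z : ℤ} (hx : S P Q p d x) (i : ℤ) (hz : x = z + i * d) :
    Sr P Q p d z := ⟨i, by rw [← hz]; exact hx⟩

theorem sr_row {z : ℤ} (j : ℤ) : Sr P Q p d (z + j * d) ↔ Sr P Q p d z := by
  constructor
  · rintro ⟨i, hi⟩
    exact ⟨i + j, tr hi (by ring)⟩
  · rintro ⟨i, hi⟩
    exact ⟨i - j, tr hi (by ring)⟩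

theorem nsr_of (h : W0 p s q d e T P Q) {x z : ℤ} (hx : L P Q q s d e x) (i : ℤ)
    (hz : x = z + i * d) : ¬ Sr P Q p d z := by
  rintro ⟨j, hj⟩
  exact h.nosl hj hx (i - j) (by rw [hz]; ring)

theorem lcov (h : W0 p s q d e T P Q) {z : ℤ} (hz : ¬ Sr P Q p d z) (i : ℤ) :
    ∃ x m, 0 ≤ m ∧ m < s ∧ z + i * d = x + m * (q * d) ∧ L P Q q s d e x := by
  rcases h.ex (z + i * d) with ⟨x, m, h4, h5, h6, hx⟩ | ⟨x, m, h4, h5, h6, hx⟩
  · exact absurd (h.sr_of hx (i - m) (by linear_combination -h6)) hz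
  · exact ⟨x, m, h4, h5, h6, hx⟩

/-- `P`-type conflict classes -/
theorem dd (h : W0 p s q d e T P Q) {x y : ℤ} (hx : P x) (hy : P y) (i : ℤ)
    (hxy : y = x + i * d) : p ∣ i := h.suniq (h.sp hx rfl) (h.sp hy rfl) i hxy

theorem uu (h : W0 p s q d e T P Q) {x y : ℤ} (hx : Q x) (hy : Q y) (i : ℤ)
    (hxy : y = x + i * d) : p ∣ i :=
  h.suniq (y := x - (p - 1) * d) (z := y - (p - 1) * d) (h.sq hx (by ring)) (h.sq hy (by ring)) i
    (by rw [hxy]; ring)

/-- an `L` progression is not of both types -/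
theorem pl' (h : W0 p s q d e T P Q) {x : ℤ} (h1 : P (x - e))
    (h2 : Q (x + e + (s - 1) * (q * d))) : False := h.pl _ _ (by ring) h1 h2

theorem ps' (h : W0 p s q d e T P Q) {x : ℤ} (h1 : P x) (h2 : Q (x + (p - 1) * d)) : False :=
  h.ps _ _ rfl h1 h2

end W0

end MPae024f.Sc
end

section
/-! The case `3 ≤ q ≤ p`: necessary conditions. -/
namespace MPae024f.Sc

variable {P Q : ℤ → Prop} {p s q d e T : ℤ}

theorem three_dvd {R : ℤ → Prop} (hd : 0 < d) (hrow : ∀ z, R (z + d * e) ↔ R z)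
    (h : ∀ z, R z → ¬ R (z + e) ∧ ¬ R (z + 2 * e) ∧ R (z + 3 * e)) (hex : ∃ z, R z) : 3 ∣ d := by
  obtain ⟨z, hz⟩ := hex
  have h3 : ∀ k : ℕ, R (z + 3 * (k : ℤ) * e) := by
    intro k
    induction k with
    | zero => simpa using hz
    | succ k ih =>
      have := (h _ ih).2.2
      rwa [show z + 3 * (k : ℤ) * e + 3 * e = z + 3 * ((k + 1 : ℕ) : ℤ) * e by push_cast; ring] at this
  have h4 := h3 (d / 3).toNat
  rw [show (((d / 3).toNat : ℕ) : ℤ) = d / 3 by omega] at h4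
  have h5 := (hrow z).2 hz
  rcases (show d % 3 = 0 ∨ d % 3 = 1 ∨ d % 3 = 2 by omega) with h6 | h6 | h6
  · omega
  · exfalso
    refine (h _ h4).1 ?_
    have h7 : d = 3 * (d / 3) + 1 := by omega
    rwa [show z + 3 * (d / 3) * e + e = z + d * e by linear_combination (-e) * h7]
  · exfalso
    refine (h _ h4).2.1 ?_
    have h7 : d = 3 * (d / 3) + 2 := by omega
    rwa [show z + 3 * (d / 3) * e + 2 * e = z + d * e by linear_combination (-e) * h7]

theorem two_dvd {R : ℤ → Prop} (hd : 0 < d) (hrow : ∀ z, R (z + d * e) ↔ R z)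
    (h : ∀ z, R (z + e) ↔ ¬ R z) : 2 ∣ d := by
  have h2 : ∀ (k : ℕ) z, R (z + 2 * (k : ℤ) * e) ↔ R z := by
    intro k
    induction k with
    | zero => intro z; simp
    | succ k ih =>
      intro z
      rw [show z + 2 * ((k + 1 : ℕ) : ℤ) * e = z + 2 * (k : ℤ) * e + e + e by push_cast; ring,
        h, h, not_not]
      exact ih z
  by_contra hcon
  have h3 : d = 2 * (d / 2) + 1 := by omega
  have h4 := h2 (d / 2).toNat 0
  rw [show (((d / 2).toNat : ℕ) : ℤ) = d / 2 by omega] at h4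
  have h5 := h (0 + 2 * (d / 2) * e)
  rw [h4, show 0 + 2 * (d / 2) * e + e = 0 + (2 * (d / 2) + 1) * e by ring, ← h3, hrow] at h5
  tauto

namespace W0

theorem ex_l (h : W0 p s q d e T P Q) : ∃ z, L P Q q s d e z := by
  rcases h.ex 0 with ⟨x, i, -, -, -, hx | hx⟩ | ⟨x, i, -, -, -, hx⟩
  · exact ⟨_, h.lp hx rfl⟩
  · exact ⟨_, h.lq (y := x + (p - 1) * d - e - (s - 1) * (q * d)) hx (by ring)⟩
  · exact ⟨_, hx⟩

theorem ex_s (h : W0 p s q d e T P Q) : ∃ z, S P Q p d z := by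
  obtain ⟨z, hz | hz⟩ := h.ex_l
  · exact ⟨_, h.sp hz rfl⟩
  · exact ⟨_, h.sq (y := z + e + (s - 1) * (q * d) - (p - 1) * d) hz (by ring)⟩

/-- `gcd (p, q)` is `1` or `2` -/
def Gc (p q : ℤ) : Prop := IsCoprime p q ∨ ∃ p' q', p = 2 * p' ∧ q = 2 * q' ∧ IsCoprime p' q'

/-- two of three consecutive cells of a long row belong to long progressions of the same type -/
theorem three_cells (h : W0 p s q d e T P Q) :
    ∃ δ m : ℤ, (δ = 1 ∨ δ = 2) ∧ p ∣ δ + m * q := by
  obtain ⟨z, hz⟩ := h.ex_l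
  have hn : ¬ Sr P Q p d z := h.nsr_of hz 0 (by ring)
  obtain ⟨x0, m0, -, -, h0, l0⟩ := h.lcov hn 0
  obtain ⟨x1, m1, -, -, h1, l1⟩ := h.lcov hn 1
  obtain ⟨x2, m2, -, -, h2, l2⟩ := h.lcov hn 2
  have kp : ∀ (x y m n i j : ℤ), z + i * d = x + m * (q * d) → z + j * d = y + n * (q * d) →
      P (x - e) → P (y - e) → p ∣ (j - i) + (m - n) * q := fun x y m n i j hx hy h3 h4 =>
    h.dd h3 h4 _ (by linear_combination hx - hy)
  have kq : ∀ (x y m n i j : ℤ), z + i * d = x + m * (q * d) → z + j * d = y + n * (q * d) →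
      Q (x + e + (s - 1) * (q * d)) → Q (y + e + (s - 1) * (q * d)) →
      p ∣ (j - i) + (m - n) * q := fun x y m n i j hx hy h3 h4 =>
    h.uu h3 h4 _ (by linear_combination hx - hy)
  rcases l0 with l0 | l0 <;> rcases l1 with l1 | l1 <;> rcases l2 with l2 | l2
  · exact ⟨1, _, Or.inl rfl, kp _ _ _ _ _ _ h0 h1 l0 l1⟩
  · exact ⟨1, _, Or.inl rfl, kp _ _ _ _ _ _ h0 h1 l0 l1⟩
  · exact ⟨2, _, Or.inr rfl, kp _ _ _ _ _ _ h0 h2 l0 l2⟩
  · exact ⟨1, _, Or.inl rfl, kq _ _ _ _ _ _ h1 h2 l1 l2⟩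
  · exact ⟨1, _, Or.inl rfl, kp _ _ _ _ _ _ h1 h2 l1 l2⟩
  · exact ⟨2, _, Or.inr rfl, kq _ _ _ _ _ _ h0 h2 l0 l2⟩
  · exact ⟨1, _, Or.inl rfl, kq _ _ _ _ _ _ h0 h1 l0 l1⟩
  · exact ⟨1, _, Or.inl rfl, kq _ _ _ _ _ _ h0 h1 l0 l1⟩

/-- `gcd (p, q)` is `1` or `2` -/
theorem gcd_cases (h : W0 p s q d e T P Q) : Gc p q := by
  obtain ⟨δ, m, hδ, hdvd⟩ := h.three_cells
  have hp : 3 ≤ p := h.hp
  set g := Int.gcd p q with hg
  have h1 : (g : ℤ) ∣ p := Int.gcd_dvd_left p q
  have h2 : (g : ℤ) ∣ q := Int.gcd_dvd_right p q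
  have h3 : (g : ℤ) ∣ δ := by
    have := h1.trans hdvd
    rwa [Int.dvd_add_left (dvd_mul_of_dvd_right h2 m)] at this
  have hg0 : 0 < g := Int.gcd_pos_of_ne_zero_left _ (by omega)
  have h4 : (g : ℤ) ≤ 2 := by
    rcases hδ with rfl | rfl
    · exact (Int.le_of_dvd (by norm_num) h3).trans (by norm_num)
    · exact Int.le_of_dvd (by norm_num) h3
  rcases (show g = 1 ∨ g = 2 by omega) with h5 | h5
  · left
    rw [Int.isCoprime_iff_gcd_eq_one]
    exact h5
  · right
    obtain ⟨p', hp'⟩ := h1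
    obtain ⟨q', hq'⟩ := h2
    rw [h5] at hp' hq'
    push_cast at hp' hq'
    refine ⟨p', q', hp', hq', ?_⟩
    rw [Int.isCoprime_iff_gcd_eq_one]
    have h6 : Int.gcd (2 * p') (2 * q') = 2 := by rw [← hp', ← hq', ← hg, h5]
    rw [Int.gcd_mul_left] at h6
    have : (2 : ℤ).natAbs = 2 := rfl
    rw [this] at h6
    omega

theorem iterN {R : ℤ → Prop} {c : ℤ} (hc : ∀ x, R x → R (x + c)) {x : ℤ} (hx : R x) (k : ℕ) :
    R (x + k * c) := by
  induction k with
  | zero => simpa using hx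
  | succ k ih =>
    have := hc _ ih
    rwa [show x + (k : ℤ) * c + c = x + ((k + 1 : ℕ) : ℤ) * c by push_cast; ring] at this

theorem iterZ {R : ℤ → Prop} {c : ℤ} (hT : 0 < T) (hR : ∀ x, R (x + T) ↔ R x)
    (hc : ∀ x, R x → R (x + c)) {x y : ℤ} (hx : R x) (k : ℤ) (hy : y = x + k * c) : R y := by
  subst hy
  obtain ⟨n, hn⟩ : ∃ n : ℕ, (n : ℤ) = k + k.natAbs * T := by
    refine ⟨(k + k.natAbs * T).toNat, ?_⟩
    have : (k.natAbs : ℤ) * 1 ≤ k.natAbs * T :=
      mul_le_mul_of_nonneg_left (by omega) (Int.natCast_nonneg _)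
    omega
  have h1 := iterN hc hx n
  rw [hn] at h1
  rw [← per_iter hR _ (k.natAbs * c)]
  exact tr h1 (by ring)

/-! ### the case `p < s` -/

theorem big_coprime (h : W0 p s q d e T P Q) (hsp : p < s) : IsCoprime p q := by
  have hp : 3 ≤ p := h.hp
  rcases h.gcd_cases with h1 | ⟨p', q', rfl, rfl, -⟩
  · exact h1
  exfalso
  obtain ⟨y, hy⟩ := h.ex_s
  have h1 : S P Q (2 * p') d (y + p' * (2 * q' * d)) := h.nxtZ hy q' (by ring)
  have h2 : S P Q (2 * p') d (y + 2 * p' * (2 * q' * d)) := h.nxtZ hy (2 * q') (by ring)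
  rcases hy with hy | hy <;> rcases h1 with h1 | h1 <;> rcases h2 with h2 | h2
  · exact h.pp _ _ p' (by omega) (by omega) rfl hy h1
  · exact h.pp _ _ p' (by omega) (by omega) rfl hy h1
  · exact h.pp _ _ (2 * p') (by omega) (by omega) rfl hy h2
  · exact h.qq _ _ p' (by omega) (by omega) (by ring) h1 h2
  · exact h.pp _ _ p' (by omega) (by omega) (by ring) h1 h2
  · exact h.qq _ _ (2 * p') (by omega) (by omega) (by ring) hy h2
  · exact h.qq _ _ p' (by omega) (by omega) (by ring) hy h1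
  · exact h.qq _ _ p' (by omega) (by omega) (by ring) hy h1

theorem alt_p (h : W0 p s q d e T P Q) (hsp : p < s) {y : ℤ} (hy : P y) :
    Q (y + p * (q * d) + (p - 1) * d) := by
  have hp : 3 ≤ p := h.hp
  rcases h.nxtZ (z := y + p * (q * d)) (h.sp hy rfl) q (by ring) with h1 | h1
  · exact absurd h1 fun h1 => h.pp _ _ p (by omega) (by omega) rfl hy h1
  · exact h1

theorem alt_q (h : W0 p s q d e T P Q) (hsp : p < s) {y : ℤ} (hy : Q y) :
    P (y + p * (q * d) - (p - 1) * d) := by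
  have hp : 3 ≤ p := h.hp
  rcases h.nxtZ (y := y - (p - 1) * d) (z := y + p * (q * d) - (p - 1) * d) (h.sq hy (by ring)) q
    (by ring) with h1 | h1
  · exact h1
  · exact absurd h1 fun h1 => h.qq _ _ p (by omega) (by omega) (by ring) hy h1

theorem alt_pp (h : W0 p s q d e T P Q) (hsp : p < s) {y z : ℤ} (hy : P y) (w : ℤ)
    (hz : z = y + w * (2 * (p * (q * d)))) : P z :=
  iterZ h.hT h.pP (fun x hx => tr (h.alt_q hsp (h.alt_p hsp hx)) (by ring)) hy w hz

/-- every short row contains an interval of type `P` -/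
theorem ex_p (h : W0 p s q d e T P Q) (hsp : p < s) {z : ℤ} (hz : Sr P Q p d z) :
    ∃ i : ℤ, P (z + i * d) := by
  obtain ⟨i, hi | hi⟩ := hz
  · exact ⟨i, hi⟩
  · exact ⟨i + p * q, tr (h.alt_q hsp hi) (by ring)⟩

theorem ex_q (h : W0 p s q d e T P Q) (hsp : p < s) {z : ℤ} (hz : Sr P Q p d z) :
    ∃ i : ℤ, Q (z + i * d) := by
  obtain ⟨i, hi⟩ := h.ex_p hsp hz
  exact ⟨i + p * q + (p - 1), tr (h.alt_p hsp hi) (by ring)⟩

theorem big_s (h : W0 p s q d e T P Q) (hsp : p < s) : s = 2 * p := by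
  have hp : 3 ≤ p := h.hp
  obtain ⟨y, hy⟩ := h.ex_s
  obtain ⟨i, hi⟩ := h.ex_p hsp (h.sr_of hy 0 (by ring) : Sr P Q p d y)
  have h1 := h.alt_pp hsp hi 1 rfl
  obtain ⟨w, hw⟩ := h.luniq (h.lp hi rfl) (h.lp h1 rfl) (2 * p) (by ring)
  have hw0 : 0 < w := by
    by_contra hcon
    have : s * w ≤ 0 := mul_nonpos_of_nonneg_of_nonpos (by omega) (by omega)
    omega
  rcases (show w = 1 ∨ 2 ≤ w by omega) with h2 | h2
  · rw [h2] at hw; omega
  · have : s * 2 ≤ s * w := mul_le_mul_of_nonneg_left h2 (by omega)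
    omega

theorem big_rows (h : W0 p s q d e T P Q) (hsp : p < s) {z : ℤ} (hz : Sr P Q p d z) :
    ¬ Sr P Q p d (z + e) ∧ ¬ Sr P Q p d (z + 2 * e) ∧ Sr P Q p d (z + 3 * e) := by
  have hp : 3 ≤ p := h.hp
  have hs2 := h.big_s hsp
  obtain ⟨a, b, hab⟩ := h.big_coprime hsp
  obtain ⟨i0, h0⟩ := h.ex_p hsp hz
  have h1 : ¬ Sr P Q p d (z + e) := h.nsr_of (h.lp h0 rfl) i0 (by ring)
  have h2 : ¬ Sr P Q p d (z + 2 * e) := by
    intro h2
    obtain ⟨i1, hx1⟩ := h.ex_q hsp h2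
    -- the cell `u` of the row `z + e`
    set u := z + 2 * e + i1 * d - e - (s - 1) * (q * d) with hu
    obtain ⟨i2, hi2⟩ : ∃ i2 : ℤ, i2 = i1 - (s - 1) * q := ⟨_, rfl⟩
    have hu2 : u = z + e + i2 * d := by rw [hu, hi2]; ring
    have hlu : L P Q q s d e u := h.lq hx1 (by rw [hu]; ring)
    obtain ⟨y', m', hy', hym⟩ : ∃ y' m', P y' ∧ y' + e = u + m' * (q * d) := by
      have h3 : S P Q p d (z + i0 * d + (a * (i2 - i0)) * (p * d)) :=
        h.nxtZ (h.sp h0 rfl) (a * (i2 - i0)) rfl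
      rcases h3 with h3 | h3
      · exact ⟨_, -b * (i2 - i0), h3, by
          rw [hu2]; linear_combination ((i2 - i0) * d) * hab⟩
      · exact ⟨_, -b * (i2 - i0) + p, h.alt_q hsp h3, by
          rw [hu2]; linear_combination ((i2 - i0) * d) * hab⟩
    obtain ⟨w, hw⟩ := h.luniq hlu (h.lp hy' rfl) m' hym
    have h4 : P (u - e) := h.alt_pp hsp hy' (-w) (by
      rw [hw, hs2] at hym; linear_combination -hym)
    exact h.pl' h4 (tr hx1 (by rw [hu]; ring))
  refine ⟨h1, h2, ?_⟩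
  obtain ⟨x, m, -, -, hx, hl | hl⟩ := h.lcov h2 0
  · exact absurd (h.sr_of (h.sp hl rfl) (-m * q) (by linear_combination -hx)) h1
  · exact h.sr_of (h.sq (y := x + e + (s - 1) * (q * d) - (p - 1) * d) hl (by ring))
      ((s - 1) * q - (p - 1) - m * q) (by linear_combination -hx)

theorem sr_shift (z : ℤ) : Sr P Q p d (z + d * e) ↔ Sr P Q p d z := by
  rw [mul_comm]; exact sr_row e

theorem big (h : W0 p s q d e T P Q) (hsp : p < s) : s = 2 * p ∧ IsCoprime p q ∧ 3 ∣ d := by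
  refine ⟨h.big_s hsp, h.big_coprime hsp, ?_⟩
  obtain ⟨y, hy⟩ := h.ex_s
  exact three_dvd h.hd sr_shift (fun z hz => h.big_rows hsp hz) ⟨y, h.sr_of hy 0 (by ring)⟩

end W0

end MPae024f.Sc
end

section
/-! The case `3 ≤ q ≤ p`: necessary conditions for `s = p` and `s < p`. -/
namespace MPae024f.Sc

variable {P Q : ℤ → Prop} {p s q d e T : ℤ}

namespace W0

/-- in the even case, the two types of long progressions of a row have different parities -/
theorem par2 (h : W0 p s q d e T P Q) (hp2 : 2 ∣ p) (hq2 : 2 ∣ q) {x y : ℤ} (hx : P (x - e))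
    (hy : Q (y + e + (s - 1) * (q * d))) (i : ℤ) (hxy : y = x + i * d) : i % 2 = 1 := by
  by_contra hcon
  obtain ⟨p', rfl⟩ := hp2
  obtain ⟨q', rfl⟩ := hq2
  have hn : ¬ Sr P Q (2 * p') d x := h.nsr_of (h.lp hx (by ring) : L P Q (2 * q') s d e x) 0
    (by ring)
  obtain ⟨w, m, -, -, hw, hl | hl⟩ := h.lcov hn 1
  · obtain ⟨c, hc⟩ := h.dd hx hl (1 - m * (2 * q')) (by linear_combination -hw)
    have : 1 = 2 * (p' * c + m * q') := by linear_combination hc
    omega
  · obtain ⟨c, hc⟩ := h.uu hl hy (i - 1 + m * (2 * q')) (by rw [hxy]; linear_combination hw)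
    have : i = 1 + 2 * (p' * c - m * q') := by linear_combination hc
    omega

theorem both (h : W0 p s q d e T P Q) (hp2 : 2 ∣ p) (hq2 : 2 ∣ q) {z : ℤ}
    (hz : ¬ Sr P Q p d z) : (∃ i : ℤ, P (z + i * d - e)) ∧
      ∃ i : ℤ, Q (z + i * d + e + (s - 1) * (q * d)) := by
  obtain ⟨p', rfl⟩ := hp2
  obtain ⟨q', rfl⟩ := hq2
  obtain ⟨x, m, -, -, hx, hl⟩ := h.lcov hz 0
  obtain ⟨x', m', -, -, hx', hl'⟩ := h.lcov hz 1
  have e1 : x = z + (-m * (2 * q')) * d := by linear_combination -hx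
  have e2 : x' = z + (1 - m' * (2 * q')) * d := by linear_combination -hx'
  rcases hl with hl | hl <;> rcases hl' with hl' | hl'
  · obtain ⟨c, hc⟩ := h.dd hl hl' (1 - m' * (2 * q') + m * (2 * q')) (by rw [e1, e2]; ring)
    have : 1 = 2 * (p' * c + m' * q' - m * q') := by linear_combination hc
    omega
  · exact ⟨⟨_, by rw [← e1]; exact hl⟩, ⟨_, by rw [← e2]; exact hl'⟩⟩
  · exact ⟨⟨_, by rw [← e2]; exact hl'⟩, ⟨_, by rw [← e1]; exact hl⟩⟩
  · obtain ⟨c, hc⟩ := h.uu hl hl' (1 - m' * (2 * q') + m * (2 * q')) (by rw [e1, e2]; ring)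
    have : 1 = 2 * (p' * c + m' * q' - m * q') := by linear_combination hc
    omega

/-! ### `s = p`, coprime case -/

def Alpha (P Q : ℤ → Prop) (p s q d e z : ℤ) : Prop :=
  (Sr P Q p d z ∧ ¬ ∀ i : ℤ, S P Q p d (z + i * d) → P (z + i * d)) ∨
    (¬ Sr P Q p d z ∧ ∀ i : ℤ, L P Q q s d e (z + i * d) → P (z + i * d - e))

theorem alpha_row (z j : ℤ) : Alpha P Q p s q d e (z + j * d) ↔ Alpha P Q p s q d e z := by
  unfold Alpha
  rw [sr_row]
  have h1 : (∀ i : ℤ, S P Q p d (z + j * d + i * d) → P (z + j * d + i * d)) ↔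
      ∀ i : ℤ, S P Q p d (z + i * d) → P (z + i * d) := by
    constructor
    · intro h i hi
      exact tr (h (i - j) (tr hi (by ring))) (by ring)
    · intro h i hi
      exact tr (h (i + j) (tr hi (by ring))) (by ring)
  have h2 : (∀ i : ℤ, L P Q q s d e (z + j * d + i * d) → P (z + j * d + i * d - e)) ↔
      ∀ i : ℤ, L P Q q s d e (z + i * d) → P (z + i * d - e) := by
    constructor
    · intro h i hi
      exact tr (h (i - j) (tr hi (by ring))) (by ring)
    · intro h i hi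
      exact tr (h (i + j) (tr hi (by ring))) (by ring)
  rw [h1, h2]

theorem alpha_step (h : W0 p s q d e T P Q) (hsp : s = p) (hc : IsCoprime p q) (z : ℤ) :
    Alpha P Q p s q d e (z + e) ↔ ¬ Alpha P Q p s q d e z := by
  obtain ⟨a, b, hab⟩ := hc
  by_cases h1 : Sr P Q p d z <;> by_cases h2 : Sr P Q p d (z + e)
  · -- both short
    have e1 : Alpha P Q p s q d e z := by
      refine Or.inl ⟨h1, fun hall => ?_⟩
      obtain ⟨i, hi⟩ := h1
      exact h.nsr_of (h.lp (hall i hi) rfl) i (by ring) h2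
    have e2 : ¬ Alpha P Q p s q d e (z + e) := by
      rintro (⟨-, h3⟩ | ⟨h3, -⟩)
      · apply h3
        rintro i (hi | hi)
        · exact hi
        · exact absurd h1 (h.nsr_of (h.lq (y := z + e + i * d + (p - 1) * d - e -
            (s - 1) * (q * d)) hi (by ring)) (i + (p - 1) - (s - 1) * q) (by ring))
      · exact h3 h2
    tauto
  · -- short, long
    have key : (∀ i : ℤ, S P Q p d (z + i * d) → P (z + i * d)) ↔
        ∀ i : ℤ, L P Q q s d e (z + e + i * d) → P (z + e + i * d - e) := by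
      constructor
      · intro hall i hi
        obtain ⟨j, hj⟩ := h1
        have h3 : S P Q p d (z + (i - b * (i - j) * q) * d) := h.nxtZ hj (a * (i - j)) (by
          linear_combination (-(i - j) * d) * hab)
        obtain ⟨w, hw⟩ := h.luniq hi (h.lp (hall _ h3) rfl) (-b * (i - j)) (by ring)
        have h4 : S P Q p d (z + i * d) := h.nxtZ h3 (-w * q) (by
          rw [hsp] at hw; linear_combination (-q * d) * hw)
        exact tr (hall i h4) (by ring)
      · intro hall i hi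
        obtain ⟨x, m, hm0, hm1, hx, hl⟩ := h.lcov h2 i
        have e1 : x = z + e + (i - m * q) * d := by linear_combination -hx
        have h3 : P (z + (i - m * q) * d) := tr (hall (i - m * q) (by rw [← e1]; exact hl)) (by ring)
        have h4 : p ∣ m * q := h.suniq (h.sp h3 rfl) hi _ (by ring)
        have h5 : p ∣ m := IsCoprime.dvd_of_dvd_mul_right ⟨a, b, hab⟩ h4
        have h6 : m = 0 := Int.eq_zero_of_dvd_of_nonneg_of_lt hm0 (by omega) h5
        subst h6
        exact tr h3 (by ring)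
    have e1 : Alpha P Q p s q d e z ↔ ¬ ∀ i : ℤ, S P Q p d (z + i * d) → P (z + i * d) := by
      unfold Alpha
      tauto
    have e2 : Alpha P Q p s q d e (z + e) ↔
        ∀ i : ℤ, L P Q q s d e (z + e + i * d) → P (z + e + i * d - e) := by
      unfold Alpha
      tauto
    rw [e1, e2, ← key, not_not]
  · -- long, short
    have key : (∀ i : ℤ, L P Q q s d e (z + i * d) → P (z + i * d - e)) ↔
        ∀ i : ℤ, S P Q p d (z + e + i * d) → P (z + e + i * d) := by
      constructor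
      · rintro hall i (hi | hi)
        · exact hi
        · exfalso
          have h3 : Q (z + (i + (p - 1) - (s - 1) * q) * d + e + (s - 1) * (q * d)) :=
            tr hi (by ring)
          exact h.pl' (hall (i + (p - 1) - (s - 1) * q) (h.lq h3 rfl)) h3
      · rintro hall i (hi | hi)
        · exact hi
        · exfalso
          have h3 : Q (z + e + (i + (s - 1) * q - (p - 1)) * d + (p - 1) * d) := tr hi (by ring)
          exact h.ps' (hall (i + (s - 1) * q - (p - 1)) (h.sq h3 rfl)) h3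
    have e1 : Alpha P Q p s q d e z ↔
        ∀ i : ℤ, L P Q q s d e (z + i * d) → P (z + i * d - e) := by
      unfold Alpha
      tauto
    have e2 : Alpha P Q p s q d e (z + e) ↔
        ¬ ∀ i : ℤ, S P Q p d (z + e + i * d) → P (z + e + i * d) := by
      unfold Alpha
      tauto
    rw [e1, e2, key]
  · -- both long
    have e1 : Alpha P Q p s q d e z := by
      refine Or.inr ⟨h1, ?_⟩
      rintro i (hi | hi)
      · exact hi
      · exact absurd (h.sr_of (h.sq (y := z + i * d + e + (s - 1) * (q * d) - (p - 1) * d) hi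
          (by ring)) (i + (s - 1) * q - (p - 1)) (by ring)) h2
    have e2 : ¬ Alpha P Q p s q d e (z + e) := by
      rintro (⟨h3, -⟩ | ⟨-, h3⟩)
      · exact h2 h3
      · obtain ⟨x, m, -, -, hx, hl⟩ := h.lcov h2 0
        have e1 : x = z + e + (-m * q) * d := by linear_combination -hx
        exact h1 (h.sr_of (h.sp (h3 (-m * q) (by rw [← e1]; exact hl)) rfl) (-m * q) (by ring))
    tauto

theorem eq_coprime (h : W0 p s q d e T P Q) (hsp : s = p) (hc : IsCoprime p q) : 2 ∣ d :=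
  two_dvd (e := e) h.hd (fun z => by rw [mul_comm]; exact alpha_row z e)
    (fun z => h.alpha_step hsp hc z)

/-! ### `s = p`, even case -/

theorem eq_even (h : W0 p s q d e T P Q) (hde : IsCoprime d e) (hsp : s = p) {p' q' : ℤ}
    (hp' : p = 2 * p') (hq' : q = 2 * q') : False := by
  have hp : 3 ≤ p := h.hp
  have h1 : ∀ z, Sr P Q p d z → ¬ Sr P Q p d (z + e) := by
    intro z hz hz'
    obtain ⟨i, hi⟩ := hz
    have key : ∀ j : ℤ, S P Q p d (z + j * d) → Q (z + j * d + (p - 1) * d) := by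
      rintro j (hj | hj)
      · exact absurd hz' (h.nsr_of (h.lp hj rfl) j (by ring))
      · exact hj
    have h3 : S P Q p d (z + (i + q' * p) * d) := h.nxtZ hi q' (by ring)
    exact h.qq _ _ p' (by omega) (by omega) (by rw [hp', hq']; ring) (key _ hi) (key _ h3)
  have h2 : ∀ z, Sr P Q p d (z + e) ↔ ¬ Sr P Q p d z := by
    intro z
    constructor
    · intro h3 h4
      exact h1 z h4 h3
    · intro h3
      obtain ⟨-, i, hi⟩ := h.both ⟨p', hp'⟩ ⟨q', hq'⟩ h3
      exact h.sr_of (h.sq (y := z + i * d + e + (s - 1) * (q * d) - (p - 1) * d) hi (by ring))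
        (i + (s - 1) * q - (p - 1)) (by ring)
  have h3 : 2 ∣ d := two_dvd h.hd sr_shift h2
  have h4 : ∀ y, S P Q p d y → ∃ i : ℤ, S P Q p d (y + 2 * e + 2 * i * d) := by
    intro y hy
    have h5 : ¬ Sr P Q p d (y + e) := h1 y (h.sr_of hy 0 (by ring))
    obtain ⟨⟨i, hi⟩, j, hj⟩ := h.both ⟨p', hp'⟩ ⟨q', hq'⟩ h5
    obtain ⟨c, hc⟩ := h.suniq hy (h.sp hi rfl) i (by ring)
    have h6 := h.par2 ⟨p', hp'⟩ ⟨q', hq'⟩ hi hj (j - i) (by ring)
    obtain ⟨t, ht⟩ : ∃ t, j - i = 2 * t + 1 := ⟨(j - i) / 2, by omega⟩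
    have h7 : S P Q p d (y + e + j * d + e + (s - 1) * (q * d) - (p - 1) * d) :=
      h.sq hj (by ring)
    refine ⟨t + p' * c + (s - 1) * q' - p' + 1, tr h7 ?_⟩
    rw [hp'] at hc
    rw [hp', hq']
    linear_combination d * ht + d * hc
  have h5 : ∀ (k : ℕ) y, S P Q p d y → ∃ i : ℤ, S P Q p d (y + 2 * k * e + 2 * i * d) := by
    intro k
    induction k with
    | zero => intro y hy; exact ⟨0, tr hy (by push_cast; ring)⟩
    | succ k ih =>
      intro y hy
      obtain ⟨i, hi⟩ := ih y hy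
      obtain ⟨j, hj⟩ := h4 _ hi
      exact ⟨i + j, tr hj (by push_cast; ring)⟩
  obtain ⟨y, hy⟩ := h.ex_s
  obtain ⟨d', hd'⟩ := h3
  have hd := h.hd
  obtain ⟨i, hi⟩ := h5 d'.toNat y hy
  rw [show ((d'.toNat : ℕ) : ℤ) = d' by omega] at hi
  obtain ⟨c, hc⟩ := h.suniq hy hi (e + 2 * i) (by linear_combination (-e) * hd')
  obtain ⟨a, b, hab⟩ := hde
  rw [hp'] at hc
  have : 1 = 2 * (a * d' + b * (p' * c - i)) := by
    linear_combination -hab + a * hd' + b * hc
  omega

/-! ### `s < p` -/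

theorem small_s (h : W0 p s q d e T P Q) (hsp : s < p) : p = 2 * s := by
  have hp : 3 ≤ p := h.hp
  have hs := h.hs
  have fin : ∀ w : ℤ, 2 * s = p * w → p = 2 * s := by
    intro w hw
    have hw0 : 0 < w := by
      by_contra hcon
      have : p * w ≤ 0 := mul_nonpos_of_nonneg_of_nonpos (by omega) (by omega)
      omega
    rcases (show w = 1 ∨ 2 ≤ w by omega) with h2 | h2
    · rw [h2] at hw; omega
    · have : p * 2 ≤ p * w := mul_le_mul_of_nonneg_left h2 (by omega)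
      omega
  obtain ⟨y, hy⟩ := h.ex_l
  have h1 : L P Q q s d e (y + s * q * d) := h.lnx hy (by ring)
  have h2 : L P Q q s d e (y + 2 * s * q * d) := h.lnx h1 (by ring)
  rcases h.gcd_cases with hc | ⟨p', q', hp', hq', hc⟩
  · have e1 : ∀ m : ℤ, (m = s ∨ m = 2 * s) → p ∣ m * q → p = 2 * s := by
      intro m hm h3
      obtain ⟨w, hw⟩ := hc.dvd_of_dvd_mul_right h3
      rcases hm with rfl | rfl
      · exact fin (2 * w) (by rw [hw]; ring)
      · exact fin w hw
    rcases hy with hy | hy <;> rcases h1 with h1 | h1 <;> rcases h2 with h2 | h2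
    · exact e1 s (Or.inl rfl) (h.dd hy h1 _ (by ring))
    · exact e1 s (Or.inl rfl) (h.dd hy h1 _ (by ring))
    · exact e1 (2 * s) (Or.inr rfl) (h.dd hy h2 _ (by ring))
    · exact e1 s (Or.inl rfl) (h.uu h1 h2 _ (by ring))
    · exact e1 s (Or.inl rfl) (h.dd h1 h2 _ (by ring))
    · exact e1 (2 * s) (Or.inr rfl) (h.uu hy h2 _ (by ring))
    · exact e1 s (Or.inl rfl) (h.uu hy h1 _ (by ring))
    · exact e1 s (Or.inl rfl) (h.uu hy h1 _ (by ring))
  · have e1 : p ∣ s * q → p = 2 * s := by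
      rintro ⟨w, hw⟩
      rw [hp', hq'] at hw
      have h3 : p' ∣ s * q' := ⟨w, by linarith⟩
      obtain ⟨w', hw'⟩ := hc.dvd_of_dvd_mul_right h3
      exact fin w' (by rw [hp', hw']; ring)
    rcases hy with hy | hy <;> rcases h1 with h1 | h1
    · exact e1 (h.dd hy h1 _ (by ring))
    · have h3 := h.par2 ⟨p', hp'⟩ ⟨q', hq'⟩ hy h1 (s * q) rfl
      rw [hq', show s * (2 * q') = 2 * (s * q') by ring] at h3
      omega
    · have h3 := h.par2 ⟨p', hp'⟩ ⟨q', hq'⟩ h1 hy (-(s * q)) (by ring)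
      rw [hq', show -(s * (2 * q')) = 2 * (-(s * q')) by ring] at h3
      omega
    · exact e1 (h.uu hy h1 _ (by ring))

/-- below a long row: a short row with all intervals of type `P` -/
theorem below (h : W0 p s q d e T P Q) (hsp : s < p) {z : ℤ} (hz : ¬ Sr P Q p d z) :
    Sr P Q p d (z - e) ∧ ∀ i : ℤ, S P Q p d (z - e + i * d) → P (z - e + i * d) := by
  have hp : 3 ≤ p := h.hp
  have hs := h.hs
  have hp2 := h.small_s hsp
  have hex : ∃ j : ℤ, P (z + j * d - e) := by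
    rcases h.gcd_cases with hc | ⟨p', q', hp', hq', hc⟩
    · obtain ⟨x, m, -, -, hx, hl⟩ := h.lcov hz 0
      have e1 : x = z + (-m * q) * d := by linear_combination -hx
      have hl' : L P Q q s d e (x + s * q * d) := h.lnx hl (by ring)
      rcases hl with hl | hl
      · exact ⟨-m * q, by rw [← e1]; exact hl⟩
      · rcases hl' with hl' | hl'
        · exact ⟨-m * q + s * q, tr hl' (by rw [e1]; ring)⟩
        · exfalso
          have h4 := hc.dvd_of_dvd_mul_right (h.uu hl hl' (s * q) (by ring))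
          have h5 : s = 0 := Int.eq_zero_of_dvd_of_nonneg_of_lt (by omega) (by omega) h4
          omega
    · exact (h.both ⟨p', hp'⟩ ⟨q', hq'⟩ hz).1
  obtain ⟨j, hj⟩ := hex
  refine ⟨h.sr_of (h.sp hj rfl) j (by ring), fun i hi => ?_⟩
  obtain ⟨w, m, hm0, hm1, hw, hl⟩ := h.lcov hz i
  obtain ⟨c, hc⟩ := h.suniq (h.sp hj rfl) hi (i - j) (by ring)
  rcases h.gcd_cases with hcop | ⟨p', q', hp', hq', hcop⟩
  · rcases hl with hl | hl
    · have h3 := hcop.dvd_of_dvd_mul_right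
        (h.suniq (h.sp hl rfl) hi (m * q) (by linear_combination hw))
      have h5 : m = 0 := Int.eq_zero_of_dvd_of_nonneg_of_lt hm0 (by omega) h3
      subst h5
      exact tr hl (by linear_combination -hw)
    · exfalso
      have hl' : L P Q q s d e (w + s * q * d) := h.lnx (h.lq hl rfl) (by ring)
      rcases hl' with hl' | hl'
      · have h3 := hcop.dvd_of_dvd_mul_right
          (h.suniq hi (h.sp hl' rfl) ((s - m) * q) (by linear_combination -hw))
        have h5 : s - m = 0 := Int.eq_zero_of_dvd_of_nonneg_of_lt (by omega) (by omega) h3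
        omega
      · have h4 := hcop.dvd_of_dvd_mul_right (h.uu hl hl' (s * q) (by ring))
        have h5 : s = 0 := Int.eq_zero_of_dvd_of_nonneg_of_lt (by omega) (by omega) h4
        omega
  · rcases hl with hl | hl
    · obtain ⟨t, ht⟩ := h.suniq (h.sp hl rfl) hi (m * q) (by linear_combination hw)
      rw [hp', hq'] at ht
      have h3 : p' ∣ m * q' := ⟨t, by linarith⟩
      have h4 := hcop.dvd_of_dvd_mul_right h3
      have h5 : m = 0 := Int.eq_zero_of_dvd_of_nonneg_of_lt hm0 (by omega) h4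
      subst h5
      exact tr hl (by linear_combination -hw)
    · exfalso
      have h3 := h.par2 ⟨p', hp'⟩ ⟨q', hq'⟩ hj hl (i - j - m * q) (by linear_combination -hw)
      rw [hc, hp', hq', show 2 * p' * c - m * (2 * q') = 2 * (p' * c - m * q') by ring] at h3
      omega

theorem mirS (x : ℤ) : S (fun n => Q (n + (p - 1) * d)) (fun n => P (n - (p - 1) * d)) p d x ↔
    S P Q p d x := by
  unfold S
  simp only
  rw [show x + (p - 1) * d - (p - 1) * d = x by ring]
  exact or_comm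

theorem above (h : W0 p s q d e T P Q) (hsp : s < p) {z : ℤ} (hz : ¬ Sr P Q p d z) :
    Sr P Q p d (z + e) ∧ ∀ i : ℤ, S P Q p d (z + e + i * d) → Q (z + e + i * d + (p - 1) * d) := by
  have h1 : ¬ Sr (fun n => Q (n + (p - 1) * d)) (fun n => P (n - (p - 1) * d)) p d z := by
    rintro ⟨i, hi⟩
    exact hz ⟨i, (mirS _).1 hi⟩
  obtain ⟨⟨i, hi⟩, h3⟩ := h.mir.below hsp h1
  have e1 : ∀ i : ℤ, z - (-e - (s - 1) * (q * d) + (p - 1) * d) + i * d =
      z + e + (i + (s - 1) * q - (p - 1)) * d := fun i => by ring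
  refine ⟨⟨i + (s - 1) * q - (p - 1), ?_⟩, fun j hj => ?_⟩
  · rw [← e1]
    exact (mirS _).1 hi
  · have h4 := h3 (j - (s - 1) * q + (p - 1)) ((mirS _).2 (tr hj (by ring)))
    exact tr (R := Q) h4 (by ring)

theorem small (h : W0 p s q d e T P Q) (hsp : s < p) : 3 ∣ d := by
  have h1 : ∀ z, ¬ Sr P Q p d z → ¬ ¬ Sr P Q p d (z + e) ∧ ¬ ¬ Sr P Q p d (z + 2 * e) ∧
      ¬ Sr P Q p d (z + 3 * e) := by
    intro z hz
    obtain ⟨⟨i, hi⟩, h2⟩ := h.above hsp hz
    have h3 : Sr P Q p d (z + 2 * e) := by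
      by_contra hcon
      have h4 := (h.below hsp hcon).2 i (tr hi (by ring))
      exact h.ps' h4 (tr (h2 i hi) (by ring))
    refine ⟨fun hc => hc ⟨i, hi⟩, fun hc => hc h3, ?_⟩
    obtain ⟨j, hj | hj⟩ := h3
    · exact h.nsr_of (h.lp hj rfl) j (by ring)
    · exact absurd ⟨i, hi⟩ (h.nsr_of (h.lq (y := z + 2 * e + j * d + (p - 1) * d - e -
        (s - 1) * (q * d)) hj (by ring)) (j + (p - 1) - (s - 1) * q) (by ring))
  obtain ⟨y, hy⟩ := h.ex_l
  exact three_dvd (R := fun z => ¬ Sr P Q p d z) h.hd (fun z => not_congr (sr_shift z)) h1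
    ⟨y, h.nsr_of hy 0 (by ring)⟩

/-- the necessary conditions -/
theorem nec (h : W0 p s q d e T P Q) (hde : IsCoprime d e) :
    (p = 2 * s ∧ Int.gcd p q ≤ 2 ∧ 3 ∣ d) ∨ (p = s ∧ Int.gcd p q = 1 ∧ 2 ∣ d) ∨
      (s = 2 * p ∧ Int.gcd p q = 1 ∧ 3 ∣ d) := by
  have hg : Int.gcd p q ≤ 2 := by
    rcases h.gcd_cases with hc | ⟨p', q', rfl, rfl, hc⟩
    · rw [Int.isCoprime_iff_gcd_eq_one] at hc
      omega
    · rw [Int.isCoprime_iff_gcd_eq_one] at hc
      rw [Int.gcd_mul_left, hc]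
      norm_num
  rcases lt_trichotomy s p with h1 | h1 | h1
  · exact Or.inl ⟨h.small_s h1, hg, h.small h1⟩
  · rcases h.gcd_cases with hc | ⟨p', q', hp', hq', hc⟩
    · exact Or.inr (Or.inl ⟨h1.symm, Int.isCoprime_iff_gcd_eq_one.1 hc, h.eq_coprime h1 hc⟩)
    · exact absurd (h.eq_even hde h1 hp' hq') id
  · obtain ⟨h2, h3, h4⟩ := h.big h1
    exact Or.inr (Or.inr ⟨h2, Int.isCoprime_iff_gcd_eq_one.1 h3, h4⟩)

end W0

end MPae024f.Sc
end

section
/-!
# The case `q = 2`, `p ≥ 3`: rows as words in short intervals and blocks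

A block `Bk b` consists of the two long progressions which start at `b` and `b + d`; it fills
`b, b + d, …, b + (2 s - 1) d`. In a row (class modulo `d`) with a short interval, all cells belong
to short intervals and blocks. A block has a type `ε = 0` or `1`: the progression which starts at
`b + ε d` belongs to a translate of `A`, the other one to a reflected copy.
-/
namespace MPae024f.Sc

open W0 (Sr sr_row)

variable {P Q : ℤ → Prop} {p s d e T : ℤ}

/-- a periodic tiling with `q = 2`, `p ≥ 3`, `s ≥ 2` -/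
structure V (p s d e T : ℤ) (P Q : ℤ → Prop) : Prop extends Til p s 2 d e P Q where
  hd : 0 < d
  hp : 3 ≤ p
  hs : 2 ≤ s
  hT : 0 < T
  pP : ∀ x, P (x + T) ↔ P x
  pQ : ∀ x, Q (x + T) ↔ Q x

/-- a block: two adjacent long progressions -/
def Blk (P Q : ℤ → Prop) (s d e b : ℤ) : Prop := L P Q 2 s d e b ∧ L P Q 2 s d e (b + d)

/-- a block of type `ε` -/
def BkE (P Q : ℤ → Prop) (s d e ε b : ℤ) : Prop :=
  P (b + ε * d - e) ∧ Q (b + (1 - ε) * d + e + (s - 1) * (2 * d))

/-- an item of length `n`: a short interval or a block -/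
def It (P Q : ℤ → Prop) (p s d e n z : ℤ) : Prop :=
  (n = p ∧ S P Q p d z) ∨ (n = 2 * s ∧ Blk P Q s d e z)

/-- there is a long progression in the row of `z` -/
def Lr (P Q : ℤ → Prop) (s d e z : ℤ) : Prop := ∃ i : ℤ, L P Q 2 s d e (z + i * d)

namespace V

theorem perS (h : V p s d e T P Q) (x k : ℤ) : S P Q p d (x + k * T) ↔ S P Q p d x := by
  unfold S
  rw [per_iter h.pP x k, show x + k * T + (p - 1) * d = x + (p - 1) * d + k * T by ring,
    per_iter h.pQ]

/-- the tiling with the roles of `A` and `-A` exchanged -/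
theorem mir (h : V p s d e T P Q) :
    V p s d (-e - (s - 1) * (2 * d) + (p - 1) * d) T (fun n => Q (n + (p - 1) * d))
      (fun n => P (n - (p - 1) * d)) := by
  have hS : ∀ x, S (fun n => Q (n + (p - 1) * d)) (fun n => P (n - (p - 1) * d)) p d x ↔
      S P Q p d x := by
    intro x
    unfold S
    simp only
    rw [show x + (p - 1) * d - (p - 1) * d = x by ring]
    exact or_comm
  have hL : ∀ x, L (fun n => Q (n + (p - 1) * d)) (fun n => P (n - (p - 1) * d)) 2 s d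
      (-e - (s - 1) * (2 * d) + (p - 1) * d) x ↔ L P Q 2 s d e x := by
    intro x
    unfold L
    simp only
    rw [show x - (-e - (s - 1) * (2 * d) + (p - 1) * d) + (p - 1) * d =
        x + e + (s - 1) * (2 * d) by ring,
      show x + (-e - (s - 1) * (2 * d) + (p - 1) * d) + (s - 1) * (2 * d) - (p - 1) * d =
        x - e by ring]
    exact or_comm
  refine { ex := fun n => ?_, ss := ?_, sl := ?_, ll := ?_, pp := ?_, qq := ?_, ps := ?_,
           pl := ?_, hd := h.hd, hp := h.hp, hs := h.hs, hT := h.hT, pP := ?_, pQ := ?_ }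
  · simp only [hS, hL]
    exact h.ex n
  · intro x y i
    simp only [hS]
    exact h.ss x y i
  · intro x y i j
    simp only [hS, hL]
    exact h.sl x y i j
  · intro x y i
    simp only [hL]
    exact h.ll x y i
  · intro x y i h0 h1 hxy hx hy
    exact h.qq (x + (p - 1) * d) (y + (p - 1) * d) i h0 h1 (by rw [hxy]; ring) hx hy
  · intro x y i h0 h1 hxy hx hy
    exact h.pp (x - (p - 1) * d) (y - (p - 1) * d) i h0 h1 (by rw [hxy]; ring) hx hy
  · intro x y hxy hx hy
    exact h.ps (y - (p - 1) * d) (x + (p - 1) * d) (by rw [hxy]; ring) hy hx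
  · intro x y hxy hx hy
    exact h.pl (y - (p - 1) * d) (x + (p - 1) * d) (by rw [hxy]; ring) hy hx
  · intro x
    rw [show x + T + (p - 1) * d = x + (p - 1) * d + T by ring]
    exact h.pQ _
  · intro x
    rw [show x + T - (p - 1) * d = x - (p - 1) * d + T by ring]
    exact h.pP _

theorem mirS (x : ℤ) : S (fun n => Q (n + (p - 1) * d)) (fun n => P (n - (p - 1) * d)) p d x ↔
    S P Q p d x := by
  unfold S
  simp only
  rw [show x + (p - 1) * d - (p - 1) * d = x by ring]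
  exact or_comm

theorem mirL (x : ℤ) : L (fun n => Q (n + (p - 1) * d)) (fun n => P (n - (p - 1) * d)) 2 s d
    (-e - (s - 1) * (2 * d) + (p - 1) * d) x ↔ L P Q 2 s d e x := by
  unfold L
  simp only
  rw [show x - (-e - (s - 1) * (2 * d) + (p - 1) * d) + (p - 1) * d =
      x + e + (s - 1) * (2 * d) by ring,
    show x + (-e - (s - 1) * (2 * d) + (p - 1) * d) + (s - 1) * (2 * d) - (p - 1) * d =
      x - e by ring]
  exact or_comm

theorem mirBlk (x : ℤ) : Blk (fun n => Q (n + (p - 1) * d)) (fun n => P (n - (p - 1) * d)) s d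
    (-e - (s - 1) * (2 * d) + (p - 1) * d) x ↔ Blk P Q s d e x := by
  unfold Blk
  rw [mirL, mirL]

theorem mirSr (x : ℤ) : Sr (fun n => Q (n + (p - 1) * d)) (fun n => P (n - (p - 1) * d)) p d x ↔
    Sr P Q p d x := by
  unfold Sr
  simp only [mirS]

theorem mirLr (x : ℤ) : Lr (fun n => Q (n + (p - 1) * d)) (fun n => P (n - (p - 1) * d)) s d
    (-e - (s - 1) * (2 * d) + (p - 1) * d) x ↔ Lr P Q s d e x := by
  unfold Lr
  simp only [mirL]

theorem sp (_ : V p s d e T P Q) {x y : ℤ} (h : P x) (hxy : x = y) : S P Q p d y :=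
  Or.inl (hxy ▸ h)

theorem sq (_ : V p s d e T P Q) {x y : ℤ} (h : Q x) (hxy : x = y + (p - 1) * d) :
    S P Q p d y := Or.inr (hxy ▸ h)

theorem lp (_ : V p s d e T P Q) {x y : ℤ} (h : P x) (hxy : x + e = y) : L P Q 2 s d e y :=
  Or.inl (by rw [← hxy, show x + e - e = x by ring]; exact h)

theorem lq (_ : V p s d e T P Q) {x y : ℤ} (h : Q x) (hxy : x = y + e + (s - 1) * (2 * d)) :
    L P Q 2 s d e y := Or.inr (hxy ▸ h)

theorem sr_of (_ : V p s d e T P Q) {x z : ℤ} (hx : S P Q p d x) (i : ℤ) (hz : x = z + i * d) :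
    Sr P Q p d z := ⟨i, by rw [← hz]; exact hx⟩

theorem lr_of (_ : V p s d e T P Q) {x z : ℤ} (hx : L P Q 2 s d e x) (i : ℤ)
    (hz : x = z + i * d) : Lr P Q s d e z := ⟨i, by rw [← hz]; exact hx⟩

theorem lr_row {z : ℤ} (j : ℤ) : Lr P Q s d e (z + j * d) ↔ Lr P Q s d e z := by
  constructor
  · rintro ⟨i, hi⟩
    exact ⟨i + j, tr hi (by ring)⟩
  · rintro ⟨i, hi⟩
    exact ⟨i - j, tr hi (by ring)⟩

theorem pl' (h : V p s d e T P Q) {x : ℤ} (h1 : P (x - e))
    (h2 : Q (x + e + (s - 1) * (2 * d))) : False := h.pl _ _ (by ring) h1 h2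

theorem ps' (h : V p s d e T P Q) {x : ℤ} (h1 : P x) (h2 : Q (x + (p - 1) * d)) : False :=
  h.ps _ _ rfl h1 h2

/-! ### disjointness of items -/

theorem bs (h : V p s d e T P Q) {b x : ℤ} (hb : Blk P Q s d e b) (hx : S P Q p d x)
    (i j : ℤ) (hi0 : 0 ≤ i) (hi1 : i < p) (hj0 : 0 ≤ j) (hj1 : j < 2 * s)
    (hxb : x + i * d = b + j * d) : False := by
  rcases Int.emod_two_eq_zero_or_one j with hj | hj
  · exact h.sl x b i (j / 2) hi0 hi1 (by omega) (by omega) (by
      have : j = 2 * (j / 2) := by omega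
      rw [hxb]; linear_combination d * this) hx hb.1
  · exact h.sl x (b + d) i (j / 2) hi0 hi1 (by omega) (by omega) (by
      have : j = 2 * (j / 2) + 1 := by omega
      rw [hxb]; linear_combination d * this) hx hb.2

theorem bl (h : V p s d e T P Q) {b y : ℤ} (hb : Blk P Q s d e b) (hy : L P Q 2 s d e y)
    (j : ℤ) (hj0 : 1 < j) (hj1 : j < 2 * s) (hyb : y = b + j * d) : False := by
  rcases Int.emod_two_eq_zero_or_one j with hj | hj
  · exact h.ll b y (j / 2) (by omega) (by omega) (by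
      have : j = 2 * (j / 2) := by omega
      rw [hyb]; linear_combination d * this) hb.1 hy
  · exact h.ll (b + d) y (j / 2) (by omega) (by omega) (by
      have : j = 2 * (j / 2) + 1 := by omega
      rw [hyb]; linear_combination d * this) hb.2 hy

theorem bb (h : V p s d e T P Q) {b b' : ℤ} (hb : Blk P Q s d e b) (hb' : Blk P Q s d e b')
    (j : ℤ) (hj0 : 0 < j) (hj1 : j < 2 * s) (hyb : b' = b + j * d) : False := by
  have hs := h.hs
  rcases (show j = 1 ∨ 1 < j by omega) with hj | hj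
  · exact h.ll b (b' + d) 1 (by omega) (by omega) (by rw [hyb, hj]; ring) hb.1 hb'.2
  · exact h.bl hb hb'.1 j hj hj1 hyb

theorem it_pos (h : V p s d e T P Q) {n z : ℤ} (hz : It P Q p s d e n z) : 3 ≤ n := by
  have hp := h.hp
  have hs := h.hs
  rcases hz with ⟨h1, -⟩ | ⟨h1, -⟩ <;> omega

/-- different items are disjoint -/
theorem it_dis (h : V p s d e T P Q) {n z n' z' : ℤ} (hz : It P Q p s d e n z)
    (hz' : It P Q p s d e n' z') (i : ℤ) (hi0 : 0 < i) (hi1 : i < n) (hzz : z' = z + i * d) :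
    False := by
  have hp := h.hp
  have hs := h.hs
  rcases hz with ⟨h1, h2⟩ | ⟨h1, h2⟩ <;> rcases hz' with ⟨h3, h4⟩ | ⟨h3, h4⟩
  · exact h.ss z z' i hi0 (by omega) hzz h2 h4
  · exact h.bs h4 h2 i 0 hi0.le (by omega) le_rfl (by omega) (by rw [hzz]; ring)
  · exact h.bs h2 h4 0 i le_rfl (by omega) hi0.le (by omega) (by rw [hzz]; ring)
  · exact h.bb h2 h4 i hi0 (by omega) hzz

theorem it_len (h : V p s d e T P Q) {n z n' : ℤ} (hz : It P Q p s d e n z)
    (hz' : It P Q p s d e n' z) : n = n' := by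
  have hp := h.hp
  have hs := h.hs
  rcases hz with ⟨h1, h2⟩ | ⟨h1, h2⟩ <;> rcases hz' with ⟨h3, h4⟩ | ⟨h3, h4⟩
  · omega
  · exact (h.bs h4 h2 0 0 le_rfl (by omega) le_rfl (by omega) rfl).elim
  · exact (h.bs h2 h4 0 0 le_rfl (by omega) le_rfl (by omega) rfl).elim
  · omega

/-! ### the next item -/

theorem nA (h : V p s d e T P Q) {x y : ℤ} (hx : S P Q p d x) (hy : y = x + p * d) :
    S P Q p d y ∨ Blk P Q s d e y := by
  have hp := h.hp
  have hs := h.hs
  subst hy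
  rcases h.ex (x + p * d) with ⟨z, m, h4, h5, h6, hz⟩ | ⟨z, m, h4, h5, h6, hz⟩
  · rcases (show m = 0 ∨ 1 ≤ m by omega) with h7 | h7
    · subst h7
      exact Or.inl (tr hz (by linear_combination -h6))
    · exact absurd hz fun hz => h.ss x z (p - m) (by omega) (by omega)
        (by linear_combination -h6) hx hz
  rcases (show m = 0 ∨ 1 ≤ m by omega) with h7 | h7
  swap
  · exact absurd hz fun hz => h.sl x z (p - 2) (m - 1) (by omega) (by omega) (by omega) (by omega)
      (by linear_combination h6) hx hz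
  subst h7
  have hl : L P Q 2 s d e (x + p * d) := tr hz (by linear_combination -h6)
  rcases h.ex (x + p * d + d) with ⟨w, m, k4, k5, k6, hw⟩ | ⟨w, m, k4, k5, k6, hw⟩
  · rcases (show m = 0 ∨ m = 1 ∨ 2 ≤ m by omega) with h7 | h7 | h7
    · subst h7
      exact absurd hw fun hw => h.sl w (x + p * d) 1 1 (by omega) (by omega) (by omega) (by omega)
        (by linear_combination -k6) hw hl
    · subst h7
      exact Or.inl (tr hw (by linear_combination -k6))
    · exact absurd hw fun hw => h.ss x w (p + 1 - m) (by omega) (by omega)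
        (by linear_combination -k6) hx hw
  · rcases (show m = 0 ∨ 1 ≤ m by omega) with h7 | h7
    · subst h7
      exact Or.inr ⟨hl, tr hw (by linear_combination -k6)⟩
    · exact absurd hw fun hw => h.sl x w (p - 1) (m - 1) (by omega) (by omega) (by omega)
        (by omega) (by linear_combination k6) hx hw

theorem nB (h : V p s d e T P Q) {b y : ℤ} (hb : Blk P Q s d e b) (hy : y = b + 2 * s * d) :
    S P Q p d y ∨ Blk P Q s d e y := by
  have hp := h.hp
  have hs := h.hs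
  subst hy
  rcases h.ex (b + 2 * s * d) with ⟨z, m, h4, h5, h6, hz⟩ | ⟨z, m, h4, h5, h6, hz⟩
  · rcases (show m = 0 ∨ 1 ≤ m by omega) with h7 | h7
    · subst h7
      exact Or.inl (tr hz (by linear_combination -h6))
    · exact absurd hz fun hz => h.bs hb hz (m - 1) (2 * s - 1) (by omega) (by omega) (by omega)
        (by omega) (by linear_combination -h6)
  rcases (show m = 0 ∨ 1 ≤ m by omega) with h7 | h7
  swap
  · exact absurd hz fun hz => h.ll b z (s - m) (by omega) (by omega)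
      (by linear_combination -h6) hb.1 hz
  subst h7
  have hl : L P Q 2 s d e (b + 2 * s * d) := tr hz (by linear_combination -h6)
  rcases h.ex (b + 2 * s * d + d) with ⟨w, m, k4, k5, k6, hw⟩ | ⟨w, m, k4, k5, k6, hw⟩
  · rcases (show m = 0 ∨ m = 1 ∨ 2 ≤ m by omega) with h7 | h7 | h7
    · subst h7
      exact absurd hw fun hw => h.sl w (b + 2 * s * d) 1 1 (by omega) (by omega) (by omega)
        (by omega) (by linear_combination -k6) hw hl
    · subst h7
      exact Or.inl (tr hw (by linear_combination -k6))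
    · exact absurd hw fun hw => h.bs hb hw (m - 2) (2 * s - 1) (by omega) (by omega) (by omega)
        (by omega) (by linear_combination -k6)
  · rcases (show m = 0 ∨ 1 ≤ m by omega) with h7 | h7
    · subst h7
      exact Or.inr ⟨hl, tr hw (by linear_combination -k6)⟩
    · exact absurd hw fun hw => h.ll (b + d) w (s - m) (by omega) (by omega)
        (by linear_combination -k6) hb.2 hw

theorem it_next (h : V p s d e T P Q) {n z y : ℤ} (hz : It P Q p s d e n z)
    (hy : y = z + n * d) : ∃ n', It P Q p s d e n' y := by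
  rcases hz with ⟨rfl, h2⟩ | ⟨rfl, h2⟩
  · rcases h.nA h2 hy with h3 | h3
    · exact ⟨_, Or.inl ⟨rfl, h3⟩⟩
    · exact ⟨_, Or.inr ⟨rfl, h3⟩⟩
  · rcases h.nB h2 hy with h3 | h3
    · exact ⟨_, Or.inl ⟨rfl, h3⟩⟩
    · exact ⟨_, Or.inr ⟨rfl, h3⟩⟩

/-- walking to the right -/
theorem walk (h : V p s d e T P Q) (k : ℕ) : ∀ {n z : ℤ}, It P Q p s d e n z →
    ∃ n' z' j, It P Q p s d e n' z' ∧ 0 ≤ j ∧ j < n' ∧ z + k * d = z' + j * d := by
  induction k using Nat.strong_induction_on with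
  | _ k ih =>
    intro n z hz
    have hn := h.it_pos hz
    rcases lt_or_ge (k : ℤ) n with h1 | h1
    · exact ⟨n, z, k, hz, by omega, h1, rfl⟩
    · obtain ⟨n', hn'⟩ := h.it_next hz rfl
      obtain ⟨m, hm⟩ : ∃ m : ℕ, (m : ℤ) = k - n := ⟨(k - n).toNat, by omega⟩
      obtain ⟨n'', z'', j, h2, h3, h4, h5⟩ := ih m (by omega) hn'
      exact ⟨n'', z'', j, h2, h3, h4, by rw [← h5, hm]; ring⟩

/-- in a row with a short interval every cell lies in an item -/
theorem cell (h : V p s d e T P Q) {z : ℤ} (hz : Sr P Q p d z) (i : ℤ) :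
    ∃ n z' j, It P Q p s d e n z' ∧ 0 ≤ j ∧ j < n ∧ z + i * d = z' + j * d := by
  obtain ⟨i0, hi0⟩ := hz
  have hT := h.hT
  -- go far to the left
  obtain ⟨k, hk⟩ : ∃ k : ℕ, (k : ℤ) = i - i0 + (i - i0).natAbs * T := by
    refine ⟨(i - i0 + (i - i0).natAbs * T).toNat, ?_⟩
    have : ((i - i0).natAbs : ℤ) * 1 ≤ (i - i0).natAbs * T :=
      mul_le_mul_of_nonneg_left (by omega) (Int.natCast_nonneg _)
    omega
  have h1 : S P Q p d (z + i0 * d + (-((i - i0).natAbs * d)) * T) := (h.perS _ _).2 hi0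
  obtain ⟨n, z', j, h2, h3, h4, h5⟩ := h.walk k (Or.inl ⟨rfl, h1⟩ : It P Q p s d e p _)
  refine ⟨n, z', j, h2, h3, h4, ?_⟩
  rw [← h5, hk]
  ring

/-- the item before an item -/
theorem prev (h : V p s d e T P Q) {n y : ℤ} (hy : It P Q p s d e n y) (hr : Sr P Q p d y) :
    ∃ n' z, It P Q p s d e n' z ∧ y = z + n' * d := by
  obtain ⟨n', z, j, h1, h2, h3, h4⟩ := h.cell hr (-1)
  rcases (show j = n' - 1 ∨ j + 1 < n' by omega) with h5 | h5
  · exact ⟨n', z, h1, by rw [h5] at h4; linear_combination h4⟩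
  · exact (h.it_dis h1 hy (j + 1) (by omega) h5 (by linear_combination h4)).elim

/-- in a row with a short interval every long progression belongs to a block -/
theorem inblk (h : V p s d e T P Q) {y : ℤ} (hr : Sr P Q p d y) (hy : L P Q 2 s d e y) :
    Blk P Q s d e y ∨ Blk P Q s d e (y - d) := by
  have hs := h.hs
  obtain ⟨n, z, j, h1, h2, h3, h4⟩ := h.cell hr 0
  rcases h1 with ⟨rfl, h1⟩ | ⟨rfl, h1⟩
  · exact (h.sl z y j 0 h2 h3 le_rfl (by omega) (by linear_combination -h4) h1 hy).elim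
  · rcases (show j = 0 ∨ j = 1 ∨ 1 < j by omega) with h5 | h5 | h5
    · exact Or.inl (tr h1 (by rw [h5] at h4; linear_combination -h4))
    · exact Or.inr (tr h1 (by rw [h5] at h4; linear_combination -h4))
    · exact (h.bl h1 hy j h5 h3 (by linear_combination h4)).elim

/-! ### types -/

theorem typ (h : V p s d e T P Q) {b : ℤ} (hb : Blk P Q s d e b) :
    ∃ ε, (ε = 0 ∨ ε = 1) ∧ BkE P Q s d e ε b := by
  have hp := h.hp
  obtain ⟨h1 | h1, h2 | h2⟩ := hb
  · exact (h.ss (b - e) (b + d - e) 1 (by omega) (by omega) (by ring) (Or.inl h1)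
      (Or.inl h2)).elim
  · exact ⟨0, Or.inl rfl, tr h1 (by ring), tr h2 (by ring)⟩
  · exact ⟨1, Or.inr rfl, tr h2 (by ring), tr h1 (by ring)⟩
  · exact (h.ss (b + e + (s - 1) * (2 * d) - (p - 1) * d)
      (b + d + e + (s - 1) * (2 * d) - (p - 1) * d) 1 (by omega) (by omega) (by ring)
      (h.sq h1 (by ring)) (h.sq h2 (by ring))).elim

theorem blk_of (h : V p s d e T P Q) {ε b : ℤ} (hε : ε = 0 ∨ ε = 1)
    (hb : BkE P Q s d e ε b) : Blk P Q s d e b := by
  rcases hε with rfl | rfl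
  · exact ⟨h.lp hb.1 (by ring), h.lq hb.2 (by ring)⟩
  · exact ⟨h.lq hb.2 (by ring), h.lp hb.1 (by ring)⟩

/-- the short interval below a block -/
theorem low (h : V p s d e T P Q) {ε b y : ℤ} (hb : BkE P Q s d e ε b)
    (hy : y = b + ε * d - e) : S P Q p d y := h.sp hb.1 hy.symm

/-- the short interval above a block -/
theorem up (h : V p s d e T P Q) {ε b y : ℤ} (hb : BkE P Q s d e ε b)
    (hy : y = b - ε * d + e + (2 * s - p) * d) : S P Q p d y :=
  h.sq hb.2 (by rw [hy]; ring)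

/-- the block above a short interval of type `P` -/
theorem ofP (h : V p s d e T P Q) {x : ℤ} (hx : P x) (hr : Sr P Q p d (x + e)) :
    ∃ η, (η = 0 ∨ η = 1) ∧ BkE P Q s d e η (x + e - η * d) := by
  rcases h.inblk hr (h.lp hx rfl) with hb | hb
  · obtain ⟨η, rfl | rfl, h2⟩ := h.typ hb
    · exact ⟨0, Or.inl rfl, tr h2.1 (by ring), tr h2.2 (by ring)⟩
    · exact (h.pl' (x := x + e) (tr hx (by ring)) (tr h2.2 (by ring))).elim
  · obtain ⟨η, rfl | rfl, h2⟩ := h.typ hb
    · exact (h.pl' (x := x + e) (tr hx (by ring)) (tr h2.2 (by ring))).elim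
    · exact ⟨1, Or.inr rfl, tr h2.1 (by ring), tr h2.2 (by ring)⟩

/-- the block below a short interval of type `Q` -/
theorem ofQ (h : V p s d e T P Q) {x : ℤ} (hx : Q (x + (p - 1) * d))
    (hr : Sr P Q p d (x - e)) :
    ∃ η, (η = 0 ∨ η = 1) ∧ BkE P Q s d e η (x - e + (p - 2 * s + η) * d) := by
  have hl : L P Q 2 s d e (x - e + (p + 1 - 2 * s) * d) := h.lq hx (by ring)
  have hr' : Sr P Q p d (x - e + (p + 1 - 2 * s) * d) := (sr_row _).2 hr
  rcases h.inblk hr' hl with hb | hb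
  · obtain ⟨η, rfl | rfl, h2⟩ := h.typ hb
    · exact (h.pl' (x := x - e + (p + 1 - 2 * s) * d) (tr h2.1 (by ring))
        (tr hx (by ring))).elim
    · exact ⟨1, Or.inr rfl, tr h2.1 (by ring), tr h2.2 (by ring)⟩
  · obtain ⟨η, rfl | rfl, h2⟩ := h.typ hb
    · exact ⟨0, Or.inl rfl, tr h2.1 (by ring), tr h2.2 (by ring)⟩
    · exact (h.pl' (x := x - e + (p + 1 - 2 * s) * d) (tr h2.1 (by ring))
        (tr hx (by ring))).elim

/-- items at distance `n ± 1` from an item of length `n` do not exist -/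
theorem gap (h : V p s d e T P Q) {n z n' z' : ℤ} (hz : It P Q p s d e n z)
    (hz' : It P Q p s d e n' z') (g : ℤ) (hg0 : -1 ≤ g) (hg1 : g ≤ 1)
    (hzz : z' = z + (n + g) * d) : g = 0 := by
  have hn := h.it_pos hz
  rcases (show g = -1 ∨ g = 0 ∨ g = 1 by omega) with rfl | rfl | rfl
  · exact (h.it_dis hz hz' (n - 1) (by omega) (by omega) (by rw [hzz]; ring)).elim
  · rfl
  · obtain ⟨m, hm⟩ := h.it_next hz rfl
    have := h.it_pos hm
    exact (h.it_dis hm hz' 1 (by omega) (by omega) (by rw [hzz]; ring)).elim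

/-! ### neighbours of a block -/

theorem itB (h : V p s d e T P Q) {ε b : ℤ} (hε : ε = 0 ∨ ε = 1) (hb : BkE P Q s d e ε b) :
    It P Q p s d e (2 * s) b := Or.inr ⟨rfl, h.blk_of hε hb⟩

/-- right neighbour of type `P`: a block of the same type above it -/
theorem rP (h : V p s d e T P Q) {ε b x : ℤ} (hε : ε = 0 ∨ ε = 1) (hb : BkE P Q s d e ε b)
    (hx : P x) (hxb : x = b + 2 * s * d) : BkE P Q s d e ε (x + e - ε * d) := by
  have h1 : S P Q p d (x + e - ε * d - p * d) := h.up hb (by rw [hxb]; ring)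
  obtain ⟨η, hη, h2⟩ := h.ofP hx (h.sr_of h1 (-ε - p) (by ring))
  have h3 := h.gap (Or.inl ⟨rfl, h1⟩) (h.itB hη h2) (ε - η) (by omega) (by omega) (by ring)
  rwa [show ε = η by omega]

/-- left neighbour of type `P`: a block of the same type above it -/
theorem lP (h : V p s d e T P Q) {ε b x : ℤ} (hε : ε = 0 ∨ ε = 1) (hb : BkE P Q s d e ε b)
    (hx : P x) (hxb : b = x + p * d) : BkE P Q s d e ε (x + e - ε * d) := by
  have h1 : S P Q p d (x + e - ε * d + 2 * s * d) := h.up hb (by rw [hxb]; ring)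
  obtain ⟨η, hη, h2⟩ := h.ofP hx (h.sr_of h1 (-ε + 2 * s) (by ring))
  have h3 := h.gap (h.itB hη h2) (Or.inl ⟨rfl, h1⟩) (η - ε) (by omega) (by omega) (by ring)
  rwa [show ε = η by omega]

/-- right neighbour of type `Q`: a block of the same type below it -/
theorem rQ (h : V p s d e T P Q) {ε b x : ℤ} (hε : ε = 0 ∨ ε = 1) (hb : BkE P Q s d e ε b)
    (hx : Q (x + (p - 1) * d)) (hxb : x = b + 2 * s * d) :
    BkE P Q s d e ε (b + (p + ε) * d - e) := by
  have h1 : S P Q p d (b + ε * d - e) := h.low hb rfl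
  obtain ⟨η, hη, h2⟩ := h.ofQ hx (h.sr_of h1 (ε - 2 * s) (by rw [hxb]; ring))
  have h3 := h.gap (Or.inl ⟨rfl, h1⟩) (h.itB hη h2) (η - ε) (by omega) (by omega)
    (by rw [hxb]; ring)
  rw [show ε = η by omega]
  rwa [show b + (p + η) * d - e = x - e + (p - 2 * s + η) * d by rw [hxb]; ring]

/-- left neighbour of type `Q`: a block of the same type below it -/
theorem lQ (h : V p s d e T P Q) {ε b x : ℤ} (hε : ε = 0 ∨ ε = 1) (hb : BkE P Q s d e ε b)
    (hx : Q (x + (p - 1) * d)) (hxb : b = x + p * d) :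
    BkE P Q s d e ε (b + (ε - 2 * s) * d - e) := by
  have h1 : S P Q p d (b + ε * d - e) := h.low hb rfl
  obtain ⟨η, hη, h2⟩ := h.ofQ hx (h.sr_of h1 (ε + p) (by rw [hxb]; ring))
  have h3 := h.gap (h.itB hη h2) (Or.inl ⟨rfl, h1⟩) (ε - η) (by omega) (by omega)
    (by rw [hxb]; ring)
  rw [show ε = η by omega]
  rwa [show b + (η - 2 * s) * d - e = x - e + (p - 2 * s + η) * d by rw [hxb]; ring]

end V

end MPae024f.Sc
end
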