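import Mathlib
import Pool.Agent.Lib.MP_ae024f_co.QuadResult
import Pool.Agent.Lib.MP_ae024f_co.R2.Two
import Pool.Agent.Lib.MP_ae024f_co.R2.Q2d
import Pool.Agent.Lib.MP_ae024f_co.R2.V

section
/-!
# The sets `{a, a + D} ∪ {b, b + 2 D}`
-/
namespace MPae024f.R2

variable {P Q : ℤ → Prop} {d e : ℤ}

theorem til_of_pq (h0 : d ≠ 0) (h1 : e ≠ 0) (h2 : e ≠ d) (h3 : e + 2 * d ≠ 0) (h4 : e + d ≠ 0)
    (h : PQ ({0, d, e, e + 2 * d} : Set ℤ) P Q) : Til P Q d e := by
  -- two different pairs cannot both cover `n`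
  have key : ∀ (n : ℤ) (σ τ : Bool) (a b : ℤ), (a = 0 ∨ a = d ∨ a = e ∨ a = e + 2 * d) →
      (b = 0 ∨ b = d ∨ b = e ∨ b = e + 2 * d) → (if σ = true then P (n - a) else Q (n + a)) →
      (if τ = true then P (n - b) else Q (n + b)) → σ = τ ∧ a = b := by
    intro n σ τ a b ha hb h5 h6
    have := (h n).unique (y₁ := (σ, a)) (y₂ := (τ, b))
      ⟨by simpa using ha, h5⟩ ⟨by simpa using hb, h6⟩
    simpa using this
  have kt : ∀ (n a b : ℤ), (a = 0 ∨ a = d ∨ a = e ∨ a = e + 2 * d) →
      (b = 0 ∨ b = d ∨ b = e ∨ b = e + 2 * d) → P (n - a) → P (n - b) → a = b :=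
    fun n a b ha hb h5 h6 => (key n true true a b ha hb (by simpa using h5) (by simpa using h6)).2
  have kf : ∀ (n a b : ℤ), (a = 0 ∨ a = d ∨ a = e ∨ a = e + 2 * d) →
      (b = 0 ∨ b = d ∨ b = e ∨ b = e + 2 * d) → Q (n + a) → Q (n + b) → a = b :=
    fun n a b ha hb h5 h6 => (key n false false a b ha hb (by simpa using h5) (by simpa using h6)).2
  have km : ∀ (n a b : ℤ), (a = 0 ∨ a = d ∨ a = e ∨ a = e + 2 * d) →
      (b = 0 ∨ b = d ∨ b = e ∨ b = e + 2 * d) → P (n - a) → Q (n + b) → False := by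
    intro n a b ha hb h5 h6
    have := (key n true false a b ha hb (by simpa using h5) (by simpa using h6)).1
    simp at this
  refine ⟨fun n => ?_, ?_, ?_, ?_, ?_, ?_, ?_, ?_, ?_, ?_, ?_⟩
  · obtain ⟨⟨σ, a⟩, ⟨ha, h5⟩, -⟩ := h n
    simp only [Set.mem_insert_iff, Set.mem_singleton_iff] at ha
    cases σ
    · simp only [Bool.false_eq_true, if_false] at h5
      rcases ha with rfl | rfl | rfl | rfl
      · rw [add_zero] at h5; tauto
      · tauto
      · tauto
      · rw [← add_assoc] at h5; tauto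
    · simp only [if_true] at h5
      rcases ha with rfl | rfl | rfl | rfl
      · rw [sub_zero] at h5; tauto
      · tauto
      · tauto
      · rw [← sub_sub] at h5; tauto
  · intro n h5 h6
    have := kt (n + d) d 0 (by tauto) (by tauto) (by rwa [show n + d - d = n by ring])
      (by rwa [sub_zero])
    omega
  · intro n h5 h6
    have := kf n 0 d (by tauto) (by tauto) (by rwa [add_zero]) h6
    omega
  · intro n h5 h6
    have := kt (n + e + 2 * d) (e + 2 * d) e (by tauto) (by tauto)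
      (by rwa [show n + e + 2 * d - (e + 2 * d) = n by ring])
      (by rwa [show n + e + 2 * d - e = n + 2 * d by ring])
    omega
  · intro n h5 h6
    have := kf (n - e) e (e + 2 * d) (by tauto) (by tauto)
      (by rwa [show n - e + e = n by ring])
      (by rwa [show n - e + (e + 2 * d) = n + 2 * d by ring])
    omega
  · rintro n (h5 | h5) (h6 | h6)
    · have := kt n 0 d (by tauto) (by tauto) (by rwa [sub_zero]) h6
      omega
    · exact km n 0 0 (by tauto) (by tauto) (by rwa [sub_zero]) (by rwa [add_zero])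
    · exact km n d d (by tauto) (by tauto) h6 h5
    · have := kf n d 0 (by tauto) (by tauto) h5 (by rwa [add_zero])
      omega
  · rintro n (h5 | h5) (h6 | h6)
    · have := kt n 0 e (by tauto) (by tauto) (by rwa [sub_zero]) h6
      omega
    · exact km n 0 (e + 2 * d) (by tauto) (by tauto) (by rwa [sub_zero]) (by rwa [← add_assoc])
    · exact km n e d (by tauto) (by tauto) h6 h5
    · have := kf n d (e + 2 * d) (by tauto) (by tauto) h5 (by rwa [← add_assoc])
      omega
  · rintro n (h5 | h5) (h6 | h6)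
    · have := kt n 0 (e + 2 * d) (by tauto) (by tauto) (by rwa [sub_zero]) (by rwa [← sub_sub])
      omega
    · exact km n 0 e (by tauto) (by tauto) (by rwa [sub_zero]) h6
    · exact km n (e + 2 * d) d (by tauto) (by tauto) (by rwa [← sub_sub]) h5
    · have := kf n d e (by tauto) (by tauto) h5 h6
      omega
  · rintro n (h5 | h5) (h6 | h6)
    · have := kt n d e (by tauto) (by tauto) h5 h6
      omega
    · exact km n d (e + 2 * d) (by tauto) (by tauto) h5 (by rwa [← add_assoc])
    · exact km n e 0 (by tauto) (by tauto) h6 (by rwa [add_zero])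
    · have := kf n 0 (e + 2 * d) (by tauto) (by tauto) (by rwa [add_zero]) (by rwa [← add_assoc])
      omega
  · rintro n (h5 | h5) (h6 | h6)
    · have := kt n d (e + 2 * d) (by tauto) (by tauto) h5 (by rwa [← sub_sub])
      omega
    · exact km n d e (by tauto) (by tauto) h5 h6
    · exact km n (e + 2 * d) 0 (by tauto) (by tauto) (by rwa [← sub_sub]) (by rwa [add_zero])
    · have := kf n 0 e (by tauto) (by tauto) (by rwa [add_zero]) h6
      omega
  · rintro n (h5 | h5) (h6 | h6)
    · have := kt n e (e + 2 * d) (by tauto) (by tauto) h5 (by rwa [← sub_sub])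
      omega
    · exact km n e e (by tauto) (by tauto) h5 h6
    · exact km n (e + 2 * d) (e + 2 * d) (by tauto) (by tauto) (by rwa [← sub_sub])
        (by rwa [← add_assoc])
    · have := kf n (e + 2 * d) e (by tauto) (by tauto) (by rwa [← add_assoc]) h6
      omega

/-- reduced form: `{0, d, e, e + 2 d}` with coprime `d > 0`, `e` tiles iff `d` is odd -/
theorem reduced (hd0 : 0 < d) (hde : IsCoprime d e) (h1 : e ≠ 0) (h2 : e ≠ d)
    (h3 : e + 2 * d ≠ 0) (h4 : e + d ≠ 0) :
    (∃ P Q, PQ ({0, d, e, e + 2 * d} : Set ℤ) P Q) ↔ d % 2 = 1 := by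
  constructor
  · rintro ⟨P, Q, h⟩
    by_contra hcon
    have hd : d % 2 = 0 := by omega
    have he : e % 2 = 1 := by
      by_contra he
      obtain ⟨u, v, huv⟩ := hde
      have h5 : (2 : ℤ) ∣ u * d + v * e :=
        dvd_add (dvd_mul_of_dvd_right (by omega) _) (dvd_mul_of_dvd_right (by omega) _)
      rw [huv] at h5
      omega
    exact (til_of_pq hd0.ne' h1 h2 h3 h4 h).none hd0 hd he
  · intro hd
    rcases Int.emod_two_eq_zero_or_one e with he | he
    · have := L31 0 e (e + 2 * d) d (by omega) (by omega) (by omega) (by omega) (by omega)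
        (by omega)
      rwa [show ({0, e, e + 2 * d, d} : Set ℤ) = {0, d, e, e + 2 * d} by
        ext x; simp only [Set.mem_insert_iff, Set.mem_singleton_iff]; tauto] at this
    · have := L31 d e (e + 2 * d) 0 (by omega) (by omega) (by omega) (by omega) (by omega)
        (by omega)
      rwa [show ({d, e, e + 2 * d, 0} : Set ℤ) = {0, d, e, e + 2 * d} by
        ext x; simp only [Set.mem_insert_iff, Set.mem_singleton_iff]; tauto] at this

/-- `{a, a + D, b, b + 2 D}` tiles iff `D / gcd (D, b - a)` is odd -/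
theorem ratio_two {a b D : ℤ} (hD : 0 < D) (h1 : b ≠ a) (h2 : b ≠ a + D) (h3 : b + 2 * D ≠ a)
    (h4 : b + D ≠ a) :
    (∃ P Q, PQ ({a, a + D, b, b + 2 * D} : Set ℤ) P Q) ↔ (D / Int.gcd D (b - a)) % 2 = 1 := by
  set G : ℤ := ((Int.gcd D (b - a) : ℕ) : ℤ) with hG
  have hG0 : 0 < G := by
    have : 0 < Int.gcd D (b - a) := Int.gcd_pos_of_ne_zero_left _ (by omega)
    omega
  obtain ⟨d, hd⟩ : ∃ d, D = G * d := Int.gcd_dvd_left D (b - a)
  obtain ⟨e, he⟩ : ∃ e, b - a = G * e := Int.gcd_dvd_right D (b - a)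
  have hd' : D / G = d := by rw [hd]; exact Int.mul_ediv_cancel_left _ hG0.ne'
  have he' : (b - a) / G = e := by rw [he]; exact Int.mul_ediv_cancel_left _ hG0.ne'
  have hcop : IsCoprime d e := by
    rw [← hd', ← he', Int.isCoprime_iff_gcd_eq_one]
    exact Int.gcd_ediv_gcd_ediv_gcd (Int.gcd_pos_of_ne_zero_left _ (by omega))
  have hd0 : 0 < d := by
    by_contra hcon
    have : G * d ≤ 0 := mul_nonpos_of_nonneg_of_nonpos hG0.le (by omega)
    omega
  have hb : b = a + G * e := by omega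
  rw [hd', ← reduced hd0 hcop (by rintro rfl; apply h1; omega) (by
      rintro rfl; apply h2; omega) (by
      intro h; apply h3; rw [hb, hd]; linear_combination G * h) (by
      intro h; apply h4; rw [hb, hd]; linear_combination G * h)]
  have hset : {p : ℤ | ∃ x ∈ ({0, d, e, e + 2 * d} : Set ℤ), p = a + G * x} =
      ({a, a + D, b, b + 2 * D} : Set ℤ) := by
    rw [hb, hd]
    ext p
    simp only [Set.mem_ofPred_eq, Set.mem_insert_iff, Set.mem_singleton_iff]
    constructor
    · rintro ⟨x, rfl | rfl | rfl | rfl, rfl⟩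
      · left; ring
      · right; left; ring
      · right; right; left; ring
      · right; right; right; ring
    · rintro (rfl | rfl | rfl | rfl)
      · exact ⟨0, by simp, by ring⟩
      · exact ⟨d, by simp, by ring⟩
      · exact ⟨e, by simp, by ring⟩
      · exact ⟨e + 2 * d, by simp, by ring⟩
  rw [← hset]
  exact pq_scale a G hG0.ne'

theorem odd_part {D x : ℤ} {k : ℕ} (hk : (2 : ℤ) ^ k ∣ D) (hx : ¬ (2 : ℤ) ^ k ∣ x) :
    ¬ (D / Int.gcd D x) % 2 = 1 := by
  intro h
  apply hx
  have h1 : D = (Int.gcd D x : ℤ) * (D / Int.gcd D x) :=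
    (Int.mul_ediv_cancel' (Int.gcd_dvd_left D x)).symm
  have h2 : IsCoprime ((2 : ℤ) ^ k) (D / Int.gcd D x) := by
    refine IsCoprime.pow_left ⟨-(D / Int.gcd D x / 2), 1, ?_⟩
    omega
  rw [h1] at hk
  exact (h2.dvd_of_dvd_mul_right hk).trans (Int.gcd_dvd_right D x)

/-- the exceptional four-sets in which one difference is twice the other do not tile -/
theorem not_tile {p q u w : ℤ} (h1 : p ≠ q) (h2 : p ≠ u) (h3 : p ≠ w) (h4 : q ≠ u) (h5 : q ≠ w)
    (h6 : u ≠ w) (hv : padicValInt 2 (p - u) < padicValInt 2 (u - w))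
    (hr : p - q = 2 * (u - w) ∨ p - q = -2 * (u - w)) :
    ¬ ∃ P Q, PQ ({p, q, u, w} : Set ℤ) P Q := by
  have key : ∀ a b D : ℤ, 0 < D → ({a, a + D, b, b + 2 * D} : Set ℤ) = {p, q, u, w} →
      b ≠ a → b ≠ a + D → b + 2 * D ≠ a → b + D ≠ a → (2 : ℤ) ^ padicValInt 2 (u - w) ∣ D →
      ¬ (2 : ℤ) ^ padicValInt 2 (u - w) ∣ b - a → ¬ ∃ P Q, PQ ({p, q, u, w} : Set ℤ) P Q := by
    intro a b D hD hset a1 a2 a3 a4 a5 a6
    rw [← hset, ratio_two hD a1 a2 a3 a4]
    exact odd_part a5 a6
  have e1 : (2 : ℤ) ^ padicValInt 2 (u - w) ∣ u - w := by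
    have := (padicValInt_dvd_iff (p := 2) (padicValInt 2 (u - w)) (u - w)).2 (Or.inr le_rfl)
    exact_mod_cast this
  have e2 : ¬ (2 : ℤ) ^ padicValInt 2 (u - w) ∣ p - u := by
    intro h
    have := (padicValInt_dvd_iff (p := 2) (padicValInt 2 (u - w)) (p - u)).1 (by exact_mod_cast h)
    omega
  set K : ℤ := (2 : ℤ) ^ padicValInt 2 (u - w) with hK
  have e3 : K ∣ p - q := by
    rcases hr with h | h
    · rw [h]; exact dvd_mul_of_dvd_right e1 2
    · rw [h]; exact dvd_mul_of_dvd_right e1 (-2)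
  have e4 : K ∣ w - u := by rw [← neg_sub]; exact (dvd_neg).2 e1
  -- `u < w` or `w < u`, `p < q` or `q < p`
  rcases lt_or_gt_of_ne h6 with h | h
  · rcases hr with h' | h'
    · refine key u p (w - u) (by omega) ?_ h2 (by omega) (by omega) (by omega) e4 e2
      rw [show u + (w - u) = w by ring, show p + 2 * (w - u) = q by omega]
      ext x; simp only [Set.mem_insert_iff, Set.mem_singleton_iff]; tauto
    · refine key u q (w - u) (by omega) ?_ h4 (by omega) (by omega) (by omega) e4 ?_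
      · rw [show u + (w - u) = w by ring, show q + 2 * (w - u) = p by omega]
        ext x; simp only [Set.mem_insert_iff, Set.mem_singleton_iff]; tauto
      · intro h7
        apply e2
        have := dvd_add e3 h7
        rwa [show p - q + (q - u) = p - u by ring] at this
  · rcases hr with h' | h'
    · refine key w q (u - w) (by omega) ?_ h5 (by omega) (by omega) (by omega) e1 ?_
      · rw [show w + (u - w) = u by ring, show q + 2 * (u - w) = p by omega]
        ext x; simp only [Set.mem_insert_iff, Set.mem_singleton_iff]; tauto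
      · intro h7
        apply e2
        have := dvd_add (dvd_add e3 h7) e4
        rwa [show p - q + (q - w) + (w - u) = p - u by ring] at this
    · refine key w p (u - w) (by omega) ?_ h3 (by omega) (by omega) (by omega) e1 ?_
      · rw [show w + (u - w) = u by ring, show p + 2 * (u - w) = q by omega]
        ext x; simp only [Set.mem_insert_iff, Set.mem_singleton_iff]; tauto
      · intro h7
        apply e2
        have := dvd_add h7 e4
        rwa [show p - w + (w - u) = p - u by ring] at this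

end MPae024f.R2
end

section
/-!
# Ratio 2: from tilings of `ℤ` to rows, and the necessary condition
-/
namespace MPae024f.Sc

open Q2 (G NoL Mx)

variable {P Q : ℤ → Prop} {p s d e T : ℤ}

/-- the short intervals with their partners, by row and position -/
def uu (P : ℤ → Prop) (d e : ℤ) (j i : ℤ) : Prop := P (j * e + i * d)

def ww (Q : ℤ → Prop) (p d e : ℤ) (j i : ℤ) : Prop := Q (j * e + (i + p - 1) * d)

theorem a_iff (j i : ℤ) : Q2.a (uu P d e) (ww Q p d e) j i ↔ S P Q p d (j * e + i * d) := by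
  unfold Q2.a uu ww S
  rw [show j * e + i * d + (p - 1) * d = j * e + (i + p - 1) * d by ring]

theorem l_iff (j i : ℤ) : Q2.l p s (uu P d e) (ww Q p d e) j i ↔
    L P Q 2 s d e (j * e + i * d) := by
  unfold Q2.l uu ww L
  rw [show j * e + i * d - e = (j - 1) * e + i * d by ring,
    show j * e + i * d + e + (s - 1) * (2 * d) =
      (j + 1) * e + (i + (2 * s - 1 - p) + p - 1) * d by ring]

theorem toG (h : Til p s 2 d e P Q) (hd : 0 < d) (hp : 2 ≤ p) (hs : 2 ≤ s) (hT : 0 < T)
    (pP : ∀ x, P (x + T) ↔ P x) (pQ : ∀ x, Q (x + T) ↔ Q x) :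
    G p s d e T (uu P d e) (ww Q p d e) := by
  refine { hd := hd, hp := hp, hs := hs, hT := hT, ex := fun j n => ?_, ss := ?_, sl := ?_,
           ll := ?_, uw := ?_, ul := ?_, pu := ?_, pw := ?_, cu := ?_, cw := ?_ }
  · simp only [a_iff, l_iff]
    rcases h.ex (j * e + n * d) with ⟨x, i, h0, h1, h2, h3⟩ | ⟨x, i, h0, h1, h2, h3⟩
    · exact Or.inl ⟨i, h0, h1, tr h3 (by linear_combination -h2)⟩
    · exact Or.inr ⟨i, h0, h1, tr h3 (by linear_combination -h2)⟩
  · intro j x y hxy hy
    simp only [a_iff]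
    exact h.ss _ _ (y - x) (by omega) (by omega) (by ring)
  · intro j x y i k h0 h1 h2 h3 h4
    simp only [a_iff, l_iff]
    exact h.sl _ _ i k h0 h1 h2 h3 (by linear_combination d * h4)
  · intro j x y i h0 h1 h2
    simp only [l_iff]
    exact h.ll _ _ i h0 h1 (by rw [h2]; ring)
  · intro j i
    unfold uu ww
    exact h.ps _ _ (by ring)
  · intro j i
    unfold uu ww
    exact h.pl _ _ (by ring)
  · intro j i
    unfold uu
    rw [show j * e + (i + T) * d = j * e + i * d + d * T by ring, per_iter pP]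
  · intro j i
    unfold ww
    rw [show j * e + (i + T + p - 1) * d = j * e + (i + p - 1) * d + d * T by ring, per_iter pQ]
  · intro j i
    unfold uu
    rw [show (j + d) * e + i * d = j * e + (i + e) * d by ring]
  · intro j i
    unfold ww
    rw [show (j + d) * e + (i + p - 1) * d = j * e + (i + e + p - 1) * d by ring]

/-- generic `p`, `s`: every row has a short interval -/
theorem V.generic (h : V p s d e T P Q) (hps : p ≠ s) (hp2 : p ≠ 2 * s)
    (hr : ∀ z, W0.Sr P Q p d z) :
    ∃ c, (c = p ∨ c = p + 1 ∨ c = 2 * p ∨ c = 2 * p + 1) ∧ 2 * (p + s) ∣ e - c * d := by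
  have hp := h.hp
  have g := toG h.toTil h.hd (by omega) h.hs h.hT h.pP h.pQ
  refine g.main (fun j y _ => ?_) hps hp2
  obtain ⟨i, hi⟩ := hr (j * e)
  exact ⟨i, (a_iff j i).2 hi⟩

/-- necessity for a periodic tiling, `p ≥ 3` -/
theorem nec3 (h : Til p s 2 d e P Q) (hd : 0 < d) (hp : 3 ≤ p) (hs : 2 ≤ s) (hT : 0 < T)
    (pP : ∀ x, P (x + T) ↔ P x) (pQ : ∀ x, Q (x + T) ↔ Q x) (hde : IsCoprime d e) :
    Cond p s d e := by
  have g := toG h hd (by omega) hs hT pP pQ
  by_cases H : NoL p s (uu P d e) (ww Q p d e)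
  · rcases eq_or_ne p s with h1 | h1
    · exact Or.inr (Or.inr (Or.inl ⟨h1, Or.inr (g.main1 H h1)⟩))
    rcases eq_or_ne p (2 * s) with h2 | h2
    · exact Or.inr (Or.inl ⟨h2, g.main2 H h2⟩)
    · exact Or.inl (g.main H h1 h2)
  · unfold NoL at H
    push Not at H
    obtain ⟨j0, y0, hy0, hx0⟩ := H
    have hL : Q2.Lr p s (uu P d e) (ww Q p d e) j0 := ⟨⟨y0, hy0⟩, hx0⟩
    have hM : ∀ j, ¬ Mx p s (uu P d e) (ww Q p d e) j := fun j hj => g.pure hL hj
    -- every cell is in some row
    have hrow : ∀ z : ℤ, ∃ j i : ℤ, z = j * e + i * d := by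
      intro z
      obtain ⟨a, b, hab⟩ := hde
      exact ⟨z * b, z * a, by linear_combination -z * hab⟩
    have hW : W0 p s 2 d e T P Q := { h with
      hd := hd, hp := hp, hs := hs, hT := hT, pP := pP, pQ := pQ
      nx := by
        intro y hy
        obtain ⟨j, i, rfl⟩ := hrow y
        have h1 : Q2.a (uu P d e) (ww Q p d e) j i := (a_iff j i).2 hy
        rcases g.nA h1 with h2 | h2
        · exact tr ((a_iff j (i + p)).1 h2) (by ring)
        · exact absurd ⟨⟨_, h2.1⟩, i, h1⟩ (hM j) }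
    rcases hW.nec hde with ⟨h1, h2, h3⟩ | ⟨h1, h2, h3⟩ | ⟨h1, h2, h3⟩
    · exact Or.inr (Or.inl ⟨h1, Or.inl h3⟩)
    · refine Or.inr (Or.inr (Or.inl ⟨h1, Or.inl ⟨?_, h3⟩⟩))
      intro h4
      have h5 : ((Int.gcd p 2 : ℕ) : ℤ) = 1 := by rw [h2]; rfl
      have h6 : (2 : ℤ) ∣ (Int.gcd p 2 : ℤ) := Int.dvd_coe_gcd h4 dvd_rfl
      omega
    · refine Or.inr (Or.inr (Or.inr ⟨h1, ?_, h3⟩))
      intro h4
      have h5 : ((Int.gcd p 2 : ℕ) : ℤ) = 1 := by rw [h2]; rfl
      have h6 : (2 : ℤ) ∣ (Int.gcd p 2 : ℤ) := Int.dvd_coe_gcd h4 dvd_rfl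
      omega

theorem ts22 (d e : ℤ) : Ts 2 2 2 d e = ({0, d, e, e + 2 * d} : Set ℤ) := by
  ext x
  simp only [Ts, Set.mem_ofPred_eq, Set.mem_insert_iff, Set.mem_singleton_iff]
  constructor
  · rintro (⟨i, h0, h1, rfl⟩ | ⟨i, h0, h1, rfl⟩)
    · rcases (show i = 0 ∨ i = 1 by omega) with rfl | rfl
      · left; ring
      · right; left; ring
    · rcases (show i = 0 ∨ i = 1 by omega) with rfl | rfl
      · right; right; left; ring
      · right; right; right; ring
  · rintro (rfl | rfl | rfl | rfl)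
    · exact Or.inl ⟨0, le_rfl, by norm_num, by ring⟩
    · exact Or.inl ⟨1, by norm_num, by norm_num, by ring⟩
    · exact Or.inr ⟨0, le_rfl, by norm_num, by ring⟩
    · exact Or.inr ⟨1, by norm_num, by norm_num, by ring⟩

/-- ratio two: necessity -/
theorem necQ2 (hp : 2 ≤ p) (hs : 2 ≤ s) (hd : 0 < d) (hde : IsCoprime d e)
    (hdj : ∀ i j, 0 ≤ i → i < p → 0 ≤ j → j < s → i * d ≠ e + j * (2 * d))
    (h : ∃ P Q, PQ (Ts p s 2 d e) P Q) : Cond p s d e := by
  obtain ⟨P, Q, T, hT, hPQ, pP, pQ⟩ := pq_periodic (A := Ts p s 2 d e)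
    (L := |e| + (p + 2 * s) * d) (by
      have h1 := neg_abs_le e
      have h2 := le_abs_self e
      have h3 : 0 ≤ (p + 2 * s) * d := mul_nonneg (by omega) hd.le
      rintro a (⟨i, h4, h5, rfl⟩ | ⟨i, h4, h5, rfl⟩)
      · have h6 : 0 ≤ i * d := mul_nonneg h4 hd.le
        have h7 : i * d ≤ (p + 2 * s) * d := mul_le_mul_of_nonneg_right (by omega) hd.le
        constructor <;> linarith [abs_nonneg e]
      · have h6 : 0 ≤ i * (2 * d) := mul_nonneg h4 (by omega)
        have h7 : 2 * i * d ≤ (p + 2 * s) * d := mul_le_mul_of_nonneg_right (by omega) hd.le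
        have h8 : i * (2 * d) = 2 * i * d := by ring
        constructor <;> linarith [abs_nonneg e])
    (by
      have h3 : 0 ≤ (p + 2 * s) * d := mul_nonneg (by omega) hd.le
      linarith [abs_nonneg e]) h
  have hTil : Til p s 2 d e P Q := til_of_pq hd hp hs (by norm_num) hdj hPQ
  rcases (show p = 2 ∨ 3 ≤ p by omega) with rfl | hp3
  swap
  · exact nec3 hTil hd hp3 hs hT pP pQ hde
  rcases (show s = 2 ∨ 3 ≤ s by omega) with rfl | hs3
  · have h0 := hdj 0 0 (by norm_num) (by norm_num) (by norm_num) (by norm_num)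
    have h1 := hdj 1 0 (by norm_num) (by norm_num) (by norm_num) (by norm_num)
    have h2 := hdj 0 1 (by norm_num) (by norm_num) (by norm_num) (by norm_num)
    have h3 := hdj 1 1 (by norm_num) (by norm_num) (by norm_num) (by norm_num)
    have h4 : d % 2 = 1 := (R2.reduced hd hde (by omega) (by omega) (by omega) (by omega)).1
      ⟨P, Q, ts22 d e ▸ hPQ⟩
    exact Or.inr (Or.inr (Or.inl ⟨rfl, Or.inr (by omega)⟩))
  · rcases necc hTil hd hs3 with h1 | h1 | h1 | h1
    · exact Or.inl ⟨2, Or.inl rfl, by rw [show 2 * (2 + s) = 2 * (s + 2) by ring]; exact h1⟩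
    · exact Or.inl ⟨3, Or.inr (Or.inl rfl), by
        rw [show 2 * (2 + s) = 2 * (s + 2) by ring]; exact h1⟩
    · exact Or.inl ⟨4, Or.inr (Or.inr (Or.inl rfl)), by
        rw [show 2 * (2 + s) = 2 * (s + 2) by ring]; exact h1⟩
    · exact Or.inl ⟨5, Or.inr (Or.inr (Or.inr rfl)), by
        rw [show 2 * (2 + s) = 2 * (s + 2) by ring]; exact h1⟩

/-- ratio two, reduced form -/
theorem iffQ2 (hp : 2 ≤ p) (hs : 2 ≤ s) (hd : 0 < d) (hde : IsCoprime d e)
    (hdj : ∀ i j, 0 ≤ i → i < p → 0 ≤ j → j < s → i * d ≠ e + j * (2 * d)) :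
    (∃ P Q, PQ (Ts p s 2 d e) P Q) ↔ Cond p s d e :=
  ⟨necQ2 hp hs hd hde hdj, suffQ2 hp hs hd hde hdj⟩

end MPae024f.Sc
end
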