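import Mathlib
import Pool.Agent.Lib.MP_ae024f_co.TP.Lem
import Pool.Agent.Lib.MP_ae024f_co.TP.Special
import Pool.Agent.Lib.MP_ae024f_co.R2.Scale
import Pool.Agent.Lib.MP_ae024f_co.R2.Q2f
import Pool.Agent.Lib.MP_ae024f_co.R2.V

section
/-! Equal differences (`q = 1`) in the notation of `Ts p s q d e`. -/
namespace MPae024f.Sc

/-- The condition for two progressions with the same difference; `p ≥ r` are the lengths. -/
def CondOne (p r d e : ℤ) : Prop :=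
  (p = 2 * r ∧ (2 ≤ d ∨ r ∣ e)) ∨
  (p = 3 * r ∧ (2 ∣ d ∨ (r ∣ e ∧ ¬ (d = 1 ∧ (e = -7 * r ∨ e = -3 * r ∨ e = 5 * r ∨ e = 9 * r))))) ∨
  (p ≠ 2 * r ∧ p ≠ 3 * r ∧ (2 ∣ d ∨ (p + r) ∣ e + r * d ∨
    ∃ q s : ℤ, 0 ≤ s ∧ s ≤ d ∧ (p + r) * q = e + 2 * r * s ∧ q ≠ s))

theorem ts_one (p s d e : ℤ) : Ts p s 1 d e = TP.Tl p s d e := by
  ext x
  constructor
  · rintro (⟨i, h0, h1, rfl⟩ | ⟨i, h0, h1, rfl⟩)
    · exact Or.inl ⟨i, h0, h1, by ring⟩
    · exact Or.inr ⟨i, h0, h1, by ring⟩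
  · rintro (⟨i, h0, h1, rfl⟩ | ⟨i, h0, h1, rfl⟩)
    · exact Or.inl ⟨i, h0, h1, by ring⟩
    · exact Or.inr ⟨i, h0, h1, by ring⟩

theorem class_one {p r d e : ℤ} (hr : 1 ≤ r) (hrp : r ≤ p) (hd0 : 0 < d) (hde : IsCoprime d e)
    (he : ∀ i i' : ℤ, 0 ≤ i → i < p → 0 ≤ i' → i' < r → i * d ≠ e + i' * (1 * d)) :
    (∃ P Q, PQ (Ts p r 1 d e) P Q) ↔ CondOne p r d e := by
  have he : ∀ i i' : ℤ, 0 ≤ i → i < p → 0 ≤ i' → i' < r → d * i ≠ e + d * i' := by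
    intro i i' h0 h1 h2 h3 h4
    exact he i i' h0 h1 h2 h3 (by linear_combination h4)
  rw [ts_one]
  unfold CondOne
  by_cases h2 : p = 2 * r
  · subst h2
    rw [TP.classify_two hr hd0 hde he]
    constructor
    · intro h; exact Or.inl ⟨rfl, h⟩
    · rintro (⟨-, h⟩ | ⟨h, -⟩ | ⟨h, -⟩)
      · exact h
      · omega
      · exact absurd rfl h
  by_cases h3 : p = 3 * r
  · subst h3
    rw [TP.classify_three hr hd0 hde he]
    constructor
    · intro h; exact Or.inr (Or.inl ⟨rfl, h⟩)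
    · rintro (⟨h, -⟩ | ⟨-, h⟩ | ⟨-, h, -⟩)
      · omega
      · exact h
      · exact absurd rfl h
  have key : (∃ P Q, PQ (TP.Tl p r d e) P Q) ↔ TP.Cond p r d e := by
    rcases eq_or_lt_of_le hrp with h | h
    · subst h
      refine ⟨fun h4 => ?_, fun h4 => TP.suff hr hr hd0 hde h4⟩
      have h5 := (TP.classify_eq hr hd0 hde he).1 h4
      rcases h5 with h5 | ⟨c, hc⟩
      · exact Or.inl h5
      · have he0 : c ≠ 0 := by
          rintro rfl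
          exact he 0 0 le_rfl (by omega) le_rfl (by omega) (by rw [hc]; ring)
        rcases Int.emod_two_eq_zero_or_one d with h7 | h7
        · exact Or.inl (Int.dvd_of_emod_eq_zero h7)
        · right
          rcases Int.emod_two_eq_zero_or_one (c + d) with h6 | h6
          · left
            obtain ⟨w, hw⟩ := Int.dvd_of_emod_eq_zero h6
            exact ⟨w, by rw [hc]; linear_combination r * hw⟩
          · right
            obtain ⟨w, hw⟩ : ∃ w, c = 2 * w := ⟨c / 2, by omega⟩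
            exact ⟨w, 0, le_rfl, hd0.le, by rw [hc, hw]; ring, by omega⟩
    · exact TP.classify_generic hr h h2 h3 hd0 hde he
  rw [key]
  unfold TP.Cond
  constructor
  · intro h; exact Or.inr (Or.inr ⟨h2, h3, h⟩)
  · rintro (⟨h, -⟩ | ⟨h, -⟩ | ⟨-, -, h⟩)
    · exact absurd h h2
    · exact absurd h h3
    · exact h

end MPae024f.Sc
end

section
/-!
# Two progressions with differences `D` and `q D`: the classification of the reduced sets
-/
namespace MPae024f.Sc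

variable {p s q d e : ℤ}

/-- the tile is bounded -/
theorem ts_bound (hp : 0 < p) (hs : 0 < s) (hq : 0 < q) (hd : 0 < d) :
    ∃ L : ℤ, 0 ≤ L ∧ ∀ a ∈ Ts p s q d e, -L ≤ a ∧ a ≤ L := by
  have hqd : 0 < q * d := mul_pos hq hd
  have h1 : 0 < p * d := mul_pos hp hd
  have h2 : 0 < s * (q * d) := mul_pos hs hqd
  refine ⟨p * d + |e| + s * (q * d), by positivity, ?_⟩
  rintro a (⟨i, h3, h4, rfl⟩ | ⟨i, h3, h4, rfl⟩)
  · have h5 : 0 ≤ i * d := mul_nonneg h3 hd.le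
    have h6 : i * d ≤ p * d := mul_le_mul_of_nonneg_right h4.le hd.le
    have := abs_nonneg e
    constructor <;> omega
  · have h5 : 0 ≤ i * (q * d) := mul_nonneg h3 hqd.le
    have h6 : i * (q * d) ≤ s * (q * d) := mul_le_mul_of_nonneg_right h4.le hqd.le
    have := neg_abs_le e
    have := le_abs_self e
    constructor <;> omega

/-- a tiling may be assumed periodic -/
theorem ts_periodic (hp : 0 < p) (hs : 0 < s) (hq : 0 < q) (hd : 0 < d)
    (h : ∃ P Q, PQ (Ts p s q d e) P Q) : ∃ P Q, ∃ T > 0, PQ (Ts p s q d e) P Q ∧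
      (∀ i, P (i + T) ↔ P i) ∧ ∀ i, Q (i + T) ↔ Q i := by
  obtain ⟨L, h0, h1⟩ := ts_bound (e := e) hp hs hq hd
  exact pq_periodic h1 h0 h

/-- the condition for `3 ≤ q ≤ p` -/
def CondThree (p s q d : ℤ) : Prop :=
  (p = 2 * s ∧ Int.gcd p q ≤ 2 ∧ 3 ∣ d) ∨ (p = s ∧ Int.gcd p q = 1 ∧ 2 ∣ d) ∨
    (s = 2 * p ∧ Int.gcd p q = 1 ∧ 3 ∣ d)

/-- necessity, `3 ≤ q ≤ p` -/
theorem nec_three (hq : 3 ≤ q) (hqp : q ≤ p) (hs : 2 ≤ s) (hd : 0 < d) (hde : IsCoprime d e)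
    (he : ∀ i j, 0 ≤ i → i < p → 0 ≤ j → j < s → i * d ≠ e + j * (q * d))
    (h : ∃ P Q, PQ (Ts p s q d e) P Q) : CondThree p s q d := by
  obtain ⟨P, Q, T, hT, h1, hP, hQ⟩ := ts_periodic (by omega) (by omega) (by omega) hd h
  have ht := til_of_pq hd (by omega) hs (by omega) he h1
  have hw : W0 p s q d e T P Q :=
    { ht with
      hd := hd
      hp := by omega
      hs := hs
      hT := hT
      pP := hP
      pQ := hQ
      nx := fun y hy => nxt3 ht hq hqp hs hy rfl }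
  exact hw.nec hde

/-- sufficiency, any `q > 0` -/
theorem suff_three (hq : 0 < q) (hp : 0 < p) (hs : 0 < s) (hd : 0 < d) (hde : IsCoprime d e)
    (h : CondThree p s q d) : ∃ P Q, PQ (Ts p s q d e) P Q := by
  rcases h with ⟨rfl, h1, h2⟩ | ⟨rfl, h1, h2⟩ | ⟨rfl, h1, h2⟩
  · exact suff_small hd hde hs h1 h2
  · exact suff_eq hd hde hp (Int.isCoprime_iff_gcd_eq_one.2 h1) h2
  · exact suff_big hd hde hp hq (Int.isCoprime_iff_gcd_eq_one.2 h1) h2

/-- the classification for `3 ≤ q ≤ p` -/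
theorem class_three (hq : 3 ≤ q) (hqp : q ≤ p) (hs : 2 ≤ s) (hd : 0 < d) (hde : IsCoprime d e)
    (he : ∀ i j, 0 ≤ i → i < p → 0 ≤ j → j < s → i * d ≠ e + j * (q * d)) :
    (∃ P Q, PQ (Ts p s q d e) P Q) ↔ CondThree p s q d :=
  ⟨nec_three hq hqp hs hd hde he, suff_three (by omega) (by omega) (by omega) hd hde⟩

/-- the classification of the reduced sets -/
theorem class_q (h : (q = 1 ∧ 1 ≤ s ∧ s ≤ p) ∨ (q = 2 ∧ 2 ≤ p ∧ 2 ≤ s) ∨
      (3 ≤ q ∧ q ≤ p ∧ 2 ≤ s)) (hd : 0 < d) (hde : IsCoprime d e)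
    (he : ∀ i j, 0 ≤ i → i < p → 0 ≤ j → j < s → i * d ≠ e + j * (q * d)) :
    (∃ P Q, PQ (Ts p s q d e) P Q) ↔
      (q = 1 ∧ CondOne p s d e) ∨ (q = 2 ∧ Cond p s d e) ∨ (3 ≤ q ∧ CondThree p s q d) := by
  rcases h with ⟨rfl, h1, h2⟩ | ⟨rfl, h1, h2⟩ | ⟨h0, h1, h2⟩
  · rw [class_one h1 h2 hd hde he]
    constructor
    · exact fun h => Or.inl ⟨rfl, h⟩
    · rintro (⟨-, h⟩ | ⟨h, -⟩ | ⟨h, -⟩)
      · exact h
      · omega
      · omega
  · rw [iffQ2 h1 h2 hd hde he]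
    constructor
    · exact fun h => Or.inr (Or.inl ⟨rfl, h⟩)
    · rintro (⟨h, -⟩ | ⟨-, h⟩ | ⟨h, -⟩)
      · omega
      · exact h
      · omega
  · rw [class_three h0 h1 h2 hd hde he]
    constructor
    · exact fun h => Or.inr (Or.inr ⟨h0, h⟩)
    · rintro (⟨h, -⟩ | ⟨h, -⟩ | ⟨-, h⟩)
      · omega
      · omega
      · exact h

end MPae024f.Sc
end
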